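import Pool.Agent.Helper8.DenseLVCore

set_option autoImplicit false

namespace Pool.Agent.Helper8.DenseLV

open Finset Filter Topology

open Classical in
/-- Abstract sieve bound: `X` a set of sections with classes in a finitely generated group, the
solubility mod `r` depending only on the class mod `r`. -/
theorem sieve_bound {I : Type*} [Fintype I] [DecidableEq I] {G : Type*} [CommGroup G] {n g : ℕ}
    (f : (Fin g → ℤ) →+ Additive G) (hf : Function.Surjective f)
    (M : ℕ) (hM : 0 < M) (T : Finset ℕ) (hT : ∀ r ∈ T, r.Prime ∧ (r - 1) ∣ M)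
    {X : Type*} (cl : X → Fin n → G) (χ : ∀ r ∈ T, G →* (ZMod r)ˣ)
    (Good : ∀ r ∈ T, X → (I → ZMod r) → Prop)
    (h1 : ∀ r (hr : r ∈ T) (w w' : X), (∀ i, χ r hr (cl w i) = χ r hr (cl w' i)) →
      ∀ c, Good r hr w c → Good r hr w' c)
    (θ : ℝ) (hθ : 0 ≤ θ)
    (h2 : ∀ r (hr : r ∈ T) (w : X), ∃ SS : Finset (I → ZMod r), (∀ c, Good r hr w c → c ∈ SS) ∧
      (SS.card : ℝ) ≤ θ * (r : ℝ) ^ Fintype.card I)
    (H : ℕ) (hH : ∏ r ∈ T, r ≤ 2 * H + 1) :
    (((box I H).filter fun c => ∃ w, ∀ r (hr : r ∈ T), Good r hr w fun i => (c i : ZMod r)).card : ℝ)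
      ≤ 2 ^ Fintype.card I * (2 * H + 1) ^ Fintype.card I * ((M : ℝ) ^ (n * g) * θ ^ T.card) := by
  have hMz : (0 : ℤ) < M := by exact_mod_cast hM
  -- the class of a section
  have hlift : ∀ (w : X) (i : Fin n), ∃ a, f a = Additive.ofMul (cl w i) := fun w i => hf _
  choose e he using hlift
  let E : X → Fin n → Fin g → Fin M := fun w i k => ⟨(e w i k % M).toNat, by
    have h1 := Int.emod_lt_of_pos (e w i k) hMz
    have h2 := Int.emod_nonneg (e w i k) hMz.ne'
    omega⟩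
  have hE : ∀ w w', E w = E w' → ∀ r (hr : r ∈ T) i, χ r hr (cl w i) = χ r hr (cl w' i) := by
    intro w w' hww r hr i
    have : Fact r.Prime := ⟨(hT r hr).1⟩
    have e1 : cl w i = (f (e w i)).toMul := by rw [he]; rfl
    have e2 : cl w' i = (f (e w' i)).toMul := by rw [he]; rfl
    rw [e1, e2]
    refine units_congr (hT r hr).2 f _ _ _ fun k => ?_
    have h3 := congrArg Fin.val (congrFun (congrFun hww i) k)
    simp only [E] at h3
    have h4 := Int.emod_nonneg (e w i k) hMz.ne'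
    have h5 := Int.emod_nonneg (e w' i k) hMz.ne'
    have h6 : e w i k % M = e w' i k % M := by omega
    exact Int.ModEq.dvd (show e w' i k ≡ e w i k [ZMOD M] from h6.symm)
  -- representatives of the classes and their root sets
  have hSS : ∀ (ε : Fin n → Fin g → Fin M) (r : ℕ), ∃ SS : Finset (I → ZMod r),
      (∀ (hr : r ∈ T) (w : X), E w = ε → ∀ c, Good r hr w c → c ∈ SS) ∧
      (r ∈ T → (SS.card : ℝ) ≤ θ * (r : ℝ) ^ Fintype.card I) := by
    intro ε r
    by_cases hr : r ∈ T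
    · by_cases hex : ∃ w, E w = ε
      · obtain ⟨w0, hw0⟩ := hex
        obtain ⟨SS, hS1, hS2⟩ := h2 r hr w0
        refine ⟨SS, fun _ w hw c hc => hS1 c ?_, fun _ => hS2⟩
        exact h1 r hr w w0 (hE w w0 (hw.trans hw0.symm) r hr) c hc
      · exact ⟨∅, fun _ w hw => absurd ⟨w, hw⟩ hex, fun _ => by simp; positivity⟩
    · exact ⟨∅, fun h => absurd h hr, fun h => absurd h hr⟩
  choose SS hSS1 hSS2 using hSS
  have hsub : ((box I H).filter fun c => ∃ w, ∀ r (hr : r ∈ T),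
      Good r hr w fun i => (c i : ZMod r)) ⊆
      (univ : Finset (Fin n → Fin g → Fin M)).biUnion fun ε =>
        (box I H).filter fun c => ∀ r ∈ T, (fun i => (c i : ZMod r)) ∈ SS ε r := by
    intro c hc
    rw [mem_filter] at hc
    obtain ⟨hc1, w, hw⟩ := hc
    rw [mem_biUnion]
    refine ⟨E w, mem_univ _, ?_⟩
    rw [mem_filter]
    exact ⟨hc1, fun r hr => hSS1 (E w) r hr w rfl _ (hw r hr)⟩
  have hcard := (card_le_card hsub).trans card_biUnion_le
  calc _ ≤ ∑ ε : Fin n → Fin g → Fin M, (((box I H).filter fun c =>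
        ∀ r ∈ T, (fun i => (c i : ZMod r)) ∈ SS ε r).card : ℝ) := by exact_mod_cast hcard
    _ ≤ ∑ _ε : Fin n → Fin g → Fin M, (2 : ℝ) ^ Fintype.card I *
        (2 * (H : ℝ) + 1) ^ Fintype.card I * θ ^ T.card :=
        sum_le_sum fun ε _ =>
          box_count' T (fun r hr => (hT r hr).1) (SS ε) θ (fun r hr => hSS2 ε r hr) H hH
    _ = _ := by
        rw [sum_const, card_univ]
        simp only [Fintype.card_fun, Fintype.card_fin, nsmul_eq_mul]
        push_cast
        rw [← pow_mul, mul_comm g n]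
        ring

/-- the choice of the constant -/
theorem choose_const (m n g K : ℕ) (hm : 2 ≤ m) (ε : ℝ) (hε : 0 < ε) (Q : ℕ → Finset ℕ → Prop)
    (hprimes : ∀ C : ℝ, ∃ (M : ℕ) (T : Finset ℕ), 0 < M ∧ Q M T ∧
      C * (1 + Real.log M) ≤ T.card) :
    ∃ (M : ℕ) (T : Finset ℕ), 0 < M ∧ Q M T ∧
      (2 : ℝ) ^ K * ((M : ℝ) ^ (n * g) * (1 - 1 / (2 * m)) ^ T.card) ≤ ε := by
  have hm' : (2 : ℝ) ≤ m := by exact_mod_cast hm
  set θ : ℝ := 1 - 1 / (2 * m) with hθ
  have hθ0 : 0 < θ := by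
    rw [hθ, sub_pos, div_lt_one (by positivity)]
    linarith
  have hθ1 : θ < 1 := by
    rw [hθ]
    have : (0 : ℝ) < 1 / (2 * m) := by positivity
    linarith
  set κ : ℝ := -Real.log θ with hκ
  have hκ0 : 0 < κ := by
    rw [hκ, neg_pos]
    exact Real.log_neg hθ0 hθ1
  obtain ⟨D, hD1, hD2⟩ : ∃ D : ℝ, (n * g : ℕ) ≤ D ∧ (2 : ℝ) ^ K * Real.exp (-D) < ε := by
    refine ⟨max (n * g : ℕ) (Real.log ((2 : ℝ) ^ K / ε) + 1), le_max_left _ _, ?_⟩
    have h1 : (0 : ℝ) < (2 : ℝ) ^ K / ε := by positivity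
    have h2 : Real.exp (-(max ((n * g : ℕ) : ℝ) (Real.log ((2 : ℝ) ^ K / ε) + 1))) <
        Real.exp (-Real.log ((2 : ℝ) ^ K / ε)) := by
      apply Real.exp_lt_exp.mpr
      have := le_max_right ((n * g : ℕ) : ℝ) (Real.log ((2 : ℝ) ^ K / ε) + 1)
      linarith
    rw [Real.exp_neg (Real.log _), Real.exp_log h1] at h2
    calc (2 : ℝ) ^ K * Real.exp (-(max ((n * g : ℕ) : ℝ) (Real.log ((2 : ℝ) ^ K / ε) + 1)))
        < (2 : ℝ) ^ K * ((2 : ℝ) ^ K / ε)⁻¹ := by gcongr
      _ = ε := by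
          rw [inv_div]
          field_simp
  have hD0 : 0 ≤ D := le_trans (by positivity) hD1
  obtain ⟨M, T, hM, hT, hC⟩ := hprimes (D / κ)
  have hM1 : (1 : ℝ) ≤ M := by exact_mod_cast hM
  have hlog : 0 ≤ Real.log M := Real.log_nonneg hM1
  have hbound : (M : ℝ) ^ (n * g) * θ ^ T.card ≤ Real.exp (-D) := by
    have e1 : (M : ℝ) ^ (n * g) = Real.exp ((n * g : ℕ) * Real.log M) := by
      rw [Real.exp_nat_mul, Real.exp_log (by linarith)]
    have e2 : θ ^ T.card = Real.exp (-(T.card * κ)) := by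
      rw [hκ, mul_neg, neg_neg, Real.exp_nat_mul, Real.exp_log hθ0]
    rw [e1, e2, ← Real.exp_add]
    apply Real.exp_le_exp.mpr
    have e3 : D * (1 + Real.log M) ≤ T.card * κ := by
      have := mul_le_mul_of_nonneg_right hC hκ0.le
      calc D * (1 + Real.log M) = D / κ * (1 + Real.log M) * κ := by field_simp
        _ ≤ _ := this
    have e4 : ((n * g : ℕ) : ℝ) * Real.log M ≤ D * Real.log M :=
      mul_le_mul_of_nonneg_right hD1 hlog
    linarith
  refine ⟨M, T, hM, hT, ?_⟩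
  calc _ ≤ (2 : ℝ) ^ K * Real.exp (-D) := by gcongr
    _ ≤ ε := hD2.le

/-- two-parameter root count over `ZMod r` -/
theorem pair_count' {r m : ℕ} [Fact r.Prime] (hm : 2 ≤ m) (q : Polynomial (ZMod r))
    (hdeg : q.natDegree ≤ m) (hq : ∃ j, 2 ≤ j ∧ q.coeff j ≠ 0) (α β : (ZMod r)ˣ) :
    ((univ.filter fun c : Fin 2 → ZMod r => ∃ z, q.eval z + c 0 * α * z + c 1 * β = 0).card : ℝ) ≤
      (1 - 1 / (2 * m)) * (r : ℝ) ^ Fintype.card (Fin 2) := by
  classical
  have hr2 : 2 ≤ r := (Fact.out : r.Prime).two_le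
  have hroots : ∀ x y : ZMod r, (univ.filter fun z : ZMod r => q.eval z + y * z + x = 0).card ≤ m := by
    intro x y
    let p := q + (Polynomial.C y * Polynomial.X + Polynomial.C x)
    have hp0 : p ≠ 0 := by
      obtain ⟨j, hj, hqj⟩ := hq
      intro h0
      apply hqj
      have h1 := congrArg (fun t => Polynomial.coeff t j) h0
      simp only [p, Polynomial.coeff_add, Polynomial.coeff_C_mul, Polynomial.coeff_X,
        Polynomial.coeff_C, Polynomial.coeff_zero] at h1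
      rw [if_neg (by omega), if_neg (by omega)] at h1
      simpa using h1
    have hpd : p.natDegree ≤ m := by
      refine (Polynomial.natDegree_add_le _ _).trans (max_le hdeg ?_)
      refine (Polynomial.natDegree_add_le _ _).trans (max_le ?_ ?_)
      · exact (Polynomial.natDegree_C_mul_le _ _).trans (Polynomial.natDegree_X_le.trans (by omega))
      · rw [Polynomial.natDegree_C]
        exact Nat.zero_le _
    have hsub : (univ.filter fun z : ZMod r => q.eval z + y * z + x = 0) ⊆ p.roots.toFinset := by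
      intro z hz
      rw [mem_filter] at hz
      rw [Multiset.mem_toFinset, Polynomial.mem_roots hp0, Polynomial.IsRoot.def]
      simp only [p, Polynomial.eval_add, Polynomial.eval_mul, Polynomial.eval_C, Polynomial.eval_X]
      rw [← hz.2]
      ring
    calc _ ≤ p.roots.toFinset.card := card_le_card hsub
      _ ≤ Multiset.card p.roots := Multiset.toFinset_card_le _
      _ ≤ p.natDegree := Polynomial.card_roots' _
      _ ≤ m := hpd
  have h := pair_count r m (fun z => q.eval z) hroots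
  have hcard : (univ.filter fun c : Fin 2 → ZMod r =>
      ∃ z, q.eval z + c 0 * α * z + c 1 * β = 0).card =
      (univ.filter fun p : ZMod r × ZMod r => ∃ z, q.eval z + p.2 * z + p.1 = 0).card := by
    refine card_bij (fun c _ => (c 1 * β, c 0 * α)) ?_ ?_ ?_
    · intro c hc
      simpa using hc
    · intro c _ d _ hcd
      obtain ⟨e1, e2⟩ := Prod.mk.inj hcd
      have e1' : c 1 = d 1 := mul_right_cancel₀ (Units.ne_zero β) e1
      have e2' : c 0 = d 0 := mul_right_cancel₀ (Units.ne_zero α) e2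
      funext i
      fin_cases i
      · exact e2'
      · exact e1'
    · rintro ⟨x, y⟩ hxy
      refine ⟨![y * ((α⁻¹ : (ZMod r)ˣ) : ZMod r), x * ((β⁻¹ : (ZMod r)ˣ) : ZMod r)], ?_, ?_⟩
      · rw [mem_filter] at hxy ⊢
        refine ⟨mem_univ _, ?_⟩
        obtain ⟨z, hz⟩ := hxy.2
        refine ⟨z, ?_⟩
        show q.eval z + (y * ((α⁻¹ : (ZMod r)ˣ) : ZMod r)) * α * z +
          (x * ((β⁻¹ : (ZMod r)ˣ) : ZMod r)) * β = 0
        rw [Units.inv_mul_cancel_right, Units.inv_mul_cancel_right]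
        exact hz
      · show ((x * ((β⁻¹ : (ZMod r)ˣ) : ZMod r)) * β, (y * ((α⁻¹ : (ZMod r)ˣ) : ZMod r)) * α) =
          (x, y)
        rw [Units.inv_mul_cancel_right, Units.inv_mul_cancel_right]
  rw [hcard, Fintype.card_fin]
  set N := (univ.filter fun p : ZMod r × ZMod r => ∃ z, q.eval z + p.2 * z + p.1 = 0).card
  obtain ⟨k, rfl⟩ : ∃ k, r = k + 1 := ⟨r - 1, by omega⟩
  rw [Nat.add_sub_cancel] at h
  have h' : (m : ℝ) * N + ((k : ℝ) + 1) * k ≤ m * ((k : ℝ) + 1) ^ 2 := by exact_mod_cast h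
  have hk1 : (1 : ℝ) ≤ k := by exact_mod_cast (by omega : 1 ≤ k)
  have hm' : (2 : ℝ) ≤ m := by exact_mod_cast hm
  push_cast
  have hkk : ((k : ℝ) + 1) ^ 2 / 2 ≤ ((k : ℝ) + 1) * k := by nlinarith
  have hpos : (0 : ℝ) < m := by linarith
  have h3 : (m : ℝ) * N ≤ m * ((1 - 1 / (2 * m)) * ((k : ℝ) + 1) ^ 2) := by
    have e1 : (m : ℝ) * ((1 - 1 / (2 * m)) * ((k : ℝ) + 1) ^ 2) =
        m * ((k : ℝ) + 1) ^ 2 - ((k : ℝ) + 1) ^ 2 / 2 := by
      field_simp
    rw [e1]
    linarith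
  exact le_of_mul_le_mul_left h3 hpos

end Pool.Agent.Helper8.DenseLV
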