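import Mathlib

open Set
open scoped Real ComplexConjugate

namespace Pool.Agent.Helper8.Astral

/-- `cos (nπ/m)` -/
noncomputable def C (m : ℕ) (n : ℤ) : ℝ := Real.cos (n * (π / m))

/-- `exp (i nπ/m)` -/
noncomputable def e (m : ℕ) (n : ℤ) : ℂ := Complex.exp (((n * (π / m) : ℝ) : ℂ) * Complex.I)

/-- the line with foot point `F` -/
def tline (F : ℂ) : Set ℂ := {z | (z * conj F).re = Complex.normSq F}

theorem e_add (m : ℕ) (a b : ℤ) : e m (a + b) = e m a * e m b := by
  unfold e
  rw [← Complex.exp_add]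
  congr 1
  push_cast
  ring

theorem conj_e (m : ℕ) (a : ℤ) : conj (e m a) = e m (-a) := by
  unfold e
  rw [← Complex.exp_conj]
  congr 1
  simp

theorem norm_e (m : ℕ) (a : ℤ) : ‖e m a‖ = 1 := by
  unfold e
  exact Complex.norm_exp_ofReal_mul_I _

theorem e_ne_zero (m : ℕ) (a : ℤ) : e m a ≠ 0 := Complex.exp_ne_zero _

theorem e_re (m : ℕ) (a : ℤ) : (e m a).re = C m a := by
  unfold e C
  exact Complex.exp_ofReal_mul_I_re _

theorem C_neg (m : ℕ) (a : ℤ) : C m (-a) = C m a := by
  unfold C
  push_cast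
  rw [neg_mul, Real.cos_neg]

theorem C_eq_C_iff {m : ℕ} (hm : 0 < m) (a b : ℤ) :
    C m a = C m b ↔ ∃ k : ℤ, b = 2 * k * m + a ∨ b = 2 * k * m - a := by
  unfold C
  rw [Real.cos_eq_cos_iff]
  have hm' : (m : ℝ) ≠ 0 := by positivity
  have hpi := Real.pi_ne_zero
  refine exists_congr fun k => or_congr ?_ ?_
  · constructor
    · intro h
      have h2 : (b : ℝ) = 2 * k * m + a := by
        field_simp at h
        linarith
      exact_mod_cast h2
    · intro h
      rw [h]
      push_cast
      field_simp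
  · constructor
    · intro h
      have h2 : (b : ℝ) = 2 * k * m - a := by
        field_simp at h
        linarith
      exact_mod_cast h2
    · intro h
      rw [h]
      push_cast
      field_simp

theorem e_eq_e_iff {m : ℕ} (hm : 0 < m) (a b : ℤ) :
    e m a = e m b ↔ ∃ k : ℤ, b = 2 * k * m + a := by
  constructor
  · intro h
    have h1 : C m (b - a) = C m 0 := by
      rw [← e_re, ← e_re, sub_eq_add_neg, e_add, ← conj_e, ← h, Complex.mul_conj]
      rw [Complex.normSq_eq_norm_sq, norm_e]
      simp [e]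
    rw [C_eq_C_iff hm] at h1
    obtain ⟨k, hk | hk⟩ := h1
    · exact ⟨-k, by linarith⟩
    · exact ⟨k, by linarith⟩
  · rintro ⟨k, rfl⟩
    rw [e_add]
    have : e m (2 * k * m) = 1 := by
      unfold e
      have hm' : (m : ℂ) ≠ 0 := by exact_mod_cast hm.ne'
      rw [Complex.exp_eq_one_iff]
      refine ⟨k, ?_⟩
      push_cast
      field_simp
    rw [this, one_mul]

theorem C_key {m : ℕ} (hm : 0 < m) (s d : ℤ) :
    C m (-s + 2 * d) = C m s ↔ d ≡ 0 [ZMOD m] ∨ d ≡ s [ZMOD m] := by
  rw [C_eq_C_iff hm]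
  constructor
  · rintro ⟨k, hk | hk⟩
    · right
      rw [Int.modEq_iff_dvd]
      exact ⟨k, by linarith⟩
    · left
      rw [Int.modEq_iff_dvd]
      exact ⟨-k, by linarith⟩
  · rintro (h | h)
    · rw [Int.modEq_iff_dvd] at h
      obtain ⟨c, hc⟩ := h
      exact ⟨-c, Or.inr (by linarith)⟩
    · rw [Int.modEq_iff_dvd] at h
      obtain ⟨c, hc⟩ := h
      exact ⟨c, Or.inl (by linarith)⟩

theorem tline_injective {F F' : ℂ} (h : tline F = tline F') :
    F = F' := by
  have h0 : ∀ G : ℂ, G ∈ tline G := fun G => by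
    show (G * conj G).re = Complex.normSq G
    rw [Complex.mul_conj, Complex.ofReal_re]
  have h1 : F ∈ tline F' := by
    rw [← h]
    exact h0 F
  have h2 : F' ∈ tline F := by
    rw [h]
    exact h0 F'
  simp only [tline, mem_ofPred_eq] at h1 h2
  have h3 : Complex.normSq (F - F') = 0 := by
    rw [Complex.normSq_sub]
    simp only [Complex.mul_re, Complex.conj_re, Complex.conj_im] at h1 h2 ⊢
    linarith
  rw [Complex.normSq_eq_zero] at h3
  exact sub_eq_zero.mp h3

theorem image_rot {u : ℂ} (hu : ‖u‖ = 1) (F : ℂ) : (fun z => u * z) '' tline F = tline (u * F) := by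
  have hu2 : u * conj u = 1 := by
    rw [Complex.mul_conj, Complex.normSq_eq_norm_sq, hu]; simp
  ext z
  simp only [tline, mem_image, mem_ofPred_eq]
  constructor
  · rintro ⟨y, hy, rfl⟩
    rw [map_mul, Complex.normSq_mul, Complex.normSq_eq_norm_sq u, hu]
    rw [show u * y * (conj u * conj F) = (u * conj u) * (y * conj F) by ring, hu2]
    simpa using hy
  · intro hz
    refine ⟨conj u * z, ?_, ?_⟩
    · rw [map_mul, Complex.normSq_mul, Complex.normSq_eq_norm_sq u, hu] at hz
      rw [show conj u * z * conj F = z * (conj u * conj F) by ring]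
      simpa using hz
    · rw [← mul_assoc, hu2, one_mul]

theorem image_refl {u : ℂ} (hu : ‖u‖ = 1) (F : ℂ) :
    (fun z => u * conj z) '' tline F = tline (u * conj F) := by
  have h1 : (fun z : ℂ => u * conj z) '' tline F = (fun z => u * z) '' (conj '' tline F) := by
    rw [image_image]
  have h2 : (conj : ℂ → ℂ) '' tline F = tline (conj F) := by
    ext z
    simp only [tline, mem_image, mem_ofPred_eq]
    constructor
    · rintro ⟨y, hy, rfl⟩
      rw [← map_mul, Complex.conj_re, Complex.normSq_conj]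
      exact hy
    · intro hz
      refine ⟨conj z, ?_, by simp⟩
      rw [Complex.conj_conj, Complex.normSq_conj] at hz
      rw [← map_mul, ← Complex.conj_re] at *
      simpa using hz
  rw [h1, h2, image_rot hu]

theorem isLine_tline {F : ℂ} (hF : F ≠ 0) :
    ∃ a b : ℂ, a ≠ b ∧ tline F = (line[ℝ, a, b] : Set ℂ) := by
  refine ⟨F, F + Complex.I * F, ?_, ?_⟩
  · intro h
    have : Complex.I * F = 0 := by
      have := h.symm
      simpa using this
    simp [hF] at this
  · have hN : Complex.normSq F ≠ 0 := by rwa [Ne, Complex.normSq_eq_zero]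
    ext z
    simp only [tline, mem_ofPred_eq, SetLike.mem_coe]
    rw [mem_affineSpan_pair_iff_exists_lineMap_eq]
    constructor
    · intro hz
      refine ⟨(z * conj F).im / Complex.normSq F, ?_⟩
      have hcF : conj F ≠ 0 := by simpa using hF
      apply mul_right_cancel₀ hcF
      rw [AffineMap.lineMap_apply]
      apply Complex.ext
      · simp only [vsub_eq_sub, vadd_eq_add, add_sub_cancel_left, Complex.real_smul]
        rw [hz]
        rw [show (((z * conj F).im / Complex.normSq F : ℝ) * (Complex.I * F) + F) * conj F =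
          ((((z * conj F).im / Complex.normSq F : ℝ)) * Complex.I + 1) * (F * conj F) by ring,
          Complex.mul_conj]
        simp
      · simp only [vsub_eq_sub, vadd_eq_add, add_sub_cancel_left, Complex.real_smul]
        rw [show (((z * conj F).im / Complex.normSq F : ℝ) * (Complex.I * F) + F) * conj F =
          ((((z * conj F).im / Complex.normSq F : ℝ)) * Complex.I + 1) * (F * conj F) by ring,
          Complex.mul_conj]
        simp only [Complex.mul_im, Complex.add_re, Complex.add_im, Complex.ofReal_re,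
          Complex.ofReal_im, Complex.one_re, Complex.one_im, Complex.I_re, Complex.I_im,
          Complex.mul_re]
        field_simp
        ring
    · rintro ⟨r, rfl⟩
      rw [AffineMap.lineMap_apply]
      simp only [vsub_eq_sub, vadd_eq_add, add_sub_cancel_left, Complex.real_smul]
      rw [show ((r : ℂ) * (Complex.I * F) + F) * conj F = (r * Complex.I + 1) * (F * conj F) by ring,
        Complex.mul_conj]
      simp

section count

variable {X : Type*} {m : ℕ}

theorem range_eq_image (hm : 0 < m) (a : ℤ → X) (ha : ∀ k k', a k = a k' ↔ k ≡ k' [ZMOD m]) :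
    range a = (fun k : ℕ => a k) '' (Set.Iio m) := by
  ext x
  constructor
  · rintro ⟨k, rfl⟩
    have hm' : (0 : ℤ) < m := by exact_mod_cast hm
    refine ⟨(k % m).toNat, ?_, ?_⟩
    · rw [mem_Iio]
      have h1 := Int.emod_lt_of_pos k hm'
      have h2 := Int.emod_nonneg k hm'.ne'
      omega
    · show a _ = a _
      rw [ha, Int.toNat_of_nonneg (Int.emod_nonneg k hm'.ne')]
      exact Int.mod_modEq k m
  · rintro ⟨k, _, rfl⟩
    exact ⟨k, rfl⟩

theorem range_nat (hm : 0 < m) (a : ℤ → X) (ha : ∀ k k', a k = a k' ↔ k ≡ k' [ZMOD m]) :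
    range (fun k : ℕ => a k) = range a := by
  apply Subset.antisymm
  · rintro _ ⟨k, rfl⟩
    exact ⟨k, rfl⟩
  · rw [range_eq_image hm a ha]
    rintro _ ⟨k, _, rfl⟩
    exact ⟨k, rfl⟩

theorem range_finite (hm : 0 < m) (a : ℤ → X) (ha : ∀ k k', a k = a k' ↔ k ≡ k' [ZMOD m]) :
    (range a).Finite := by
  rw [range_eq_image hm a ha]
  exact (Set.finite_Iio m).image _

theorem range_ncard (hm : 0 < m) (a : ℤ → X) (ha : ∀ k k', a k = a k' ↔ k ≡ k' [ZMOD m]) :
    (range a).ncard = m := by
  rw [range_eq_image hm a ha, Set.InjOn.ncard_image]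
  · rw [← Finset.coe_Iio, ncard_coe_finset]
    simp
  · intro k hk k' hk' h
    have h2 : a k = a k' := h
    rw [ha] at h2
    rw [mem_Iio] at hk hk'
    have := Int.natCast_modEq_iff.mp h2
    exact Nat.ModEq.eq_of_lt_of_lt this hk hk'

theorem ncard_two (a : ℤ → X) (ha : ∀ k k', a k = a k' ↔ k ≡ k' [ZMOD m])
    (Q : X → Prop) (u v : ℤ) (huv : ¬ u ≡ v [ZMOD m])
    (hQ : ∀ k, Q (a k) ↔ k ≡ u [ZMOD m] ∨ k ≡ v [ZMOD m]) :
    {x ∈ range a | Q x}.ncard = 2 := by
  have : {x ∈ range a | Q x} = {a u, a v} := by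
    ext x
    simp only [mem_ofPred_eq, mem_range, mem_insert_iff, mem_singleton_iff]
    constructor
    · rintro ⟨⟨k, rfl⟩, hk⟩
      rw [ha, ha]
      exact (hQ k).mp hk
    · rintro (rfl | rfl)
      · exact ⟨⟨u, rfl⟩, (hQ u).mpr (Or.inl rfl)⟩
      · exact ⟨⟨v, rfl⟩, (hQ v).mpr (Or.inr rfl)⟩
  rw [this, ncard_pair]
  rwa [Ne, ha]

theorem iUnion_fin3 (A : Fin 3 → Set X) (j : Fin 3) :
    (⋃ i, A i) = A j ∪ (A (j + 1) ∪ A (j + 2)) := by
  ext x
  simp only [mem_iUnion, mem_union]
  constructor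
  · rintro ⟨i, hi⟩
    have : i = j ∨ i = j + 1 ∨ i = j + 2 := by
      clear hi
      revert i j; decide
    rcases this with rfl | rfl | rfl
    · exact Or.inl hi
    · exact Or.inr (Or.inl hi)
    · exact Or.inr (Or.inr hi)
  · rintro (h | h | h)
    · exact ⟨_, h⟩
    · exact ⟨_, h⟩
    · exact ⟨_, h⟩

theorem ncard_iUnion_fin3 (A : Fin 3 → Set X) (hfin : ∀ i, (A i).Finite)
    (hdis : ∀ i j, i ≠ j → Disjoint (A i) (A j)) (j : Fin 3) :
    (⋃ i, A i).ncard = (A j).ncard + ((A (j + 1)).ncard + (A (j + 2)).ncard) := by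
  have h1 : j + 1 ≠ j + 2 := by revert j; decide
  have h2 : j ≠ j + 1 := by revert j; decide
  have h3 : j ≠ j + 2 := by revert j; decide
  rw [iUnion_fin3 A j, ncard_union_eq _ (hfin _) ((hfin _).union (hfin _)),
    ncard_union_eq (hdis _ _ h1) (hfin _) (hfin _)]
  rw [disjoint_union_right]
  exact ⟨hdis _ _ h2, hdis _ _ h3⟩

end count

end Pool.Agent.Helper8.Astral
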