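import Mathlib

/-!
Definitions for 3-astral 4-configurations (problem MP_abecca_co).  The Euclidean plane is `ℂ`.
-/

open Set
open scoped Real ComplexConjugate

namespace Pool.Agent.Helper8.Astral

/-- `ℓ` is a straight line of the Euclidean plane `ℂ`. -/
def IsLine (ℓ : Set ℂ) : Prop := ∃ a b : ℂ, a ≠ b ∧ ℓ = (line[ℝ, a, b] : Set ℂ)

/-- The set `P` of points and the set `L` of lines form a geometric configuration `(n_4)`. -/
def IsConfiguration4 (n : ℕ) (P : Set ℂ) (L : Set (Set ℂ)) : Prop :=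
  P.Finite ∧ P.ncard = n ∧ L.Finite ∧ L.ncard = n ∧ (∀ ℓ ∈ L, IsLine ℓ) ∧
    (∀ ℓ ∈ L, (ℓ ∩ P).ncard = 4) ∧ ∀ p ∈ P, {ℓ ∈ L | p ∈ ℓ}.ncard = 4

/-- The point-line incidence graph: its vertices are the points and the lines, and a point is
joined to every line through it. -/
def incidenceGraph (P : Set ℂ) (L : Set (Set ℂ)) : SimpleGraph (P ⊕ L) :=
  SimpleGraph.fromRel fun x y =>
    ∃ (p : P) (ℓ : L), x = .inl p ∧ y = .inr ℓ ∧ (p : ℂ) ∈ (ℓ : Set ℂ)

/-- The `2m` elements of the dihedral group of order `2m` whose centre is `O = 0` and which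
contains the reflection in the real axis: the maps `z ↦ e^{2πik/m} z` and
`z ↦ e^{2πik/m} conj z`. -/
def dihedral (m : ℕ) : Set (ℂ → ℂ) :=
  {g | ∃ k : ℤ, (g = fun z => Complex.exp (2 * π * k / m * Complex.I) * z) ∨
    g = fun z => Complex.exp (2 * π * k / m * Complex.I) * conj z}

/-- `v 0, v 1, …, v (m-1), v m = v 0, …` are the successive vertices of a regular `m`-gon centred
at `O = 0` (a diagonal of span `s` joins `v k` and `v (k + s)`). -/
def IsRegularPolygon (m : ℕ) (v : ℕ → ℂ) : Prop :=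
  ∃ ρ φ : ℝ, 0 < ρ ∧ ∀ k : ℕ, v k = ρ * Complex.exp ((φ + 2 * π * k / m) * Complex.I)

/-- The `m`-gons with vertices `v 0 _, v 1 _, v 2 _` (the point orbits `P_1, P_2, P_3` of the
problem) and the line orbits `L 0, L 1, L 2` form a 3-astral 4-configuration with symbol
`m#(s 0, t 0; s 1, t 1; s 2, t 2)`.  Indices are in `Fin 3`, i.e. modulo 3, so `j + 2 = j - 1`. -/
structure IsThreeAstral (m : ℕ) (s t : Fin 3 → ℕ) (v : Fin 3 → ℕ → ℂ)
    (L : Fin 3 → Set (Set ℂ)) : Prop where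
  /-- the whole is a configuration `((3m)_4)` -/
  configuration : IsConfiguration4 (3 * m) (⋃ j, range (v j)) (⋃ j, L j)
  /-- `1 ≤ s_j, t_j < m/2` -/
  bounds : ∀ j, 1 ≤ s j ∧ 2 * s j < m ∧ 1 ≤ t j ∧ 2 * t j < m
  /-- each point orbit is the vertex set of a regular `m`-gon centred at `O` -/
  polygon : ∀ j, IsRegularPolygon m (v j)
  /-- the points of one class form one orbit of the dihedral group -/
  point_orbit : ∀ j, ∃ p, range (v j) = {p' | ∃ g ∈ dihedral m, p' = g p}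
  /-- the lines of one class form one orbit of the dihedral group -/
  line_orbit : ∀ j, ∃ ℓ, L j = {ℓ' | ∃ g ∈ dihedral m, ℓ' = g '' ℓ}
  /-- all six orbits have size `m` -/
  orbit_size : ∀ j, (range (v j)).ncard = m ∧ (L j).ncard = m
  /-- distinct orbits are disjoint -/
  orbit_disjoint : ∀ i j, i ≠ j → Disjoint (range (v i)) (range (v j)) ∧ Disjoint (L i) (L j)
  /-- the three `m`-gons have pairwise different circumradii (not asked for in the problem; it
  shows that no larger symmetry group can merge two of the point orbits) -/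
  radii : ∀ i j, i ≠ j → ‖v i 0‖ ≠ ‖v j 0‖
  /-- every line contains two points from each of two point orbits -/
  line_two : ∀ j, ∀ ℓ ∈ L j, (ℓ ∩ range (v j)).ncard = 2 ∧ (ℓ ∩ range (v (j + 1))).ncard = 2
  /-- every point lies on two lines from each of two line orbits -/
  point_two : ∀ j, ∀ p ∈ range (v j),
    {ℓ ∈ L j | p ∈ ℓ}.ncard = 2 ∧ {ℓ ∈ L (j + 2) | p ∈ ℓ}.ncard = 2
  /-- each line of `L_j` contains a diagonal of span `s_j` of the `m`-gon `P_j` and a diagonal of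
  span `t_j` of the `m`-gon `P_{j+1}` -/
  span : ∀ j, ∀ ℓ ∈ L j, (∃ k, v j k ∈ ℓ ∧ v j (k + s j) ∈ ℓ) ∧
    ∃ k, v (j + 1) k ∈ ℓ ∧ v (j + 1) (k + t j) ∈ ℓ

/-- The multiset `{s_1, s_2, s_3}`, with entries in `ℤ`. -/
def entries (s : Fin 3 → ℕ) : Multiset ℤ := {(s 0 : ℤ), (s 1 : ℤ), (s 2 : ℤ)}

/-- `m#{S, T}`, in this order, is a member of one of the systematic families 1-4. -/
def InFamily (m : ℤ) (S T : Multiset ℤ) : Prop :=
  ∃ p q r : ℤ, 0 < p ∧ 0 < q ∧ 0 < r ∧
    ((m = 2 * q ∧ S = {q - p, q - 2 * r, p} ∧ T = {q - 2 * p, q - r, r}) ∨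
      (m = 3 * q ∧ S = {q + p, q - p, p} ∧ T = {q, q, 3 * p}) ∨
      (m = 6 * q ∧ S = {3 * q - p, r, p} ∧ T = {3 * q - 2 * p, 2 * q, r}) ∨
      (m = 10 * q ∧ S = {5 * q - p, 2 * p, p} ∧ T = {|5 * q - 4 * p|, 4 * q, 2 * q}))

/-- The cohort `m#{s, t}` is neither trivial nor systematic. -/
def IsSporadicCohort (m : ℕ) (s t : Fin 3 → ℕ) : Prop :=
  entries s ≠ entries t ∧ ¬ InFamily m (entries s) (entries t) ∧
    ¬ InFamily m (entries t) (entries s)

/-- There is a connected sporadic 3-astral 4-configuration with symbol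
`m#(s 0, t 0; s 1, t 1; s 2, t 2)`. -/
def IsSporadicSymbol (m : ℕ) (s t : Fin 3 → ℕ) : Prop :=
  IsSporadicCohort m s t ∧ ∃ v L, IsThreeAstral m s t v L ∧
    (incidenceGraph (⋃ j, range (v j)) (⋃ j, L j)).Connected

end Pool.Agent.Helper8.Astral
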