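import Pool.Agent.Helper8.AstralDefs
import Pool.Agent.Helper8.AstralCore

/-!
Construction of the 3-astral 4-configurations `(12h+6)#(3h+2, 4h+2; 6h+2, 4h+2; 3h+1, 6h+1)`
(problem MP_abecca_co), and the proof that they are configurations, connected and sporadic.

With `C n = cos (nπ/m)`, `m = 12h + 6`, the three `m`-gons have radii
`ρ = (1, 2 C(3h+2), 4 C(3h+2) C(6h+2))` and the three classes of lines are at distances
`D = (C(3h+2), 2 C(3h+2) C(6h+2), C(6h+1))` from the centre.  A line of class `j` meets the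
`m`-gon `j` in a diagonal of span `s j`, the `m`-gon `j+1` in a diagonal of span `t j`, and misses
the `m`-gon `j+2` by size estimates (`C_gap`: no cosine `C n` lies strictly between `C(6h+2)` and
`C(6h+1)`).
-/

open Set
open scoped Real ComplexConjugate

namespace Pool.Agent.Helper8.Astral

theorem fin3_a : ∀ j : Fin 3, j + 1 + 2 = j := by decide

theorem fin3_b : ∀ j : Fin 3, j + 2 + 1 = j := by decide

/-- numerical data of a 3-astral configuration in standard position -/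
structure Data (m : ℕ) (s t : Fin 3 → ℕ) where
  ρ : Fin 3 → ℝ
  D : Fin 3 → ℝ
  f : Fin 3 → ℤ
  g : Fin 3 → ℤ
  c : Fin 3 → ℤ
  hm : 0 < m
  bounds : ∀ j, 1 ≤ s j ∧ 2 * s j < m ∧ 1 ≤ t j ∧ 2 * t j < m
  ρpos : ∀ j, 0 < ρ j
  Dpos : ∀ j, 0 < D j
  ρinj : Function.Injective ρ
  Dinj : Function.Injective D
  Ds : ∀ j, D j = ρ j * C m (s j)
  Dt : ∀ j, D j = ρ (j + 1) * C m (t j)
  fs : ∀ j, f j - g j = - s j
  ft : ∀ j, f (j + 1) - g j = - t j + 2 * c j
  hnone : ∀ j n, ρ (j + 2) * C m n ≠ D j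

namespace Data

variable {m : ℕ} {s t : Fin 3 → ℕ} (d : Data m s t)

/-- points -/
noncomputable def w (i : Fin 3) (l : ℤ) : ℂ := (d.ρ i : ℂ) * e m (d.f i + 2 * l)

/-- foot points -/
noncomputable def F (j : Fin 3) (k : ℤ) : ℂ := (d.D j : ℂ) * e m (d.g j + 2 * k)

/-- lines -/
noncomputable def ln (j : Fin 3) (k : ℤ) : Set ℂ := tline (d.F j k)

include d in
theorem s_not (j : Fin 3) (k : ℤ) : ¬ k ≡ k + s j [ZMOD m] := by
  intro h
  rw [Int.modEq_iff_dvd] at h
  have h1 := d.bounds j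
  have := Int.le_of_dvd (by omega) h
  omega

include d in
theorem t_not (j : Fin 3) (k : ℤ) : ¬ k ≡ k + t j [ZMOD m] := by
  intro h
  rw [Int.modEq_iff_dvd] at h
  have h1 := d.bounds j
  have := Int.le_of_dvd (by omega) h
  omega

theorem mem_iff (i j : Fin 3) (l k : ℤ) :
    d.w i l ∈ d.ln j k ↔ d.ρ i * C m (d.f i - d.g j + 2 * (l - k)) = d.D j := by
  have hD := d.Dpos j
  show (d.w i l * conj (d.F j k)).re = Complex.normSq (d.F j k) ↔ _
  have h1 : d.w i l * conj (d.F j k) =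
      ((d.ρ i * d.D j : ℝ) : ℂ) * e m (d.f i - d.g j + 2 * (l - k)) := by
    unfold w F
    rw [map_mul, conj_e, Complex.conj_ofReal]
    rw [show d.f i - d.g j + 2 * (l - k) = (d.f i + 2 * l) + -(d.g j + 2 * k) by ring,
      e_add m (d.f i + 2 * l)]
    push_cast
    ring
  have h2 : Complex.normSq (d.F j k) = d.D j ^ 2 := by
    unfold F
    rw [Complex.normSq_eq_norm_sq, norm_mul, norm_e, Complex.norm_real, mul_one,
      Real.norm_eq_abs, sq_abs]
  rw [h1, h2, Complex.re_ofReal_mul, e_re]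
  constructor
  · intro h
    apply mul_left_cancel₀ hD.ne'
    linarith
  · intro h
    calc d.ρ i * d.D j * C m (d.f i - d.g j + 2 * (l - k))
        = d.D j * (d.ρ i * C m (d.f i - d.g j + 2 * (l - k))) := by ring
      _ = _ := by rw [h]; ring

theorem modEq_sub_iff {m : ℕ} (l k u : ℤ) : l - k ≡ u [ZMOD m] ↔ l ≡ k + u [ZMOD m] := by
  rw [Int.modEq_iff_dvd, Int.modEq_iff_dvd]
  rw [show u - (l - k) = k + u - l by ring]

theorem mem_same (j : Fin 3) (l k : ℤ) :
    d.w j l ∈ d.ln j k ↔ l ≡ k [ZMOD m] ∨ l ≡ k + s j [ZMOD m] := by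
  rw [mem_iff, d.fs, d.Ds j]
  rw [mul_right_inj' (d.ρpos j).ne', C_key d.hm, modEq_sub_iff, modEq_sub_iff, add_zero]

theorem mem_next (j : Fin 3) (l k : ℤ) :
    d.w (j + 1) l ∈ d.ln j k ↔ l ≡ k - d.c j [ZMOD m] ∨ l ≡ k - d.c j + t j [ZMOD m] := by
  rw [mem_iff, d.ft, d.Dt j]
  rw [mul_right_inj' (d.ρpos (j + 1)).ne',
    show -(t j : ℤ) + 2 * d.c j + 2 * (l - k) = -(t j : ℤ) + 2 * (l - (k - d.c j)) by ring,
    C_key d.hm, modEq_sub_iff, modEq_sub_iff, add_zero]

theorem mem_none (j : Fin 3) (l k : ℤ) : d.w (j + 2) l ∉ d.ln j k := by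
  rw [mem_iff]
  exact d.hnone j _

theorem norm_w (i : Fin 3) (l : ℤ) : ‖d.w i l‖ = d.ρ i := by
  unfold w
  rw [norm_mul, norm_e, Complex.norm_real, mul_one, Real.norm_eq_abs, abs_of_pos (d.ρpos i)]

theorem norm_F (i : Fin 3) (l : ℤ) : ‖d.F i l‖ = d.D i := by
  unfold F
  rw [norm_mul, norm_e, Complex.norm_real, mul_one, Real.norm_eq_abs, abs_of_pos (d.Dpos i)]

theorem F_ne_zero (i : Fin 3) (l : ℤ) : d.F i l ≠ 0 := by
  rw [← norm_pos_iff, norm_F]
  exact d.Dpos i

theorem aux_eq {m : ℕ} (hm : 0 < m) (a l l' : ℤ) :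
    e m (a + 2 * l) = e m (a + 2 * l') ↔ l ≡ l' [ZMOD m] := by
  rw [e_eq_e_iff hm, Int.modEq_iff_dvd]
  constructor
  · rintro ⟨k, hk⟩
    exact ⟨k, by linarith⟩
  · rintro ⟨k, hk⟩
    exact ⟨k, by linarith⟩

theorem w_eq (i : Fin 3) (l l' : ℤ) : d.w i l = d.w i l' ↔ l ≡ l' [ZMOD m] := by
  unfold w
  have : (d.ρ i : ℂ) ≠ 0 := by exact_mod_cast (d.ρpos i).ne'
  rw [mul_right_inj' this, aux_eq d.hm]

theorem ln_eq (i : Fin 3) (l l' : ℤ) : d.ln i l = d.ln i l' ↔ l ≡ l' [ZMOD m] := by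
  have h1 : d.ln i l = d.ln i l' ↔ d.F i l = d.F i l' :=
    ⟨fun h => tline_injective h, fun h => by unfold ln; rw [h]⟩
  rw [h1]
  unfold F
  have : (d.D i : ℂ) ≠ 0 := by exact_mod_cast (d.Dpos i).ne'
  rw [mul_right_inj' this, aux_eq d.hm]

theorem w_disjoint (i j : Fin 3) (hij : i ≠ j) : Disjoint (range (d.w i)) (range (d.w j)) := by
  rw [Set.disjoint_left]
  rintro _ ⟨l, rfl⟩ ⟨l', h⟩
  apply hij
  apply d.ρinj
  rw [← norm_w d i l, ← norm_w d j l', h]

theorem ln_disjoint (i j : Fin 3) (hij : i ≠ j) : Disjoint (range (d.ln i)) (range (d.ln j)) := by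
  rw [Set.disjoint_left]
  rintro _ ⟨l, rfl⟩ ⟨l', h⟩
  apply hij
  apply d.Dinj
  rw [← norm_F d i l, ← norm_F d j l', tline_injective h]

theorem line_same (j : Fin 3) (k : ℤ) : (d.ln j k ∩ range (d.w j)).ncard = 2 := by
  rw [inter_comm]
  exact ncard_two (d.w j) (d.w_eq j) (fun x => x ∈ d.ln j k) k (k + s j) (d.s_not j k)
    (fun l => d.mem_same j l k)

theorem line_next (j : Fin 3) (k : ℤ) : (d.ln j k ∩ range (d.w (j + 1))).ncard = 2 := by
  rw [inter_comm]
  exact ncard_two (d.w (j + 1)) (d.w_eq (j + 1)) (fun x => x ∈ d.ln j k) (k - d.c j)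
    (k - d.c j + t j) (d.t_not j _) (fun l => d.mem_next j l k)

theorem line_none (j : Fin 3) (k : ℤ) : (d.ln j k ∩ range (d.w (j + 2))).ncard = 0 := by
  have : d.ln j k ∩ range (d.w (j + 2)) = ∅ := by
    rw [Set.eq_empty_iff_forall_notMem]
    rintro _ ⟨h1, l, rfl⟩
    exact d.mem_none j l k h1
  rw [this, ncard_empty]

theorem point_same (j : Fin 3) (l : ℤ) : {ℓ ∈ range (d.ln j) | d.w j l ∈ ℓ}.ncard = 2 := by
  refine ncard_two (d.ln j) (d.ln_eq j) (fun ℓ => d.w j l ∈ ℓ) (l - s j) l ?_ ?_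
  · have := d.s_not j (l - s j)
    rwa [sub_add_cancel] at this
  · intro k
    rw [mem_same]
    constructor
    · rintro (h | h)
      · exact Or.inr h.symm
      · left
        rw [Int.modEq_iff_dvd] at h ⊢
        rw [show l - s j - k = -(k + s j - l) by ring, dvd_neg]
        exact h
    · rintro (h | h)
      · right
        rw [Int.modEq_iff_dvd] at h ⊢
        rw [show k + s j - l = -(l - s j - k) by ring, dvd_neg]
        exact h
      · exact Or.inl h.symm

theorem point_prev (j : Fin 3) (l : ℤ) :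
    {ℓ ∈ range (d.ln j) | d.w (j + 1) l ∈ ℓ}.ncard = 2 := by
  refine ncard_two (d.ln j) (d.ln_eq j) (fun ℓ => d.w (j + 1) l ∈ ℓ)
    (l + d.c j - t j) (l + d.c j) ?_ ?_
  · have := d.t_not j (l + d.c j - t j)
    rwa [sub_add_cancel] at this
  · intro k
    rw [mem_next]
    constructor
    · rintro (h | h)
      · right
        rw [Int.modEq_iff_dvd] at h ⊢
        rw [show l + d.c j - k = -(k - d.c j - l) by ring, dvd_neg]
        exact h
      · left
        rw [Int.modEq_iff_dvd] at h ⊢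
        rw [show l + d.c j - t j - k = -(k - d.c j + t j - l) by ring, dvd_neg]
        exact h
    · rintro (h | h)
      · right
        rw [Int.modEq_iff_dvd] at h ⊢
        rw [show k - d.c j + t j - l = -(l + d.c j - t j - k) by ring, dvd_neg]
        exact h
      · left
        rw [Int.modEq_iff_dvd] at h ⊢
        rw [show k - d.c j - l = -(l + d.c j - k) by ring, dvd_neg]
        exact h

theorem point_none (j : Fin 3) (l : ℤ) :
    {ℓ ∈ range (d.ln j) | d.w (j + 2) l ∈ ℓ}.ncard = 0 := by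
  have : {ℓ ∈ range (d.ln j) | d.w (j + 2) l ∈ ℓ} = ∅ := by
    rw [Set.eq_empty_iff_forall_notMem]
    rintro _ ⟨⟨k, rfl⟩, h⟩
    exact d.mem_none j l k h
  rw [this, ncard_empty]

theorem range_w (j : Fin 3) : range (fun k : ℕ => d.w j k) = range (d.w j) :=
  range_nat d.hm _ (d.w_eq j)

theorem configuration :
    IsConfiguration4 (3 * m) (⋃ j, range fun k : ℕ => d.w j k) (⋃ j, range (d.ln j)) := by
  simp_rw [range_w]
  have hPf : ∀ i, (range (d.w i)).Finite := fun i => range_finite d.hm _ (d.w_eq i)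
  have hLf : ∀ i, (range (d.ln i)).Finite := fun i => range_finite d.hm _ (d.ln_eq i)
  have hPn : ∀ i, (range (d.w i)).ncard = m := fun i => range_ncard d.hm _ (d.w_eq i)
  have hLn : ∀ i, (range (d.ln i)).ncard = m := fun i => range_ncard d.hm _ (d.ln_eq i)
  refine ⟨finite_iUnion hPf, ?_, finite_iUnion hLf, ?_, ?_, ?_, ?_⟩
  · rw [ncard_iUnion_fin3 _ hPf d.w_disjoint 0, hPn, hPn, hPn]
    ring
  · rw [ncard_iUnion_fin3 _ hLf d.ln_disjoint 0, hLn, hLn, hLn]
    ring
  · rintro ℓ hℓ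
    rw [mem_iUnion] at hℓ
    obtain ⟨j, k, rfl⟩ := hℓ
    exact isLine_tline (d.F_ne_zero j k)
  · rintro ℓ hℓ
    rw [mem_iUnion] at hℓ
    obtain ⟨j, k, rfl⟩ := hℓ
    rw [inter_iUnion, ncard_iUnion_fin3 (fun i => d.ln j k ∩ range (d.w i))
      (fun i => (hPf i).subset inter_subset_right)
      (fun i i' h => (d.w_disjoint i i' h).mono inter_subset_right inter_subset_right) j]
    rw [line_same, line_next, line_none]
  · rintro p hp
    rw [mem_iUnion] at hp
    obtain ⟨j, l, rfl⟩ := hp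
    have h0 : {ℓ ∈ ⋃ i, range (d.ln i) | d.w j l ∈ ℓ} =
        ⋃ i, {ℓ ∈ range (d.ln i) | d.w j l ∈ ℓ} := by
      ext ℓ
      simp only [mem_ofPred_eq, mem_iUnion]
      constructor
      · rintro ⟨⟨i, hi⟩, h⟩
        exact ⟨i, hi, h⟩
      · rintro ⟨i, hi, h⟩
        exact ⟨⟨i, hi⟩, h⟩
    rw [h0, ncard_iUnion_fin3 (fun i => {ℓ ∈ range (d.ln i) | d.w j l ∈ ℓ})
      (fun i => (hLf i).subset (fun ℓ h => h.1))
      (fun i i' h => (d.ln_disjoint i i' h).mono (fun ℓ h => h.1) (fun ℓ h => h.1)) j]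
    rw [point_same]
    have h1 := d.point_none (j + 1) l
    have h2 := d.point_prev (j + 2) l
    rw [fin3_a] at h1
    rw [fin3_b] at h2
    rw [h1, h2]

theorem rot_w (i : Fin 3) (k l : ℤ) : e m (2 * k) * d.w i l = d.w i (l + k) := by
  unfold w
  rw [show d.f i + 2 * (l + k) = 2 * k + (d.f i + 2 * l) by ring, e_add m (2 * k)]
  ring

theorem refl_w (i : Fin 3) (k l : ℤ) : e m (2 * k) * conj (d.w i l) = d.w i (k - l - d.f i) := by
  unfold w
  rw [show d.f i + 2 * (k - l - d.f i) = 2 * k + -(d.f i + 2 * l) by ring, e_add m (2 * k),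
    map_mul, conj_e, Complex.conj_ofReal]
  ring

theorem rot_F (i : Fin 3) (k l : ℤ) : e m (2 * k) * d.F i l = d.F i (l + k) := by
  unfold F
  rw [show d.g i + 2 * (l + k) = 2 * k + (d.g i + 2 * l) by ring, e_add m (2 * k)]
  ring

theorem refl_F (i : Fin 3) (k l : ℤ) : e m (2 * k) * conj (d.F i l) = d.F i (k - l - d.g i) := by
  unfold F
  rw [show d.g i + 2 * (k - l - d.g i) = 2 * k + -(d.g i + 2 * l) by ring, e_add m (2 * k),
    map_mul, conj_e, Complex.conj_ofReal]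
  ring

theorem e_two_mul (m : ℕ) (k : ℤ) :
    Complex.exp (2 * π * k / m * Complex.I) = e m (2 * k) := by
  unfold e
  congr 1
  push_cast
  ring

theorem point_orbit (j : Fin 3) :
    ∃ p, range (fun k : ℕ => d.w j k) = {p' | ∃ g ∈ dihedral m, p' = g p} := by
  rw [range_w]
  refine ⟨d.w j 0, ?_⟩
  ext p
  simp only [mem_range, mem_ofPred_eq]
  constructor
  · rintro ⟨k, rfl⟩
    refine ⟨_, ⟨k, Or.inl rfl⟩, ?_⟩
    show _ = Complex.exp (2 * π * k / m * Complex.I) * d.w j 0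
    rw [e_two_mul, rot_w, zero_add]
  · rintro ⟨g, ⟨k, rfl | rfl⟩, rfl⟩
    · refine ⟨0 + k, ?_⟩
      show _ = Complex.exp (2 * π * k / m * Complex.I) * d.w j 0
      rw [e_two_mul, rot_w]
    · refine ⟨k - 0 - d.f j, ?_⟩
      show _ = Complex.exp (2 * π * k / m * Complex.I) * conj (d.w j 0)
      rw [e_two_mul, refl_w]

theorem line_orbit (j : Fin 3) :
    ∃ ℓ, range (d.ln j) = {ℓ' | ∃ g ∈ dihedral m, ℓ' = g '' ℓ} := by
  refine ⟨d.ln j 0, ?_⟩
  ext ℓ'
  simp only [mem_range, mem_ofPred_eq]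
  constructor
  · rintro ⟨k, rfl⟩
    refine ⟨_, ⟨k, Or.inl rfl⟩, ?_⟩
    rw [e_two_mul]
    unfold ln
    rw [image_rot (norm_e m _), rot_F, zero_add]
  · rintro ⟨g, ⟨k, rfl | rfl⟩, rfl⟩
    · refine ⟨0 + k, ?_⟩
      rw [e_two_mul]
      unfold ln
      rw [image_rot (norm_e m _), rot_F]
    · refine ⟨k - 0 - d.g j, ?_⟩
      rw [e_two_mul]
      unfold ln
      rw [image_refl (norm_e m _), refl_F]

theorem polygon (j : Fin 3) : IsRegularPolygon m (fun k : ℕ => d.w j k) := by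
  refine ⟨d.ρ j, d.f j * (π / m), d.ρpos j, fun k => ?_⟩
  show d.w j k = _
  unfold w e
  congr 2
  push_cast
  ring

theorem exists_nat_rep (j : Fin 3) (l : ℤ) (u : ℕ) :
    ∃ k : ℕ, d.w j k = d.w j l ∧ d.w j ((k + u : ℕ) : ℤ) = d.w j (l + u) := by
  have hm' : (0 : ℤ) < m := by exact_mod_cast d.hm
  refine ⟨(l % m).toNat, ?_, ?_⟩
  · rw [w_eq, Int.toNat_of_nonneg (Int.emod_nonneg l hm'.ne')]
    exact Int.mod_modEq l m
  · rw [w_eq]
    push_cast
    rw [Int.toNat_of_nonneg (Int.emod_nonneg l hm'.ne')]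
    exact (Int.mod_modEq l m).add_right _

theorem span (j : Fin 3) (ℓ : Set ℂ) (hℓ : ℓ ∈ range (d.ln j)) :
    (∃ k : ℕ, d.w j k ∈ ℓ ∧ d.w j ((k + s j : ℕ) : ℤ) ∈ ℓ) ∧
    ∃ k : ℕ, d.w (j + 1) k ∈ ℓ ∧ d.w (j + 1) ((k + t j : ℕ) : ℤ) ∈ ℓ := by
  obtain ⟨k, rfl⟩ := hℓ
  constructor
  · obtain ⟨k', h1, h2⟩ := d.exists_nat_rep j k (s j)
    refine ⟨k', ?_, ?_⟩
    · rw [h1, mem_same]
      exact Or.inl rfl
    · rw [h2, mem_same]
      exact Or.inr rfl
  · obtain ⟨k', h1, h2⟩ := d.exists_nat_rep (j + 1) (k - d.c j) (t j)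
    refine ⟨k', ?_, ?_⟩
    · rw [h1, mem_next]
      exact Or.inl rfl
    · rw [h2, mem_next]
      exact Or.inr rfl

theorem isThreeAstral : IsThreeAstral m s t (fun j k => d.w j k) (fun j => range (d.ln j)) where
  configuration := d.configuration
  bounds := d.bounds
  polygon := d.polygon
  point_orbit := d.point_orbit
  line_orbit := d.line_orbit
  orbit_size j := by
    refine ⟨?_, range_ncard d.hm _ (d.ln_eq j)⟩
    show (range (fun k : ℕ => d.w j k)).ncard = m
    rw [range_w]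
    exact range_ncard d.hm _ (d.w_eq j)
  orbit_disjoint i j h := by
    refine ⟨?_, d.ln_disjoint i j h⟩
    show Disjoint (range (fun k : ℕ => d.w i k)) (range (fun k : ℕ => d.w j k))
    rw [range_w, range_w]
    exact d.w_disjoint i j h
  radii i j h := by
    show ‖d.w i ((0 : ℕ) : ℤ)‖ ≠ ‖d.w j ((0 : ℕ) : ℤ)‖
    rw [norm_w, norm_w]
    exact fun he => h (d.ρinj he)
  line_two j ℓ hℓ := by
    obtain ⟨k, rfl⟩ := hℓ
    show (d.ln j k ∩ range (fun k : ℕ => d.w j k)).ncard = 2 ∧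
      (d.ln j k ∩ range (fun k : ℕ => d.w (j + 1) k)).ncard = 2
    rw [range_w, range_w]
    exact ⟨d.line_same j k, d.line_next j k⟩
  point_two j p hp := by
    have hp' : p ∈ range (fun k : ℕ => d.w j k) := hp
    rw [range_w] at hp'
    obtain ⟨l, rfl⟩ := hp'
    refine ⟨d.point_same j l, ?_⟩
    have h2 := d.point_prev (j + 2) l
    rw [fin3_b] at h2
    exact h2
  span j ℓ hℓ := d.span j ℓ hℓ

end Data

theorem C_lt {m : ℕ} (hm : 0 < m) {a b : ℤ} (ha : 0 ≤ a) (hab : a < b) (hb : b ≤ m) :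
    C m b < C m a := by
  unfold C
  have hm' : (0 : ℝ) < m := by exact_mod_cast hm
  have hx : 0 < π / m := by positivity
  apply Real.cos_lt_cos_of_nonneg_of_le_pi
  · have : (0 : ℝ) ≤ a := by exact_mod_cast ha
    positivity
  · have : (b : ℝ) ≤ m := by exact_mod_cast hb
    calc (b : ℝ) * (π / m) ≤ m * (π / m) := by gcongr
      _ = π := by field_simp
  · have : (a : ℝ) < b := by exact_mod_cast hab
    gcongr

theorem exists_red {m : ℕ} (hm : 0 < m) (n : ℤ) : ∃ n' : ℤ, 0 ≤ n' ∧ n' ≤ m ∧ C m n = C m n' := by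
  have h1 := Int.emod_nonneg n (show (2 * m : ℤ) ≠ 0 by omega)
  have h2 := Int.emod_lt_of_pos n (show (0 : ℤ) < 2 * m by omega)
  have h3 := Int.emod_add_mul_ediv n (2 * m)
  by_cases hr : n % (2 * m) ≤ m
  · refine ⟨n % (2 * m), h1, hr, ?_⟩
    rw [C_eq_C_iff hm]
    exact ⟨-(n / (2 * m)), Or.inl (by linarith)⟩
  · refine ⟨2 * m - n % (2 * m), by omega, by omega, ?_⟩
    rw [C_eq_C_iff hm]
    exact ⟨n / (2 * m) + 1, Or.inr (by linarith)⟩

theorem C_gap {m : ℕ} (hm : 0 < m) {a : ℤ} (ha : 0 ≤ a) (ha' : a + 1 ≤ m) (n : ℤ)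
    (h1 : C m (a + 1) < C m n) (h2 : C m n < C m a) : False := by
  obtain ⟨n', h0, hm', he⟩ := exists_red hm n
  rw [he] at h1 h2
  have h3 : a < n' := by
    by_contra hc
    rcases (not_lt.mp hc).eq_or_lt with h | h
    · rw [h] at h2; exact lt_irrefl _ h2
    · have := C_lt hm h0 h (by omega)
      linarith
  have h4 : n' < a + 1 := by
    by_contra hc
    rcases (not_lt.mp hc).eq_or_lt with h | h
    · rw [← h] at h1; exact lt_irrefl _ h1
    · have := C_lt hm (show 0 ≤ a + 1 by omega) h (by omega)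
      linarith
  omega

theorem C_mul (m : ℕ) (a b : ℤ) : 2 * C m a * C m b = C m (a - b) + C m (a + b) := by
  unfold C
  rw [Real.two_mul_cos_mul_cos]
  push_cast
  rw [sub_mul, add_mul]

theorem C_le_one (m : ℕ) (a : ℤ) : C m a ≤ 1 := Real.cos_le_one _

section values

variable {h : ℕ}

theorem C_third (h : ℕ) : C (12 * h + 6) (4 * h + 2) = 1 / 2 := by
  unfold C
  rw [← Real.cos_pi_div_three]
  congr 1
  push_cast
  have : (12 * (h : ℝ) + 6) ≠ 0 := by positivity
  field_simp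
  ring

theorem C_half (h : ℕ) : C (12 * h + 6) (6 * h + 3) = 0 := by
  unfold C
  rw [← Real.cos_pi_div_two]
  congr 1
  push_cast
  have : (12 * (h : ℝ) + 6) ≠ 0 := by positivity
  field_simp
  ring

theorem C_small (hh : 1 ≤ h) : C (12 * h + 6) (6 * h + 2) < 1 / 4 := by
  have h1 : C (12 * h + 6) (6 * h + 2) = Real.sin (π / (12 * h + 6)) := by
    unfold C
    rw [← Real.cos_pi_div_two_sub]
    congr 1
    push_cast
    have : (12 * (h : ℝ) + 6) ≠ 0 := by positivity
    field_simp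
    ring
  rw [h1]
  have hh' : (1 : ℝ) ≤ h := by exact_mod_cast hh
  have h2 : Real.sin (π / (12 * h + 6)) < π / (12 * h + 6) := Real.sin_lt (by positivity)
  have h3 : π / (12 * h + 6) ≤ 1 / 4 := by
    rw [div_le_div_iff₀ (by positivity) (by norm_num)]
    have := Real.pi_lt_d2
    nlinarith
  linarith

theorem C_small_pos (h : ℕ) : 0 < C (12 * h + 6) (6 * h + 2) := by
  rw [← C_half h]
  apply C_lt <;> omega

theorem C_mid (hh : 1 ≤ h) : 1 / 2 < C (12 * h + 6) (3 * h + 2) := by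
  rw [← C_third h]
  apply C_lt <;> omega

theorem C_mid' (h : ℕ) : 1 / 2 < C (12 * h + 6) (3 * h + 1) := by
  rw [← C_third h]
  apply C_lt <;> omega

theorem C_mid_lt (hh : 1 ≤ h) : C (12 * h + 6) (3 * h + 2) < C (12 * h + 6) 1 := by
  apply C_lt <;> omega

theorem C_mid_lt' (hh : 1 ≤ h) : C (12 * h + 6) (3 * h + 1) < C (12 * h + 6) 1 := by
  apply C_lt <;> omega

theorem C_prod (h : ℕ) : 2 * C (12 * h + 6) (3 * h + 2) * C (12 * h + 6) (3 * h + 1) =
    C (12 * h + 6) 1 := by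
  rw [C_mul, show (3 * h + 2 : ℤ) + (3 * h + 1) = 6 * h + 3 by ring, C_half,
    show (3 * h + 2 : ℤ) - (3 * h + 1) = 1 by ring, add_zero]

theorem C_prod' (h : ℕ) : 2 * C (12 * h + 6) (6 * h + 2) * C (12 * h + 6) 1 =
    C (12 * h + 6) (6 * h + 1) := by
  rw [C_mul, show (6 * h + 2 : ℤ) + 1 = 6 * h + 3 by ring, C_half,
    show (6 * h + 2 : ℤ) - 1 = 6 * h + 1 by ring, add_zero]

/-- no `cos (nπ/m)` equals `2 sin (π/m) y` when `1/2 < y < cos (π/m)` -/
theorem C_ne (h : ℕ) (y : ℝ) (hy : 1 / 2 < y) (hy' : y < C (12 * h + 6) 1) (n : ℤ) :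
    C (12 * h + 6) n ≠ 2 * C (12 * h + 6) (6 * h + 2) * y := by
  intro he
  have hpos := C_small_pos h
  refine C_gap (m := 12 * h + 6) (by omega) (a := 6 * h + 1) (by omega) (by omega) n ?_ ?_
  · rw [show (6 * h + 1 + 1 : ℤ) = 6 * h + 2 by ring, he]
    nlinarith
  · rw [he, ← C_prod']
    nlinarith

end values

theorem inj3 {a b c : ℝ} (h1 : a ≠ b) (h2 : a ≠ c) (h3 : b ≠ c) :
    Function.Injective ![a, b, c] := by
  intro i j hij
  fin_cases i <;> fin_cases j <;> simp_all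

/-- the data for `m = 12h + 6` -/
noncomputable def data (h : ℕ) (hh : 1 ≤ h) :
    Data (12 * h + 6) ![3 * h + 2, 6 * h + 2, 3 * h + 1] ![4 * h + 2, 4 * h + 2, 6 * h + 1] where
  ρ := ![1, 2 * C (12 * h + 6) (3 * h + 2),
    4 * C (12 * h + 6) (3 * h + 2) * C (12 * h + 6) (6 * h + 2)]
  D := ![C (12 * h + 6) (3 * h + 2), 2 * C (12 * h + 6) (3 * h + 2) * C (12 * h + 6) (6 * h + 2),
    C (12 * h + 6) (6 * h + 1)]
  f := ![0, -h, h]
  g := ![3 * h + 2, 5 * h + 2, 4 * h + 1]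
  c := ![0, 0, h]
  hm := by omega
  bounds j := by fin_cases j <;> simp <;> omega
  ρpos j := by
    have h1 := C_mid hh
    have h2 := C_small_pos h
    fin_cases j <;> simp <;> positivity
  Dpos j := by
    have h1 := C_mid hh
    have h2 := C_small_pos h
    have h3 : 0 < C (12 * h + 6) (6 * h + 1) := by
      rw [← C_half h]
      apply C_lt <;> omega
    fin_cases j <;> simp <;> positivity
  ρinj := by
    have h1 := C_mid hh
    have h2 := C_small_pos h
    have h3 := C_small hh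
    have h4 := C_le_one (12 * h + 6) (3 * h + 2)
    have h5 : 4 * C (12 * h + 6) (3 * h + 2) * C (12 * h + 6) (6 * h + 2) < 1 := by nlinarith
    apply inj3
    · intro he; linarith
    · exact h5.ne'
    · intro he; linarith
  Dinj := by
    have h1 := C_mid hh
    have h2 := C_small_pos h
    have h3 := C_small hh
    have h4 := C_le_one (12 * h + 6) (3 * h + 2)
    have h5 := C_le_one (12 * h + 6) 1
    have h6 := C_mid_lt hh
    rw [← C_prod']
    apply inj3
    · intro he; nlinarith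
    · intro he; nlinarith
    · intro he; nlinarith
  Ds j := by
    fin_cases j
    · simp
    · simp
    · have h1 := C_prod h
      have h2 := C_prod' h
      simp only [Fin.reduceFinMk, Matrix.cons_val]
      push_cast
      rw [← h2, ← h1]
      ring
  Dt j := by
    have h1 := C_third h
    fin_cases j
    · simp [h1]
      ring
    · simp [h1]
      ring
    · simp
  fs j := by
    fin_cases j <;> simp <;> ring
  ft j := by
    fin_cases j <;> simp <;> ring
  hnone j n := by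
    have h1 := C_mid hh
    have h2 := C_small_pos h
    have h3 := C_small hh
    have h4 := C_le_one (12 * h + 6) n
    fin_cases j
    · simp
      intro he
      have h5 : C (12 * h + 6) (6 * h + 2) * C (12 * h + 6) n < 1 / 4 := by nlinarith
      nlinarith
    · have := C_ne h _ h1 (C_mid_lt hh) n
      simp
      intro he
      exact this (by rw [he]; ring)
    · have := C_ne h _ (C_mid' h) (C_mid_lt' hh) n
      simp
      rw [← C_prod', ← C_prod]
      intro he
      apply this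
      have h5 : (2 * C (12 * h + 6) (3 * h + 2)) ≠ 0 := by positivity
      apply mul_left_cancel₀ h5
      rw [he]
      ring

namespace Data

variable {m : ℕ} {s t : Fin 3 → ℕ} (d : Data m s t)

theorem hw (i : Fin 3) (l : ℤ) : d.w i l ∈ ⋃ j, range fun k : ℕ => d.w j k := by
  rw [mem_iUnion]
  refine ⟨i, ?_⟩
  rw [range_w]
  exact ⟨l, rfl⟩

theorem hl (j : Fin 3) (k : ℤ) : d.ln j k ∈ ⋃ j, range (d.ln j) := by
  rw [mem_iUnion]
  exact ⟨j, k, rfl⟩

/-- the incidence graph -/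
def G : SimpleGraph
    ((⋃ j, range fun k : ℕ => d.w j k : Set ℂ) ⊕ (⋃ j, range (d.ln j) : Set (Set ℂ))) :=
  incidenceGraph (⋃ j, range fun k : ℕ => d.w j k) (⋃ j, range (d.ln j))

theorem reach {i j : Fin 3} {l k : ℤ} (h : d.w i l ∈ d.ln j k) :
    d.G.Reachable (.inl ⟨d.w i l, d.hw i l⟩) (.inr ⟨d.ln j k, d.hl j k⟩) := by
  apply SimpleGraph.Adj.reachable
  rw [G, incidenceGraph, SimpleGraph.fromRel_adj]
  refine ⟨by simp, Or.inl ⟨_, _, rfl, rfl, h⟩⟩

theorem reach2 {i i' j : Fin 3} {l l' k : ℤ} (h : d.w i l ∈ d.ln j k) (h' : d.w i' l' ∈ d.ln j k) :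
    d.G.Reachable (.inl ⟨d.w i l, d.hw i l⟩) (.inl ⟨d.w i' l', d.hw i' l'⟩) :=
  (d.reach h).trans (d.reach h').symm

theorem connected (hgen : ∃ a b : ℤ, a * s 0 + b * t 2 = 1) : d.G.Connected := by
  let S : AddSubgroup ℤ :=
    { carrier := {x | ∀ l, d.G.Reachable (.inl ⟨d.w 0 l, d.hw 0 l⟩)
        (.inl ⟨d.w 0 (l + x), d.hw 0 (l + x)⟩)}
      zero_mem' := by
        intro l
        simp only [add_zero]
        exact SimpleGraph.Reachable.refl _
      add_mem' := by
        intro a b ha hb l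
        have h1 := ha l
        have h2 := hb (l + a)
        simp only [add_assoc] at h2
        exact h1.trans h2
      neg_mem' := by
        intro a ha l
        have h1 := ha (l + -a)
        simp only [add_assoc, neg_add_cancel, add_zero] at h1
        exact h1.symm }
  have hs : (s 0 : ℤ) ∈ S := by
    intro l
    exact d.reach2 (j := 0) (k := l) ((d.mem_same 0 l l).mpr (Or.inl rfl))
      ((d.mem_same 0 _ l).mpr (Or.inr rfl))
  have ht : (t 2 : ℤ) ∈ S := by
    intro l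
    refine d.reach2 (j := 2) (k := l + d.c 2) ((d.mem_next 2 l _).mpr (Or.inl ?_))
      ((d.mem_next 2 _ _).mpr (Or.inr ?_))
    · rw [add_sub_cancel_right]
    · rw [add_sub_cancel_right]
  have h1 : (1 : ℤ) ∈ S := by
    obtain ⟨a, b, hab⟩ := hgen
    rw [← hab]
    apply S.add_mem
    · simpa using S.zsmul_mem hs a
    · simpa using S.zsmul_mem ht b
  have hall : ∀ x : ℤ, x ∈ S := fun x => by simpa using S.zsmul_mem h1 x
  have h00 : ∀ l, d.G.Reachable (.inl ⟨d.w 0 0, d.hw 0 0⟩) (.inl ⟨d.w 0 l, d.hw 0 l⟩) := by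
    intro l
    have := hall l 0
    simp only [zero_add] at this
    exact this
  have hpt : ∀ j l, d.G.Reachable (.inl ⟨d.w 0 0, d.hw 0 0⟩) (.inl ⟨d.w j l, d.hw j l⟩) := by
    intro j l
    have hj : j = 0 ∨ j = 0 + 1 ∨ j = 2 := by revert j; decide
    rcases hj with rfl | rfl | rfl
    · exact h00 l
    · refine (h00 (l + d.c 0)).trans (d.reach2 (j := 0) (k := l + d.c 0)
        ((d.mem_same 0 _ _).mpr (Or.inl rfl)) ((d.mem_next 0 _ _).mpr (Or.inl ?_)))
      rw [add_sub_cancel_right]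
    · exact (h00 (l - d.c 2)).trans (d.reach2 (j := 2) (k := l)
        ((d.mem_next 2 _ _).mpr (Or.inl rfl)) ((d.mem_same 2 _ _).mpr (Or.inl rfl)))
  rw [SimpleGraph.connected_iff_exists_forall_reachable]
  refine ⟨.inl ⟨d.w 0 0, d.hw 0 0⟩, ?_⟩
  rintro (⟨p, hp⟩ | ⟨ℓ, hℓ⟩)
  · have hp' := hp
    rw [mem_iUnion] at hp'
    obtain ⟨j, l, rfl⟩ := hp'
    exact hpt j l
  · have hℓ' := hℓ
    rw [mem_iUnion] at hℓ'
    obtain ⟨j, k, rfl⟩ := hℓ'
    exact (hpt j k).trans (d.reach ((d.mem_same j k k).mpr (Or.inl rfl)))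

end Data

theorem sporadic (h : ℕ) (hh : 1 ≤ h) : IsSporadicCohort (12 * h + 6)
    ![3 * h + 2, 6 * h + 2, 3 * h + 1] ![4 * h + 2, 4 * h + 2, 6 * h + 1] := by
  have key : ∀ {a b c a' b' c' : ℤ}, ({a, b, c} : Multiset ℤ) = {a', b', c'} →
      a + b + c = a' + b' + c' := by
    intro a b c a' b' c' he
    have := congrArg Multiset.sum he
    simp only [Multiset.insert_eq_cons, Multiset.sum_cons, Multiset.sum_singleton] at this
    linarith
  have kmem : ∀ {a b c a' b' c' : ℤ}, ({a, b, c} : Multiset ℤ) = {a', b', c'} →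
      (b' = a ∨ b' = b ∨ b' = c) ∧ (c' = a ∨ c' = b ∨ c' = c) := by
    intro a b c a' b' c' he
    constructor
    · have : b' ∈ ({a, b, c} : Multiset ℤ) := by rw [he]; simp
      simpa using this
    · have : c' ∈ ({a, b, c} : Multiset ℤ) := by rw [he]; simp
      simpa using this
  have e1 : entries ![3 * h + 2, 6 * h + 2, 3 * h + 1] =
      {(3 * h + 2 : ℤ), (6 * h + 2 : ℤ), (3 * h + 1 : ℤ)} := by
    simp [entries]
  have e2 : entries ![4 * h + 2, 4 * h + 2, 6 * h + 1] =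
      {(4 * h + 2 : ℤ), (4 * h + 2 : ℤ), (6 * h + 1 : ℤ)} := by
    simp [entries]
  unfold IsSporadicCohort InFamily
  rw [e1, e2]
  push_cast
  refine ⟨fun he => ?_, ?_, ?_⟩
  · have := key he
    omega
  · rintro ⟨p, q, r, hp, hq, hr, h1 | h1 | h1 | h1⟩ <;> obtain ⟨hm, hS, hT⟩ := h1 <;>
      have k1 := key hS <;> have k2 := key hT <;> have k3 := kmem hS <;> have k4 := kmem hT
    · omega
    · omega
    · omega
    · rcases abs_cases (5 * q - 4 * p) with ⟨ha, _⟩ | ⟨ha, _⟩ <;> rw [ha] at k2 <;> omega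
  · rintro ⟨p, q, r, hp, hq, hr, h1 | h1 | h1 | h1⟩ <;> obtain ⟨hm, hS, hT⟩ := h1 <;>
      have k1 := key hS <;> have k2 := key hT <;> have k3 := kmem hS <;> have k4 := kmem hT
    · omega
    · omega
    · omega
    · rcases abs_cases (5 * q - 4 * p) with ⟨ha, _⟩ | ⟨ha, _⟩ <;> rw [ha] at k2 <;> omega

theorem main (h : ℕ) (hh : 1 ≤ h) : IsSporadicSymbol (12 * h + 6)
    ![3 * h + 2, 6 * h + 2, 3 * h + 1] ![4 * h + 2, 4 * h + 2, 6 * h + 1] := by
  refine ⟨sporadic h hh, _, _, (data h hh).isThreeAstral, ?_⟩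
  refine (data h hh).connected ⟨2 * h + 1, -(h + 1), ?_⟩
  simp
  ring

end Pool.Agent.Helper8.Astral
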