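import Pool.Agent.Helper60.BTLowDefs

set_option autoImplicit false

/-!
Module T of the lower bound `bt (K_n □ K_n) ≥ c n^{7/6}`: a large twist.
-/

namespace Pool.Agent.Helper60.BT
open Finset

variable {N n p : ℕ}

theorem nbs_bounds (W : WD N n p) {t ℓ s : ℕ} (h : s ∈ W.nbs t ℓ) :
    s < N ∧ W.f s = W.f t ∧ s ≤ t + ℓ ∧ t ≤ s + ℓ := by
  simpa [WD.nbs] using h

theorem region_far {u v ℓ : ℕ} (hℓ : 1 ≤ ℓ) (h : u / ℓ + 3 ≤ v / ℓ) : u + 2 * ℓ < v := by
  have h1 := Nat.div_mul_le_self v ℓ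
  have h2 : u < (u / ℓ + 1) * ℓ := by
    have h3 := Nat.div_add_mod u ℓ
    have h4 := Nat.mod_lt u (show 0 < ℓ by omega)
    nlinarith
  have h5 : (u / ℓ + 3) * ℓ ≤ v / ℓ * ℓ := Nat.mul_le_mul_right _ h
  nlinarith

theorem twist_card (W : WD N n p) (X : Finset ℕ) (w w' : ℕ → ℕ) (S ℓ : ℕ) (hℓ : 1 ≤ ℓ)
    (hw : ∀ t ∈ X, w t < N ∧ W.f (w t) = W.f t ∧ S ≤ (W.nbs (w t) ℓ).card)
    (hw' : ∀ t ∈ X, w' t < N ∧ W.f (w' t) = W.f t ∧ S ≤ (W.nbs (w' t) ℓ).card)
    (hX : ∀ t ∈ X, ∀ t' ∈ X, t < t' → w t' / ℓ + 3 ≤ w t / ℓ ∧ w' t' / ℓ + 3 ≤ w' t / ℓ)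
    (hsep : ∀ t ∈ X, ∀ t' ∈ X, w t + 2 * ℓ < w' t') : S * X.card ≤ p := by
  classical
  have ha : ∀ x, ∃ e : Fin S → ℕ, x ∈ X → (StrictMono e ∧ ∀ i, e i ∈ W.nbs (w x) ℓ) := by
    intro x
    by_cases hx : x ∈ X
    · exact ⟨(W.nbs (w x) ℓ).orderEmbOfCardLe (hw x hx).2.2, fun _ =>
        ⟨OrderEmbedding.strictMono _, fun i => Finset.orderEmbOfCardLe_mem _ _ _⟩⟩
    · exact ⟨fun _ => 0, fun h => absurd h hx⟩
  have hb : ∀ x, ∃ e : Fin S → ℕ, x ∈ X → (StrictMono e ∧ ∀ i, e i ∈ W.nbs (w' x) ℓ) := by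
    intro x
    by_cases hx : x ∈ X
    · exact ⟨(W.nbs (w' x) ℓ).orderEmbOfCardLe (hw' x hx).2.2, fun _ =>
        ⟨OrderEmbedding.strictMono _, fun i => Finset.orderEmbOfCardLe_mem _ _ _⟩⟩
    · exact ⟨fun _ => 0, fun h => absurd h hx⟩
  choose a ha using ha
  choose b hb using hb
  -- letters
  have hlet : ∀ x ∈ X, ∀ i j, W.f (a x i) = W.f (b x j) := by
    intro x hx i j
    rw [(nbs_bounds W ((ha x hx).2 i)).2.1, (nbs_bounds W ((hb x hx).2 j)).2.1, (hw x hx).2.1,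
      (hw' x hx).2.1]
  have hab : ∀ x ∈ X, ∀ y ∈ X, ∀ i j, a x i < b y j := by
    intro x hx y hy i j
    have h1 := nbs_bounds W ((ha x hx).2 i)
    have h2 := nbs_bounds W ((hb y hy).2 j)
    have h3 := hsep x hx y hy
    omega
  have haa : ∀ x ∈ X, ∀ y ∈ X, x < y → ∀ i j, a y i < a x j := by
    intro x hx y hy hxy i j
    have h1 := nbs_bounds W ((ha x hx).2 j)
    have h2 := nbs_bounds W ((ha y hy).2 i)
    have h3 := region_far hℓ (hX x hx y hy hxy).1
    omega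
  have hbb : ∀ x ∈ X, ∀ y ∈ X, x < y → ∀ i j, b y i < b x j := by
    intro x hx y hy hxy i j
    have h1 := nbs_bounds W ((hb x hx).2 j)
    have h2 := nbs_bounds W ((hb y hy).2 i)
    have h3 := region_far hℓ (hX x hx y hy hxy).2
    omega
  have key : ∀ x ∈ X, ∀ y ∈ X, ∀ i j, a x i < a y j → b x i < b y j →
      W.pg (a x i) (b x i) ≠ W.pg (a y j) (b y j) := by
    intro x hx y hy i j h1 h2
    exact W.nc _ _ _ _ h1 (hab y hy x hx j i) h2 (nbs_bounds W ((hb y hy).2 j)).1 (hlet x hx i i)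
      (hlet y hy j j)
  have hcard : (X ×ˢ (Finset.univ : Finset (Fin S))).card ≤ (Finset.range p).card := by
    apply Finset.card_le_card_of_injOn (fun z => W.pg (a z.1 z.2) (b z.1 z.2))
    · intro z hz
      rw [Finset.mem_coe, Finset.mem_product] at hz
      rw [Finset.mem_coe, Finset.mem_range]
      exact W.pg_lt _ _ (nbs_bounds W ((ha z.1 hz.1).2 z.2)).1 (nbs_bounds W ((hb z.1 hz.1).2 z.2)).1
        (hab z.1 hz.1 z.1 hz.1 z.2 z.2).ne (hlet z.1 hz.1 z.2 z.2)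
    · rintro ⟨x, i⟩ hx ⟨y, j⟩ hy hxy
      rw [Finset.mem_coe, Finset.mem_product] at hx hy
      simp only at hx hy hxy
      by_contra hne
      rcases lt_trichotomy x y with h | h | h
      · exact key y hy.1 x hx.1 j i (haa x hx.1 y hy.1 h j i) (hbb x hx.1 y hy.1 h j i) hxy.symm
      · subst h
        have hij : i ≠ j := fun h => hne (by rw [h])
        rcases lt_or_gt_of_ne hij with h | h
        · exact key x hx.1 x hx.1 i j ((ha x hx.1).1 h) ((hb x hx.1).1 h) hxy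
        · exact key x hx.1 x hx.1 j i ((ha x hx.1).1 h) ((hb x hx.1).1 h) hxy.symm
      · exact key x hx.1 y hy.1 i j (haa y hy.1 x hx.1 h i j) (hbb y hy.1 x hx.1 h i j) hxy
  rw [Finset.card_product, Finset.card_univ, Fintype.card_fin, Finset.card_range] at hcard
  rw [mul_comm]
  exact hcard

theorem twist_aux (W : WD N n p) (D : Finset ℕ) (w w' : ℕ → ℕ) (S ℓ F : ℕ) (hℓ : 1 ≤ ℓ)
    (hw : ∀ t ∈ D, w t < N ∧ W.f (w t) = W.f t ∧ S ≤ (W.nbs (w t) ℓ).card)
    (hw' : ∀ t ∈ D, w' t < N ∧ W.f (w' t) = W.f t ∧ S ≤ (W.nbs (w' t) ℓ).card)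
    (hanti : ∀ t ∈ D, ∀ t' ∈ D, t < t' → w t' ≤ w t)
    (hanti' : ∀ t ∈ D, ∀ t' ∈ D, t < t' → w' t' ≤ w' t)
    (hsep : ∀ t ∈ D, ∀ t' ∈ D, w t + 2 * ℓ < w' t')
    (hfib : ∀ ρ, S * (D.filter (fun t => w t / ℓ = ρ)).card ≤ F)
    (hfib' : ∀ ρ, S * (D.filter (fun t => w' t / ℓ = ρ)).card ≤ F) :
    S * S * D.card ≤ 10 * F * p := by
  classical
  let P : Finset ℕ → Prop := fun X =>
    ∀ t ∈ X, ∀ t' ∈ X, t < t' → w t' / ℓ + 3 ≤ w t / ℓ ∧ w' t' / ℓ + 3 ≤ w' t / ℓ
  obtain ⟨X, hX, hmax⟩ := Finset.exists_max_image (D.powerset.filter P) Finset.card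
    ⟨∅, by simp [P]⟩
  rw [Finset.mem_filter, Finset.mem_powerset] at hX
  obtain ⟨hXD, hXP⟩ := hX
  have hcov : D ⊆ X.biUnion (fun x => (Finset.range 5).biUnion (fun j =>
      (D.filter (fun t => w t / ℓ + 2 = w x / ℓ + j)) ∪ (D.filter (fun t => w' t / ℓ + 2 = w' x / ℓ + j)))) := by
    intro t ht
    simp only [Finset.mem_biUnion, Finset.mem_union, Finset.mem_filter, Finset.mem_range]
    by_cases htX : t ∈ X
    · exact ⟨t, htX, 2, by norm_num, Or.inl ⟨ht, rfl⟩⟩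
    · have hnot : ¬ P (insert t X) := by
        intro hP
        have h1 := hmax (insert t X) (by
          rw [Finset.mem_filter, Finset.mem_powerset]
          exact ⟨Finset.insert_subset ht hXD, hP⟩)
        rw [Finset.card_insert_of_notMem htX] at h1
        omega
      simp only [P] at hnot
      push Not at hnot
      obtain ⟨u, hu, v, hv, huv, hbad⟩ := hnot
      rw [Finset.mem_insert] at hu hv
      have hcase : ∃ x ∈ X, (u = t ∧ v = x) ∨ (u = x ∧ v = t) := by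
        rcases hu with hu | hu
        · rcases hv with hv | hv
          · omega
          · exact ⟨v, hv, Or.inl ⟨hu, rfl⟩⟩
        · rcases hv with hv | hv
          · exact ⟨u, hu, Or.inr ⟨rfl, hv⟩⟩
          · have := hXP u hu v hv huv
            have := hbad this.1
            omega
      obtain ⟨x, hx, hcase⟩ := hcase
      refine ⟨x, hx, ?_⟩
      have huD : u ∈ D := by
        rcases hu with hu | hu
        · rw [hu]; exact ht
        · exact hXD hu
      have hvD : v ∈ D := by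
        rcases hv with hv | hv
        · rw [hv]; exact ht
        · exact hXD hv
      have h1 := Nat.div_le_div_right (c := ℓ) (hanti u huD v hvD huv)
      have h2 := Nat.div_le_div_right (c := ℓ) (hanti' u huD v hvD huv)
      by_cases h3 : w v / ℓ + 3 ≤ w u / ℓ
      · have h4 := hbad h3
        rcases hcase with ⟨rfl, rfl⟩ | ⟨rfl, rfl⟩
        · exact ⟨w' u / ℓ + 2 - w' v / ℓ, by omega, Or.inr ⟨ht, by omega⟩⟩
        · exact ⟨w' v / ℓ + 2 - w' u / ℓ, by omega, Or.inr ⟨ht, by omega⟩⟩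
      · rcases hcase with ⟨rfl, rfl⟩ | ⟨rfl, rfl⟩
        · exact ⟨w u / ℓ + 2 - w v / ℓ, by omega, Or.inl ⟨ht, by omega⟩⟩
        · exact ⟨w v / ℓ + 2 - w u / ℓ, by omega, Or.inl ⟨ht, by omega⟩⟩
  have hfibc : ∀ c, S * (D.filter (fun t => w t / ℓ + 2 = c)).card ≤ F := by
    intro c
    refine le_trans (Nat.mul_le_mul_left _ (Finset.card_le_card ?_)) (hfib (c - 2))
    intro t ht
    rw [Finset.mem_filter] at ht ⊢
    obtain ⟨h1, h2⟩ := ht
    refine ⟨h1, ?_⟩
    generalize w t / ℓ = q at h2 ⊢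
    omega
  have hfibc' : ∀ c, S * (D.filter (fun t => w' t / ℓ + 2 = c)).card ≤ F := by
    intro c
    refine le_trans (Nat.mul_le_mul_left _ (Finset.card_le_card ?_)) (hfib' (c - 2))
    intro t ht
    rw [Finset.mem_filter] at ht ⊢
    obtain ⟨h1, h2⟩ := ht
    refine ⟨h1, ?_⟩
    generalize w' t / ℓ = q at h2 ⊢
    omega
  have hD : S * D.card ≤ 10 * F * X.card := by
    calc S * D.card ≤ S * ∑ x ∈ X, ∑ j ∈ Finset.range 5,
          ((D.filter (fun t => w t / ℓ + 2 = w x / ℓ + j)).card +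
            (D.filter (fun t => w' t / ℓ + 2 = w' x / ℓ + j)).card) := by
          apply Nat.mul_le_mul_left
          refine (Finset.card_le_card hcov).trans (Finset.card_biUnion_le.trans ?_)
          apply Finset.sum_le_sum
          intro x _
          refine Finset.card_biUnion_le.trans ?_
          apply Finset.sum_le_sum
          intro j _
          exact Finset.card_union_le _ _
      _ = ∑ x ∈ X, ∑ j ∈ Finset.range 5,
          (S * (D.filter (fun t => w t / ℓ + 2 = w x / ℓ + j)).card +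
            S * (D.filter (fun t => w' t / ℓ + 2 = w' x / ℓ + j)).card) := by
          rw [Finset.mul_sum]
          apply Finset.sum_congr rfl
          intro x _
          rw [Finset.mul_sum]
          apply Finset.sum_congr rfl
          intro j _
          rw [Nat.mul_add]
      _ ≤ ∑ x ∈ X, ∑ j ∈ Finset.range 5, (F + F) := by
          apply Finset.sum_le_sum
          intro x _
          apply Finset.sum_le_sum
          intro j _
          exact Nat.add_le_add (hfibc _) (hfibc' _)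
      _ = 10 * F * X.card := by
          simp only [Finset.sum_const, Finset.card_range, smul_eq_mul]
          ring
  have hXc := twist_card W X w w' S ℓ hℓ (fun t ht => hw t (hXD ht)) (fun t ht => hw' t (hXD ht)) hXP
    (fun t ht t' ht' => hsep t (hXD ht) t' (hXD ht'))
  calc S * S * D.card = S * (S * D.card) := by ring
    _ ≤ S * (10 * F * X.card) := Nat.mul_le_mul_left _ hD
    _ = 10 * F * (S * X.card) := by ring
    _ ≤ 10 * F * p := Nat.mul_le_mul_left _ hXc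

/-- MODULE T (twist): a set `D` with two antitone partner functions into separated far away
intervals gives many pairwise crossing edges. -/
theorem twist (W : WD N n p) (D : Finset ℕ) (w w' : ℕ → ℕ) (S ℓ F : ℕ) (hℓ : 1 ≤ ℓ)
    (hw : ∀ t ∈ D, w t < N ∧ W.f (w t) = W.f t ∧ S ≤ (W.nbs (w t) ℓ).card)
    (hw' : ∀ t ∈ D, w' t < N ∧ W.f (w' t) = W.f t ∧ S ≤ (W.nbs (w' t) ℓ).card)
    (hanti : ∀ t ∈ D, ∀ t' ∈ D, t < t' → w t' ≤ w t)
    (hanti' : ∀ t ∈ D, ∀ t' ∈ D, t < t' → w' t' ≤ w' t)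
    (hsep : (∀ t ∈ D, ∀ t' ∈ D, w t + 2 * ℓ < w' t') ∨ (∀ t ∈ D, ∀ t' ∈ D, w' t + 2 * ℓ < w t'))
    (hfib : ∀ ρ, S * (D.filter (fun t => w t / ℓ = ρ)).card ≤ F)
    (hfib' : ∀ ρ, S * (D.filter (fun t => w' t / ℓ = ρ)).card ≤ F) :
    S * S * D.card ≤ 10 * F * p := by
  rcases hsep with h | h
  · exact twist_aux W D w w' S ℓ F hℓ hw hw' hanti hanti' h hfib hfib'
  · exact twist_aux W D w' w S ℓ F hℓ hw' hw hanti' hanti h hfib' hfib

end Pool.Agent.Helper60.BT
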