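import Mathlib

set_option autoImplicit false

open Finset

namespace Pool.Agent.Helper8.DenseLV

/-- image count for a family of maps with few solutions: for `h : ZMod r → ZMod r` such that
`z ↦ h z + y z` takes every value at most `m` times for every `y`, the number of pairs `(x, y)` for
which `h z + y z + x = 0` is solvable is at most `r² - r (r - 1) / m`. -/
theorem pair_count (r m : ℕ) [Fact r.Prime] (h : ZMod r → ZMod r)
    (hroots : ∀ x y : ZMod r, (univ.filter fun z : ZMod r => h z + y * z + x = 0).card ≤ m) :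
    m * (univ.filter fun p : ZMod r × ZMod r => ∃ z, h z + p.2 * z + p.1 = 0).card + r * (r - 1)
      ≤ m * r ^ 2 := by
  classical
  -- the number of roots
  set N : ZMod r × ZMod r → ℕ := fun p => (univ.filter fun z : ZMod r => h z + p.2 * z + p.1 = 0).card
    with hN
  have hr : Fintype.card (ZMod r) = r := ZMod.card r
  -- total number of roots
  have h1 : ∑ p, N p = r ^ 2 := by
    simp only [hN, card_filter]
    rw [sum_comm]
    have : ∀ z : ZMod r, ∑ p : ZMod r × ZMod r, (if h z + p.2 * z + p.1 = 0 then 1 else 0) = r := by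
      intro z
      rw [Fintype.sum_prod_type_right]
      have h2 : ∀ y : ZMod r, ∑ x : ZMod r, (if h z + y * z + x = 0 then 1 else 0) = 1 := by
        intro y
        rw [Finset.sum_eq_single (-(h z + y * z))]
        · simp
        · intro x _ hx
          rw [if_neg]
          intro hc
          apply hx
          rw [eq_neg_iff_add_eq_zero, add_comm]
          exact hc
        · simp
      simp only [h2]
      simp [hr]
    rw [sum_congr rfl (fun z _ => this z)]
    simp [hr, sq]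
  -- number of pairs of different roots
  have h2 : ∑ p, N p * (N p - 1) = r * (r - 1) := by
    have h3 : ∀ p, N p * (N p - 1) =
        ((univ : Finset (ZMod r × ZMod r)).filter fun q => q.1 ≠ q.2 ∧
          h q.1 + p.2 * q.1 + p.1 = 0 ∧ h q.2 + p.2 * q.2 + p.1 = 0).card := by
      intro p
      have h4 : ((univ : Finset (ZMod r × ZMod r)).filter fun q => q.1 ≠ q.2 ∧
          h q.1 + p.2 * q.1 + p.1 = 0 ∧ h q.2 + p.2 * q.2 + p.1 = 0) =
          (univ.filter fun z : ZMod r => h z + p.2 * z + p.1 = 0).offDiag := by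
        ext q
        simp only [mem_filter, mem_univ, true_and, mem_offDiag]
        tauto
      rw [h4, offDiag_card, Nat.mul_sub, mul_one]
    simp only [h3, card_filter]
    rw [sum_comm]
    have h5 : ∀ q : ZMod r × ZMod r, (∑ p : ZMod r × ZMod r,
        if q.1 ≠ q.2 ∧ h q.1 + p.2 * q.1 + p.1 = 0 ∧ h q.2 + p.2 * q.2 + p.1 = 0 then 1 else 0) =
        if q.1 ≠ q.2 then 1 else 0 := by
      rintro ⟨z, z'⟩
      by_cases hz : z = z'
      · simp [hz]
      · have hz' : z - z' ≠ 0 := sub_ne_zero.mpr hz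
        rw [if_pos hz, Finset.sum_eq_single
          (-(h z + (-(h z - h z') / (z - z')) * z), -(h z - h z') / (z - z'))]
        · rw [if_pos]
          refine ⟨hz, by ring, ?_⟩
          field_simp
          ring
        · rintro ⟨x, y⟩ _ hne
          rw [if_neg]
          rintro ⟨-, e1, e2⟩
          apply hne
          simp only at e1 e2
          have e3 : y = -(h z - h z') / (z - z') := by
            field_simp
            linear_combination e1 - e2
          rw [Prod.mk.injEq]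
          refine ⟨?_, e3⟩
          rw [← e3]
          linear_combination e1
        · simp
    simp only [h5]
    rw [← card_filter]
    have h6 : ((univ : Finset (ZMod r × ZMod r)).filter fun q => q.1 ≠ q.2) =
        (univ : Finset (ZMod r)).offDiag := by
      ext q
      simp
    rw [h6, offDiag_card, card_univ, hr, Nat.mul_sub, mul_one]
  -- the pairs with a root
  have h7 : (univ.filter fun p : ZMod r × ZMod r => ∃ z, h z + p.2 * z + p.1 = 0).card =
      ∑ p, if 0 < N p then 1 else 0 := by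
    rw [card_filter]
    apply sum_congr rfl
    intro p _
    congr 1
    simp only [hN, card_pos, eq_iff_iff]
    constructor
    · rintro ⟨z, hz⟩
      exact ⟨z, by simpa using hz⟩
    · rintro ⟨z, hz⟩
      exact ⟨z, by simpa using hz⟩
  rw [h7, ← h2, ← h1, mul_sum, mul_sum, ← sum_add_distrib]
  apply sum_le_sum
  intro p _
  have hle : N p ≤ m := hroots p.1 p.2
  rcases Nat.eq_zero_or_pos (N p) with h0 | h0
  · rw [h0]; simp
  · rw [if_pos h0, mul_one]
    obtain ⟨k, hk⟩ : ∃ k, N p = k + 1 := ⟨N p - 1, by omega⟩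
    rw [hk, Nat.add_sub_cancel, mul_comm m (k + 1)]
    rw [hk] at hle
    nlinarith

end Pool.Agent.Helper8.DenseLV

namespace Pool.Agent.Helper8.DenseLV

open Finset

section val

variable {n m : ℕ} (A : Fin m → Finset (Fin n → ℤ))

/-- The value at `(u, z)` of the polynomial
`z ^ m + ∑_{j<m} (∑_{a ∈ A j} c_{j,a} u^a) z ^ j`. -/
def val {R : Type*} [CommRing R] (c : ((j : Fin m) × A j) → R) (u : Fin n → Rˣ) (z : R) : R :=
  z ^ m + ∑ j : Fin m, (∑ a : A j, c ⟨j, a⟩ * ((∏ i, u i ^ a.1 i : Rˣ) : R)) * z ^ (j : ℕ)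

theorem val_map {R S : Type*} [CommRing R] [CommRing S] (φ : R →+* S)
    (c : ((j : Fin m) × A j) → R) (u : Fin n → Rˣ) (z : R) :
    φ (val A c u z) = val A (fun i => φ (c i)) (fun i => Units.map φ.toMonoidHom (u i)) (φ z) := by
  unfold val
  simp only [map_add, map_pow, map_sum, map_mul]
  congr 1
  apply sum_congr rfl
  intro j _
  congr 1
  apply sum_congr rfl
  intro a _
  congr 1
  rw [Units.coe_prod, Units.coe_prod, map_prod]
  apply prod_congr rfl
  intro i _
  rw [← map_zpow]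
  rfl

theorem val_add {R : Type*} [CommRing R] (c d : ((j : Fin m) × A j) → R) (u : Fin n → Rˣ) (z : R) :
    val A (c + d) u z = val A c u z +
      ∑ j : Fin m, (∑ a : A j, d ⟨j, a⟩ * ((∏ i, u i ^ a.1 i : Rˣ) : R)) * z ^ (j : ℕ) := by
  unfold val
  simp only [Pi.add_apply, add_mul, sum_add_distrib]
  ring

theorem val_shift {R : Type*} [CommRing R] (c : ((j : Fin m) × A j) → R) (u : Fin n → Rˣ) (z : R)
    (j : Fin m) (a : A j) (s : R) :
    val A (c + Pi.single ⟨j, a⟩ (s * (((∏ i, u i ^ a.1 i : Rˣ)⁻¹ : Rˣ) : R))) u z =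
      val A c u z + s * z ^ (j : ℕ) := by
  classical
  rw [val_add]
  congr 1
  rw [Finset.sum_eq_single j]
  · rw [Finset.sum_eq_single a]
    · rw [Pi.single_eq_same, mul_assoc s, Units.inv_mul, mul_one]
    · intro b _ hb
      rw [Pi.single_eq_of_ne, zero_mul]
      intro h
      apply hb
      have := (Sigma.mk.inj h).2
      exact eq_of_heq this
    · simp
  · intro k _ hk
    rw [Finset.sum_eq_zero, zero_mul]
    intro b _
    rw [Pi.single_eq_of_ne, zero_mul]
    intro h
    exact hk (Sigma.mk.inj h).1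
  · simp

/-- at most `m` roots -/
theorem roots_le {r : ℕ} [Fact r.Prime] (hm : 2 ≤ m) (G : Fin m → ZMod r) (x y : ZMod r) :
    (univ.filter fun z : ZMod r => (z ^ m + ∑ j : Fin m, G j * z ^ (j : ℕ)) + y * z + x = 0).card
      ≤ m := by
  classical
  let q : Polynomial (ZMod r) := ∑ j : Fin m, Polynomial.C (G j) * Polynomial.X ^ (j : ℕ) +
    Polynomial.C y * Polynomial.X + Polynomial.C x
  have hq : q.degree < (m : WithBot ℕ) := by
    have h1 : (∑ j : Fin m, Polynomial.C (G j) * Polynomial.X ^ (j : ℕ)).degree <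
        (m : WithBot ℕ) := by
      refine lt_of_le_of_lt (Polynomial.degree_sum_le _ _) ?_
      rw [Finset.sup_lt_iff (by exact_mod_cast WithBot.bot_lt_coe m)]
      intro j _
      refine lt_of_le_of_lt (Polynomial.degree_C_mul_X_pow_le _ _) ?_
      exact_mod_cast j.2
    have h2 : (Polynomial.C y * Polynomial.X : Polynomial (ZMod r)).degree < (m : WithBot ℕ) := by
      refine lt_of_le_of_lt (Polynomial.degree_C_mul_X_le _) ?_
      exact_mod_cast (by omega : 1 < m)
    have h3 : (Polynomial.C x : Polynomial (ZMod r)).degree < (m : WithBot ℕ) := by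
      refine lt_of_le_of_lt Polynomial.degree_C_le ?_
      exact_mod_cast (by omega : 0 < m)
    exact lt_of_le_of_lt (Polynomial.degree_add_le _ _)
      (max_lt (lt_of_le_of_lt (Polynomial.degree_add_le _ _) (max_lt h1 h2)) h3)
  have hmonic : (Polynomial.X ^ m + q).Monic := Polynomial.monic_X_pow_add hq
  have hdeg : (Polynomial.X ^ m + q).natDegree = m := Polynomial.natDegree_eq_of_degree_eq_some
    (by rw [Polynomial.degree_add_eq_left_of_degree_lt]
        · simp
        · simpa using hq)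
  have hsub : (univ.filter fun z : ZMod r =>
      (z ^ m + ∑ j : Fin m, G j * z ^ (j : ℕ)) + y * z + x = 0) ⊆
      (Polynomial.X ^ m + q).roots.toFinset := by
    intro z hz
    rw [mem_filter] at hz
    rw [Multiset.mem_toFinset, Polynomial.mem_roots hmonic.ne_zero, Polynomial.IsRoot.def]
    simp only [q, Polynomial.eval_add, Polynomial.eval_pow, Polynomial.eval_X,
      Polynomial.eval_finsetSum, Polynomial.eval_mul, Polynomial.eval_C]
    rw [← hz.2]
    ring
  calc _ ≤ (Polynomial.X ^ m + q).roots.toFinset.card := card_le_card hsub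
    _ ≤ Multiset.card (Polynomial.X ^ m + q).roots := Multiset.toFinset_card_le _
    _ ≤ (Polynomial.X ^ m + q).natDegree := Polynomial.card_roots' _
    _ = m := hdeg

/-- the set of `c` over `ZMod r` for which the polynomial has a root, for a fixed unit vector -/
theorem root_count {r : ℕ} [Fact r.Prime] (hm : 2 ≤ m) (hA : ∀ j, (A j).Nonempty)
    (u : Fin n → (ZMod r)ˣ) :
    m * r ^ 2 * (univ.filter fun c : ((j : Fin m) × A j) → ZMod r => ∃ z, val A c u z = 0).card +
      r ^ Fintype.card ((j : Fin m) × A j) * (r * (r - 1)) ≤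
      r ^ Fintype.card ((j : Fin m) × A j) * (m * r ^ 2) := by
  classical
  obtain ⟨a0, ha0⟩ := hA ⟨0, by omega⟩
  obtain ⟨a1, ha1⟩ := hA ⟨1, by omega⟩
  set X := ((j : Fin m) × A j) → ZMod r with hX
  have hr : Fintype.card (ZMod r) = r := ZMod.card r
  have hXcard : Fintype.card X = r ^ Fintype.card ((j : Fin m) × A j) := by
    show Fintype.card (((j : Fin m) × A j) → ZMod r) = _
    rw [Fintype.card_fun, hr]
  let sh : ZMod r × ZMod r → X := fun p =>
    Pi.single ⟨⟨0, by omega⟩, ⟨a0, ha0⟩⟩ (p.1 * (((∏ i, u i ^ a0 i : (ZMod r)ˣ)⁻¹ : (ZMod r)ˣ) : ZMod r)) +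
    Pi.single ⟨⟨1, by omega⟩, ⟨a1, ha1⟩⟩ (p.2 * (((∏ i, u i ^ a1 i : (ZMod r)ˣ)⁻¹ : (ZMod r)ˣ) : ZMod r))
  have hsh : ∀ (c : X) (p : ZMod r × ZMod r) (z : ZMod r),
      val A (c + sh p) u z = val A c u z + p.2 * z + p.1 := by
    intro c p z
    simp only [sh]
    rw [← add_assoc, val_shift A _ u z ⟨1, by omega⟩ ⟨a1, ha1⟩,
      val_shift A _ u z ⟨0, by omega⟩ ⟨a0, ha0⟩]
    simp
    ring
  -- double count
  have hinv : ∀ p : ZMod r × ZMod r,
      (univ.filter fun c : X => ∃ z, val A (c + sh p) u z = 0).card =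
      (univ.filter fun c : X => ∃ z, val A c u z = 0).card := by
    intro p
    refine card_bij (fun c _ => c + sh p) ?_ ?_ ?_
    · intro c hc
      simpa using hc
    · intro c _ d _ h
      exact add_right_cancel h
    · intro c hc
      refine ⟨c - sh p, ?_, by simp⟩
      simpa using hc
  have hdc : ∑ p : ZMod r × ZMod r, (univ.filter fun c : X => ∃ z, val A (c + sh p) u z = 0).card =
      ∑ c : X, (univ.filter fun p : ZMod r × ZMod r => ∃ z, val A c u z + p.2 * z + p.1 = 0).card := by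
    simp only [card_filter, hsh]
    rw [sum_comm]
  rw [sum_congr rfl (fun p _ => hinv p), sum_const, card_univ, Fintype.card_prod, hr,
    smul_eq_mul] at hdc
  have hpc : ∀ c : X, m * (univ.filter fun p : ZMod r × ZMod r =>
      ∃ z, val A c u z + p.2 * z + p.1 = 0).card + r * (r - 1) ≤ m * r ^ 2 := by
    intro c
    refine pair_count r m (fun z => val A c u z) ?_
    intro x y
    exact roots_le hm (fun j => ∑ a : A j, c ⟨j, a⟩ * ((∏ i, u i ^ a.1 i : (ZMod r)ˣ) : ZMod r)) x y
  have hsum := sum_le_sum (fun c (_ : c ∈ (univ : Finset X)) => hpc c)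
  rw [sum_add_distrib, ← mul_sum, ← hdc, sum_const, sum_const, card_univ, hXcard, smul_eq_mul,
    smul_eq_mul] at hsum
  calc _ = m * (r * r * (univ.filter fun c : X => ∃ z, val A c u z = 0).card) +
        r ^ Fintype.card ((j : Fin m) × A j) * (r * (r - 1)) := by ring
    _ ≤ _ := hsum

/-- real form: the proportion of soluble `c` is at most `1 - 1/(2m)` -/
theorem root_count' {r : ℕ} [Fact r.Prime] (hm : 2 ≤ m) (hA : ∀ j, (A j).Nonempty)
    (u : Fin n → (ZMod r)ˣ) :
    ((univ.filter fun c : ((j : Fin m) × A j) → ZMod r => ∃ z, val A c u z = 0).card : ℝ) ≤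
      (1 - 1 / (2 * m)) * (r : ℝ) ^ Fintype.card ((j : Fin m) × A j) := by
  have h := root_count A hm hA u
  set N := (univ.filter fun c : ((j : Fin m) × A j) → ZMod r => ∃ z, val A c u z = 0).card
  set K := Fintype.card ((j : Fin m) × A j)
  have hr2 : 2 ≤ r := (Fact.out : r.Prime).two_le
  obtain ⟨k, rfl⟩ : ∃ k, r = k + 1 := ⟨r - 1, by omega⟩
  rw [Nat.add_sub_cancel] at h
  have h' : (m : ℝ) * ((k : ℝ) + 1) ^ 2 * N + ((k : ℝ) + 1) ^ K * (((k : ℝ) + 1) * k) ≤
      ((k : ℝ) + 1) ^ K * (m * ((k : ℝ) + 1) ^ 2) := by exact_mod_cast h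
  have hk1 : (1 : ℝ) ≤ k := by exact_mod_cast (by omega : 1 ≤ k)
  have hm' : (2 : ℝ) ≤ m := by exact_mod_cast hm
  push_cast
  have hX : (0 : ℝ) < ((k : ℝ) + 1) ^ K := by positivity
  have hkk : ((k : ℝ) + 1) ^ 2 / 2 ≤ ((k : ℝ) + 1) * k := by nlinarith
  have h2 : (m : ℝ) * ((k : ℝ) + 1) ^ 2 * N ≤
      ((k : ℝ) + 1) ^ K * (m * ((k : ℝ) + 1) ^ 2 - ((k : ℝ) + 1) ^ 2 / 2) := by
    have := mul_le_mul_of_nonneg_left hkk hX.le
    linarith
  have hpos : (0 : ℝ) < (m : ℝ) * ((k : ℝ) + 1) ^ 2 := by positivity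
  have h3 : (m : ℝ) * ((k : ℝ) + 1) ^ 2 * N ≤
      (m : ℝ) * ((k : ℝ) + 1) ^ 2 * ((1 - 1 / (2 * m)) * ((k : ℝ) + 1) ^ K) := by
    refine h2.trans (le_of_eq ?_)
    field_simp
  exact le_of_mul_le_mul_left h3 hpos

end val

end Pool.Agent.Helper8.DenseLV

namespace Pool.Agent.Helper8.DenseLV

open Finset

section box

variable {I : Type*} [Fintype I] [DecidableEq I]

/-- the box `[-H, H]^I` -/
noncomputable def box (I : Type*) [Fintype I] [DecidableEq I] (H : ℕ) : Finset (I → ℤ) :=
  Fintype.piFinset fun _ => Finset.Icc (-(H : ℤ)) H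

theorem card_box (H : ℕ) : (box I H).card = (2 * H + 1) ^ Fintype.card I := by
  unfold box
  rw [Fintype.card_piFinset]
  simp only [Int.card_Icc, prod_const, card_univ]
  congr 1
  omega

theorem line_count (H Q : ℕ) (hQ : 0 < Q) (v : ℤ) :
    (((Finset.Icc (-(H : ℤ)) H).filter fun x => x ≡ v [ZMOD Q]).card : ℝ) ≤
      (2 * H + 1) / Q + 1 := by
  have h1 : Finset.Icc (-(H : ℤ)) H = Finset.Ico (-(H : ℤ)) (H + 1) := by
    ext x; simp only [mem_Icc, mem_Ico]; omega
  rw [h1]
  have h2 := Int.Ico_filter_modEq_card (-(H : ℤ)) (H + 1) (r := (Q : ℤ)) (by exact_mod_cast hQ) v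
  have h3 : ((((Finset.Ico (-(H : ℤ)) (H + 1)).filter fun x => x ≡ v [ZMOD Q]).card : ℤ) : ℚ) ≤
      (2 * H + 1) / Q + 1 := by
    rw [h2]
    have hQ' : (0 : ℚ) < Q := by exact_mod_cast hQ
    push_cast
    apply max_le
    · have e1 := Int.ceil_lt_add_one (((H : ℚ) + 1 - v) / Q)
      have e2 := Int.le_ceil ((-(H : ℚ) - v) / Q)
      have e3 : ((H : ℚ) + 1 - v) / Q - (-(H : ℚ) - v) / Q = (2 * H + 1) / Q := by
        field_simp; ring
      linarith
    · positivity
  have h4 : ((((((Finset.Ico (-(H : ℤ)) (H + 1)).filter fun x => x ≡ v [ZMOD Q]).card : ℤ) : ℚ)) : ℝ)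
      ≤ (((2 * H + 1) / Q + 1 : ℚ) : ℝ) := by exact_mod_cast h3
  push_cast at h4
  exact_mod_cast h4

theorem box_count (T : Finset ℕ) (hT : ∀ r ∈ T, r.Prime) (S : (r : ℕ) → Finset (I → ZMod r))
    (H : ℕ) :
    (((box I H).filter fun c => ∀ r ∈ T, (fun i => (c i : ZMod r)) ∈ S r).card : ℝ) ≤
      ((2 * H + 1) / (∏ r ∈ T, r : ℕ) + 1) ^ Fintype.card I * ∏ r ∈ T, ((S r).card : ℝ) := by
  classical
  set Q := ∏ r ∈ T, r with hQ
  have hQ0 : 0 < Q := by
    rw [hQ]
    exact prod_pos fun r hr => (hT r hr).pos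
  set s := (box I H).filter fun c => ∀ r ∈ T, (fun i => (c i : ZMod r)) ∈ S r with hs
  let f : (I → ℤ) → (∀ r : T, I → ZMod r) := fun c r i => (c i : ZMod r)
  let t : Finset (∀ r : T, I → ZMod r) := Fintype.piFinset fun r : T => S r
  have ht : (t.card : ℝ) = ∏ r ∈ T, ((S r).card : ℝ) := by
    rw [Fintype.card_piFinset]
    push_cast
    rw [← prod_coe_sort T fun r => ((S r).card : ℝ)]
  have hmaps : ∀ c ∈ s, f c ∈ t := by
    intro c hc
    rw [Fintype.mem_piFinset]
    rintro ⟨r, hr⟩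
    exact (mem_filter.mp hc).2 r hr
  obtain ⟨N, hN1, hN2⟩ : ∃ N : ℕ, (∀ v : ℤ, ((Finset.Icc (-(H : ℤ)) H).filter
      fun x => x ≡ v [ZMOD Q]).card ≤ N) ∧ (N : ℝ) ≤ (2 * H + 1) / Q + 1 := by
    refine ⟨⌊((2 * H + 1) / Q + 1 : ℝ)⌋₊, fun v => ?_, Nat.floor_le (by positivity)⟩
    exact Nat.le_floor (line_count H Q hQ0 v)
  have hfib : ∀ b ∈ t, (s.filter fun c => f c = b).card ≤ N ^ Fintype.card I := by
    intro b _
    rcases (s.filter fun c => f c = b).eq_empty_or_nonempty with h0 | ⟨c0, hc0⟩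
    · rw [h0]; simp
    · have hsub : (s.filter fun c => f c = b) ⊆ Fintype.piFinset fun i =>
          (Finset.Icc (-(H : ℤ)) H).filter fun x => x ≡ c0 i [ZMOD Q] := by
        intro c hc
        rw [mem_filter] at hc hc0
        rw [Fintype.mem_piFinset]
        intro i
        rw [mem_filter]
        refine ⟨?_, ?_⟩
        · have := (mem_filter.mp hc.1).1
          unfold box at this
          rw [Fintype.mem_piFinset] at this
          exact this i
        · have h1 : f c = f c0 := hc.2.trans hc0.2.symm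
          rw [Int.modEq_iff_dvd, hQ]
          push_cast
          apply Finset.prod_dvd_of_coprime
          · intro r hr r' hr' hne
            rw [Function.onFun, Int.isCoprime_iff_gcd_eq_one]
            rw [Int.gcd_natCast_natCast]
            exact (Nat.coprime_primes (hT r hr) (hT r' hr')).mpr hne
          · intro r hr
            have h2 := congrFun (congrFun h1 ⟨r, hr⟩) i
            simp only [f] at h2
            exact (ZMod.intCast_eq_intCast_iff_dvd_sub (c i) (c0 i) r).mp h2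
      refine (card_le_card hsub).trans ?_
      rw [Fintype.card_piFinset]
      calc ∏ i, ((Finset.Icc (-(H : ℤ)) H).filter fun x => x ≡ c0 i [ZMOD Q]).card
          ≤ ∏ _i : I, N := prod_le_prod (fun _ _ => Nat.zero_le _) (fun i _ => hN1 _)
        _ = N ^ Fintype.card I := by simp
  have hcard := card_le_mul_card_image_of_maps_to hmaps (N ^ Fintype.card I) hfib
  calc (s.card : ℝ) ≤ (N : ℝ) ^ Fintype.card I * t.card := by exact_mod_cast hcard
    _ ≤ ((2 * H + 1) / Q + 1) ^ Fintype.card I * t.card := by gcongr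
    _ = _ := by rw [ht]

theorem box_count' (T : Finset ℕ) (hT : ∀ r ∈ T, r.Prime) (S : (r : ℕ) → Finset (I → ZMod r))
    (θ : ℝ) (hS : ∀ r ∈ T, ((S r).card : ℝ) ≤ θ * (r : ℝ) ^ Fintype.card I)
    (H : ℕ) (hH : ∏ r ∈ T, r ≤ 2 * H + 1) :
    (((box I H).filter fun c => ∀ r ∈ T, (fun i => (c i : ZMod r)) ∈ S r).card : ℝ) ≤
      2 ^ Fintype.card I * (2 * H + 1) ^ Fintype.card I * θ ^ T.card := by
  refine (box_count T hT S H).trans ?_
  set Q := ∏ r ∈ T, r with hQ
  have hQ0 : 0 < Q := by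
    rw [hQ]
    exact prod_pos fun r hr => (hT r hr).pos
  have hQ' : (0 : ℝ) < Q := by exact_mod_cast hQ0
  have hH' : (Q : ℝ) ≤ 2 * H + 1 := by exact_mod_cast hH
  have h1 : ∏ r ∈ T, ((S r).card : ℝ) ≤ θ ^ T.card * (Q : ℝ) ^ Fintype.card I := by
    calc ∏ r ∈ T, ((S r).card : ℝ) ≤ ∏ r ∈ T, (θ * (r : ℝ) ^ Fintype.card I) :=
          prod_le_prod (fun _ _ => by positivity) hS
      _ = θ ^ T.card * (Q : ℝ) ^ Fintype.card I := by
          rw [prod_mul_distrib, prod_const, prod_pow, hQ]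
          push_cast
          rfl
  have h2 : (2 * (H : ℝ) + 1) / Q + 1 ≤ 2 * ((2 * H + 1) / Q) := by
    have : (1 : ℝ) ≤ (2 * H + 1) / Q := by
      rw [le_div_iff₀ hQ', one_mul]; exact hH'
    linarith
  calc ((2 * (H : ℝ) + 1) / Q + 1) ^ Fintype.card I * ∏ r ∈ T, ((S r).card : ℝ)
      ≤ (2 * ((2 * H + 1) / Q)) ^ Fintype.card I * (θ ^ T.card * (Q : ℝ) ^ Fintype.card I) := by
        apply mul_le_mul _ h1 (prod_nonneg fun _ _ => by positivity) (by positivity)
        gcongr
    _ = _ := by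
        rw [mul_pow, div_pow]
        field_simp

end box

end Pool.Agent.Helper8.DenseLV

namespace Pool.Agent.Helper8.DenseLV

open Finset Filter Topology

section core

variable {n m : ℕ} (A : Fin m → Finset (Fin n → ℤ))

/-- `V_c` has a point over `S`. -/
def HasPoint (S : Type*) [CommRing S] (c : ((j : Fin m) × A j) → ℤ) : Prop :=
  ∃ (u : Fin n → Sˣ) (z : S), val A (fun i => (c i : S)) u z = 0

theorem map_eq {S S' : Type*} [CommRing S] [CommRing S'] (φ : S →+* S')
    {c : ((j : Fin m) × A j) → ℤ} {u : Fin n → Sˣ} {z : S}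
    (h : val A (fun i => (c i : S)) u z = 0) :
    val A (fun i => (c i : S')) (fun i => Units.map φ.toMonoidHom (u i)) (φ z) = 0 := by
  have h1 := congrArg φ h
  rw [val_map, map_zero] at h1
  simpa only [map_intCast] using h1

theorem HasPoint.map {S S' : Type*} [CommRing S] [CommRing S'] (φ : S →+* S')
    {c : ((j : Fin m) × A j) → ℤ} (h : HasPoint A S c) : HasPoint A S' c := by
  obtain ⟨u, z, h⟩ := h
  exact ⟨_, _, map_eq A φ h⟩

theorem units_congr {G : Type*} [CommGroup G] {g M r : ℕ} [Fact r.Prime] (hrM : (r - 1) ∣ M)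
    (f : (Fin g → ℤ) →+ Additive G) (ψ : G →* (ZMod r)ˣ) (a b : Fin g → ℤ)
    (hab : ∀ k, (M : ℤ) ∣ a k - b k) :
    ψ (f a).toMul = ψ (f b).toMul := by
  choose d hd using hab
  have h1 : a = b + M • d := by
    funext k
    have := hd k
    simp only [Pi.add_apply, nsmul_eq_mul, Pi.mul_apply, Pi.natCast_apply]
    linarith
  rw [h1, map_add, map_nsmul, toMul_add, toMul_nsmul, map_mul, map_pow]
  obtain ⟨q, rfl⟩ := hrM
  rw [pow_mul, ZMod.units_pow_card_sub_one_eq_one, one_pow, mul_one]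

open Classical in
/-- bound for the number of soluble members of the family in a box -/
theorem box_bound (hm : 2 ≤ m) (hA : ∀ j, (A j).Nonempty) (S : Type*) [CommRing S]
    (g : ℕ) (f : (Fin g → ℤ) →+ Additive Sˣ) (hf : Function.Surjective f)
    (M : ℕ) (hM : 0 < M) (T : Finset ℕ)
    (hT : ∀ r ∈ T, r.Prime ∧ (r - 1) ∣ M ∧ Nonempty (S →+* ZMod r))
    (H : ℕ) (hH : ∏ r ∈ T, r ≤ 2 * H + 1) :
    (((box ((j : Fin m) × A j) H).filter (HasPoint A S)).card : ℝ) ≤
      2 ^ Fintype.card ((j : Fin m) × A j) * (2 * H + 1) ^ Fintype.card ((j : Fin m) × A j) *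
        ((M : ℝ) ^ (n * g) * (1 - 1 / (2 * m)) ^ T.card) := by
  let φ : (r : ℕ) → r ∈ T → (S →+* ZMod r) := fun r hr => (hT r hr).2.2.some
  let w : (Fin n → Fin g → Fin M) → (r : ℕ) → r ∈ T → Fin n → (ZMod r)ˣ := fun E r hr i =>
    Units.map (φ r hr).toMonoidHom (f fun k => ((E i k : ℕ) : ℤ)).toMul
  have hex : ∀ (E : Fin n → Fin g → Fin M) (r : ℕ), ∃ SS : Finset (((j : Fin m) × A j) → ZMod r),
      (∀ hr : r ∈ T, ∀ c, c ∈ SS ↔ ∃ z, val A c (w E r hr) z = 0) ∧
      (r ∈ T → (SS.card : ℝ) ≤ (1 - 1 / (2 * m)) * (r : ℝ) ^ Fintype.card ((j : Fin m) × A j)) := by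
    intro E r
    by_cases hr : r ∈ T
    · have : Fact r.Prime := ⟨(hT r hr).1⟩
      refine ⟨univ.filter fun c => ∃ z, val A c (w E r hr) z = 0, fun _ c => by simp, fun _ => ?_⟩
      exact root_count' A hm hA (w E r hr)
    · exact ⟨∅, fun h => absurd h hr, fun h => absurd h hr⟩
  choose SS hSS1 hSS2 using hex
  have hsub : (box ((j : Fin m) × A j) H).filter (HasPoint A S) ⊆
      (univ : Finset (Fin n → Fin g → Fin M)).biUnion fun E =>
        (box ((j : Fin m) × A j) H).filter fun c => ∀ r ∈ T, (fun i => (c i : ZMod r)) ∈ SS E r := by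
    intro c hc
    rw [mem_filter] at hc
    obtain ⟨hc1, u, z, huz⟩ := hc
    have hlift : ∀ i, ∃ a, f a = Additive.ofMul (u i) := fun i => hf _
    choose e he using hlift
    have hMz : (0 : ℤ) < M := by exact_mod_cast hM
    rw [mem_biUnion]
    refine ⟨fun i k => ⟨(e i k % M).toNat, ?_⟩, mem_univ _, ?_⟩
    · have h1 := Int.emod_lt_of_pos (e i k) hMz
      have h2 := Int.emod_nonneg (e i k) hMz.ne'
      omega
    · rw [mem_filter]
      refine ⟨hc1, fun r hr => ?_⟩
      have : Fact r.Prime := ⟨(hT r hr).1⟩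
      rw [hSS1 _ r hr]
      refine ⟨φ r hr z, ?_⟩
      have h1 := map_eq A (φ r hr) huz
      convert h1 using 2
      funext i
      have h2 : u i = (f (e i)).toMul := by rw [he i]; rfl
      rw [h2]
      refine units_congr (hT r hr).2.1 f _ _ _ fun k => ?_
      simp only
      rw [Int.toNat_of_nonneg (Int.emod_nonneg _ hMz.ne')]
      have := Int.emod_add_mul_ediv (e i k) M
      exact ⟨-(e i k / M), by linarith⟩
  have hcard := (card_le_card hsub).trans card_biUnion_le
  have hE : ∀ E : Fin n → Fin g → Fin M,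
      (((box ((j : Fin m) × A j) H).filter fun c =>
        ∀ r ∈ T, (fun i => (c i : ZMod r)) ∈ SS E r).card : ℝ) ≤
      2 ^ Fintype.card ((j : Fin m) × A j) * (2 * H + 1) ^ Fintype.card ((j : Fin m) × A j) *
        (1 - 1 / (2 * m)) ^ T.card := fun E =>
    box_count' T (fun r hr => (hT r hr).1) (SS E) (1 - 1 / (2 * m)) (fun r hr => hSS2 E r hr) H hH
  calc (((box ((j : Fin m) × A j) H).filter (HasPoint A S)).card : ℝ)
      ≤ ∑ E : Fin n → Fin g → Fin M, (((box ((j : Fin m) × A j) H).filter fun c =>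
        ∀ r ∈ T, (fun i => (c i : ZMod r)) ∈ SS E r).card : ℝ) := by exact_mod_cast hcard
    _ ≤ ∑ _E : Fin n → Fin g → Fin M, (2 : ℝ) ^ Fintype.card ((j : Fin m) × A j) *
        (2 * (H : ℝ) + 1) ^ Fintype.card ((j : Fin m) × A j) *
        (1 - 1 / (2 * (m : ℝ))) ^ T.card :=
        sum_le_sum fun E _ => hE E
    _ = _ := by
        rw [sum_const, card_univ]
        simp only [Fintype.card_fun, Fintype.card_fin, nsmul_eq_mul]
        push_cast
        rw [← pow_mul, mul_comm g n]
        ring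

open Classical in
/-- **Core theorem.**  If the unit group of `S` is finitely generated and `S` has many residue
fields `ZMod r` with `r - 1` dividing a small number, then the proportion of the members of the
family with an `S`-point tends to zero. -/
theorem core (hm : 2 ≤ m) (hA : ∀ j, (A j).Nonempty) (S : Type*) [CommRing S]
    (hfg : Group.FG Sˣ)
    (hprimes : ∀ C : ℝ, ∃ (M : ℕ) (T : Finset ℕ), 0 < M ∧
      (∀ r ∈ T, r.Prime ∧ (r - 1) ∣ M ∧ Nonempty (S →+* ZMod r)) ∧
      C * (1 + Real.log M) ≤ T.card) :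
    Tendsto (fun H : ℕ => (((box ((j : Fin m) × A j) H).filter (HasPoint A S)).card : ℝ) /
      (2 * H + 1) ^ Fintype.card ((j : Fin m) × A j)) atTop (𝓝 0) := by
  obtain ⟨g, f, hf⟩ : ∃ (g : ℕ) (f : (Fin g → ℤ) →+ Additive Sˣ), Function.Surjective f := by
    have : Module.Finite ℤ (Additive Sˣ) :=
      Module.Finite.iff_addGroup_fg.mpr (GroupFG.iff_add_fg.mp hfg)
    obtain ⟨g, f, hf⟩ := Module.Finite.exists_fin' ℤ (Additive Sˣ)
    exact ⟨g, f.toAddMonoidHom, hf⟩
  set K := Fintype.card ((j : Fin m) × A j) with hK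
  have hm' : (2 : ℝ) ≤ m := by exact_mod_cast hm
  set θ : ℝ := 1 - 1 / (2 * m) with hθ
  have hθ0 : 0 < θ := by
    rw [hθ, sub_pos, div_lt_one (by positivity)]
    linarith
  have hθ1 : θ < 1 := by
    rw [hθ]
    have : (0 : ℝ) < 1 / (2 * m) := by positivity
    linarith
  set κ : ℝ := -Real.log θ with hκ
  have hκ0 : 0 < κ := by
    rw [hκ, neg_pos]
    exact Real.log_neg hθ0 hθ1
  -- for every `ε` eventually small
  rw [Metric.tendsto_atTop]
  intro ε hε
  -- choose the constant
  obtain ⟨D, hD1, hD2⟩ : ∃ D : ℝ, (n * g : ℕ) ≤ D ∧ (2 : ℝ) ^ K * Real.exp (-D) < ε := by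
    refine ⟨max (n * g : ℕ) (Real.log ((2 : ℝ) ^ K / ε) + 1), le_max_left _ _, ?_⟩
    have h1 : (0 : ℝ) < (2 : ℝ) ^ K / ε := by positivity
    have h2 : Real.exp (-(max ((n * g : ℕ) : ℝ) (Real.log ((2 : ℝ) ^ K / ε) + 1))) <
        Real.exp (-Real.log ((2 : ℝ) ^ K / ε)) := by
      apply Real.exp_lt_exp.mpr
      have := le_max_right ((n * g : ℕ) : ℝ) (Real.log ((2 : ℝ) ^ K / ε) + 1)
      linarith
    rw [Real.exp_neg (Real.log _), Real.exp_log h1] at h2
    calc (2 : ℝ) ^ K * Real.exp (-(max ((n * g : ℕ) : ℝ) (Real.log ((2 : ℝ) ^ K / ε) + 1)))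
        < (2 : ℝ) ^ K * ((2 : ℝ) ^ K / ε)⁻¹ := by gcongr
      _ = ε := by
          rw [inv_div]
          field_simp
  have hD0 : 0 ≤ D := le_trans (by positivity) hD1
  obtain ⟨M, T, hM, hT, hC⟩ := hprimes (D / κ)
  have hM1 : (1 : ℝ) ≤ M := by exact_mod_cast hM
  have hlog : 0 ≤ Real.log M := Real.log_nonneg hM1
  have hbound : (M : ℝ) ^ (n * g) * θ ^ T.card ≤ Real.exp (-D) := by
    have e1 : (M : ℝ) ^ (n * g) = Real.exp ((n * g : ℕ) * Real.log M) := by
      rw [Real.exp_nat_mul, Real.exp_log (by linarith)]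
    have e2 : θ ^ T.card = Real.exp (-(T.card * κ)) := by
      rw [hκ, mul_neg, neg_neg, Real.exp_nat_mul, Real.exp_log hθ0]
    rw [e1, e2, ← Real.exp_add]
    apply Real.exp_le_exp.mpr
    have e3 : D * (1 + Real.log M) ≤ T.card * κ := by
      have := mul_le_mul_of_nonneg_right hC hκ0.le
      calc D * (1 + Real.log M) = D / κ * (1 + Real.log M) * κ := by field_simp
        _ ≤ _ := this
    have e4 : ((n * g : ℕ) : ℝ) * Real.log M ≤ D * Real.log M :=
      mul_le_mul_of_nonneg_right hD1 hlog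
    linarith
  refine ⟨∏ r ∈ T, r, fun H hH => ?_⟩
  have hb := box_bound A hm hA S g f hf M hM T hT H (by
    have : ∏ r ∈ T, r ≤ H := hH
    omega)
  have hpos : (0 : ℝ) < (2 * (H : ℝ) + 1) ^ K := by positivity
  rw [Real.dist_eq, sub_zero, abs_of_nonneg (by positivity), div_lt_iff₀ hpos]
  calc _ ≤ _ := hb
    _ ≤ 2 ^ K * (2 * H + 1) ^ K * Real.exp (-D) := by gcongr
    _ = (2 : ℝ) ^ K * Real.exp (-D) * (2 * H + 1) ^ K := by ring
    _ < ε * (2 * H + 1) ^ K := by gcongr

end core

end Pool.Agent.Helper8.DenseLV
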