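import Mathlib

/-!
# Treedepth and 2-treedepth

All graph parameters are defined for the induced subgraphs `G[S]`, `S` a finite set of vertices of
a fixed graph `G`, exactly by the recursions of problem MP_28efe0_co; for a finite graph `G` the
parameters of `G` itself are those with `S = Finset.univ`. A block (maximal connected subgraph
without a cut-vertex) of `G[S]` is automatically an induced subgraph, since adding edges to a
connected graph without a cut-vertex creates no cut-vertex, so blocks are given by their vertex
sets.
-/

set_option autoImplicit false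
set_option linter.unusedSectionVars false
set_option linter.style.haveILetI false

namespace Pool.Agent.Helper8.Treedepth
open SimpleGraph
open scoped Classical

section Defs
variable {V : Type*}

/-- The induced subgraph `G[S]` on a finite set `S` of vertices. -/
abbrev sub (G : SimpleGraph V) (S : Finset V) : SimpleGraph ((S : Set V) : Type _) :=
  G.induce (S : Set V)

/-- `C` is (the vertex set of) a component of `G[S]`: a maximal subset of `S` inducing a
connected (hence nonnull) graph. -/
def IsComp (G : SimpleGraph V) (S C : Finset V) : Prop :=
  C ⊆ S ∧ (sub G C).Connected ∧ ∀ C' ⊆ S, (sub G C').Connected → C ⊆ C' → C' = C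

/-- `v` is a cut-vertex of `G[S]`: its deletion increases the number of components. -/
def IsCutVertex (G : SimpleGraph V) (S : Finset V) (v : V) : Prop :=
  v ∈ S ∧ Nat.card (sub G S).ConnectedComponent < Nat.card (sub G (S.erase v)).ConnectedComponent

/-- `G[S]` is connected (hence nonnull) and has no cut-vertex, i.e. `G[S]` is itself a block. -/
def IsNonsep (G : SimpleGraph V) (S : Finset V) : Prop :=
  (sub G S).Connected ∧ ∀ v, ¬ IsCutVertex G S v

/-- `B` is (the vertex set of) a block of `G[S]`: a maximal subset of `S` inducing a connected
graph without a cut-vertex. -/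
def IsBlock (G : SimpleGraph V) (S B : Finset V) : Prop :=
  B ⊆ S ∧ IsNonsep G B ∧ ∀ B' ⊆ S, IsNonsep G B' → B ⊆ B' → B' = B

/-- Treedepth of `G[S]`. -/
noncomputable def td (G : SimpleGraph V) (S : Finset V) : ℕ :=
  if hS : S = ∅ then 0
  else if hC : (sub G S).Connected then
    1 + sInf {n | ∃ v, ∃ _ : v ∈ S, n = td G (S.erase v)}
  else
    sSup {n | ∃ C, ∃ _ : IsComp G S C, n = td G C}
termination_by S.card
decreasing_by
  · rename_i h
    exact Finset.card_erase_lt_of_mem h
  · rename_i h
    refine Finset.card_lt_card (Finset.ssubset_iff_subset_ne.2 ⟨h.1, ?_⟩)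
    rintro rfl
    exact hC h.2.1

/-- 2-treedepth of `G[S]`. -/
noncomputable def td2 (G : SimpleGraph V) (S : Finset V) : ℕ :=
  if hS : S = ∅ then 0
  else if hC : IsNonsep G S then
    1 + sInf {n | ∃ v, ∃ _ : v ∈ S, n = td2 G (S.erase v)}
  else
    sSup {n | ∃ B, ∃ _ : IsBlock G S B, n = td2 G B}
termination_by S.card
decreasing_by
  · rename_i h
    exact Finset.card_erase_lt_of_mem h
  · rename_i h
    refine Finset.card_lt_card (Finset.ssubset_iff_subset_ne.2 ⟨h.1, ?_⟩)
    rintro rfl
    exact hC h.2.1

end Defs

end Pool.Agent.Helper8.Treedepth
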