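import Pool.Agent.Helper8.TDDefs

/-!
# Treedepth of `P_t`-free graphs of bounded 2-treedepth

We prove that for all `t ≥ 2`, `k ≥ 1` the maximum treedepth of a finite `P_t`-free graph of
2-treedepth at most `k` is `C(⌊(t-1)/2⌋ + k - 1, ⌊(t-1)/2⌋)`.

All graph parameters are defined for the induced subgraphs `G[S]`, `S` a finite set of vertices of
a fixed graph `G`, exactly by the recursions of the problem; for a finite graph `G` the parameters
of `G` itself are those with `S = Finset.univ`. A block (maximal connected subgraph without a
cut-vertex) of `G[S]` is automatically an induced subgraph, since adding edges to a connected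
graph without a cut-vertex creates no cut-vertex, so blocks are given by their vertex sets.

Upper bound. We prove a stronger statement about eliminating a labelled vertex set `L`: if
labels `i(y)` are given on `L` and every induced path with ends `y, y'` in `L` on `p` vertices
satisfies `p + i(y) + i(y') ≤ 2m+1`, then `L` can be eliminated such that `y` is deleted in round
at most `C(m - i(y) + k - 1, k - 1)` (`UStat`); there is a rooted version (`RStat`) whose proof
trades the root `x` of a block against the vertex `v` whose deletion decreases the 2-treedepth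
(`Elim.trade`). Both are proved simultaneously by induction along 1-separations.

Lower bound. Graphs `G(k,m)` with `G(k,m) = att G(k,m-1) G(k-1,m)`: to every vertex of `G(k,m-1)`
attach many copies of `G(k-1,m)`.
-/

set_option autoImplicit false
set_option linter.unusedSectionVars false
set_option linter.style.haveILetI false

namespace Pool.Agent.Helper8.Treedepth
open SimpleGraph
open scoped Classical


section Basic
variable {V : Type*} {G : SimpleGraph V}

/-- no edges between `A` and `B`. -/
def Anti (G : SimpleGraph V) (A B : Finset V) : Prop := ∀ a ∈ A, ∀ b ∈ B, ¬ G.Adj a b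

lemma Anti.symm {A B : Finset V} (h : Anti G A B) : Anti G B A :=
  fun a ha b hb hab => h b hb a ha hab.symm

lemma Anti.mono {A B A' B' : Finset V} (h : Anti G A B) (hA : A' ⊆ A) (hB : B' ⊆ B) :
    Anti G A' B' := fun a ha b hb => h a (hA ha) b (hB hb)

/-- preconnectedness in terms of separations -/
lemma preconn_iff (S : Finset V) : (sub G S).Preconnected ↔
    ∀ A B : Finset V, A ∪ B = S → Disjoint A B → Anti G A B → A = ∅ ∨ B = ∅ := by
  constructor
  · intro h A B hAB hdis hanti
    by_contra hcon
    push Not at hcon
    obtain ⟨hA, hB⟩ := hcon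
    obtain ⟨a, ha⟩ := hA
    obtain ⟨b, hb⟩ := hB
    have haS : a ∈ (S : Set V) := by rw [← hAB]; simp [ha]
    have hbS : b ∈ (S : Set V) := by rw [← hAB]; simp [hb]
    obtain ⟨w⟩ := h ⟨a, haS⟩ ⟨b, hbS⟩
    have key : ∀ (x y : (S : Set V)) (w : (sub G S).Walk x y), (x : V) ∈ A → (y : V) ∈ A := by
      intro x y w
      induction w with
      | nil => exact id
      | cons hadj p ih =>
        intro hx
        apply ih
        rename_i u v w'
        have hv : (v : V) ∈ A ∪ B := by
          have := v.2
          rw [hAB]
          exact this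
        rw [Finset.mem_union] at hv
        rcases hv with hv | hv
        · exact hv
        · exact absurd hadj (hanti _ hx _ hv)
    have := key _ _ w ha
    exact Finset.disjoint_left.1 hdis this hb
  · intro h x y
    set A : Finset V := S.filter (fun z => ∃ hz : z ∈ (S : Set V), (sub G S).Reachable x ⟨z, hz⟩)
      with hAdef
    set B : Finset V := S \ A with hBdef
    have hAS : A ⊆ S := Finset.filter_subset _ _
    rcases h A B (by rw [hBdef]; exact Finset.union_sdiff_of_subset hAS)
      (by rw [hBdef]; exact Finset.disjoint_sdiff) (by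
        intro a ha b hb hab
        rw [hAdef, Finset.mem_filter] at ha
        obtain ⟨haS, haS', hr⟩ := ha
        rw [hBdef, Finset.mem_sdiff] at hb
        apply hb.2
        rw [hAdef, Finset.mem_filter]
        refine ⟨hb.1, hb.1, hr.trans ?_⟩
        exact SimpleGraph.Adj.reachable (by simpa using hab)) with h1 | h1
    · exfalso
      have : (x : V) ∈ A := by
        rw [hAdef, Finset.mem_filter]
        exact ⟨x.2, x.2, Reachable.refl _⟩
      rw [h1] at this
      simp at this
    · have hy : (y : V) ∈ A := by
        by_contra hy
        have : (y : V) ∈ B := by rw [hBdef, Finset.mem_sdiff]; exact ⟨y.2, hy⟩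
        rw [h1] at this
        simp at this
      rw [hAdef, Finset.mem_filter] at hy
      obtain ⟨_, _, hr⟩ := hy
      exact hr

/-- working version of connectedness of `G[S]`. -/
def Conn (G : SimpleGraph V) (S : Finset V) : Prop :=
  ∀ A B : Finset V, A ∪ B = S → Disjoint A B → Anti G A B → A = ∅ ∨ B = ∅

lemma conn_iff (S : Finset V) : (sub G S).Connected ↔ S.Nonempty ∧ Conn G S := by
  unfold Conn
  rw [SimpleGraph.connected_iff, preconn_iff, and_comm]
  simp [Finset.Nonempty]

/-- A cut-vertex of a connected graph gives a separation. -/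
lemma cut_iff {S : Finset V} (hS : (sub G S).Connected) (v : V) :
    IsCutVertex G S v ↔ v ∈ S ∧ ¬ (sub G (S.erase v)).Preconnected := by
  unfold IsCutVertex
  have h1 : Nat.card (sub G S).ConnectedComponent = 1 := by
    rw [Nat.card_eq_one_iff_unique]
    haveI := hS.nonempty
    exact ⟨hS.preconnected.subsingleton_connectedComponent,
      ⟨(sub G S).connectedComponentMk (Classical.arbitrary _)⟩⟩
  rw [h1]
  have : (1 < Nat.card (sub G (S.erase v)).ConnectedComponent) ↔
      ¬ (sub G (S.erase v)).Preconnected := by
    rw [Finite.one_lt_card_iff_nontrivial, ← not_subsingleton_iff_nontrivial, not_iff_not]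
    constructor
    · intro h x y
      have := Subsingleton.elim ((sub G (S.erase v)).connectedComponentMk x)
        ((sub G (S.erase v)).connectedComponentMk y)
      exact ConnectedComponent.exact this
    · intro h
      exact h.subsingleton_connectedComponent
  rw [this]

lemma nonsep_iff (S : Finset V) : IsNonsep G S ↔ S.Nonempty ∧ Conn G S ∧
    ∀ v ∈ S, Conn G (S.erase v) := by
  unfold IsNonsep
  constructor
  · rintro ⟨h1, h2⟩
    refine ⟨((conn_iff S).1 h1).1, ((conn_iff S).1 h1).2, fun v hv => ?_⟩
    by_contra hcon
    refine h2 v ((cut_iff h1 v).2 ⟨hv, ?_⟩)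
    rw [preconn_iff]
    exact hcon
  · rintro ⟨h0, h1, h2⟩
    have h1' := (conn_iff S).2 ⟨h0, h1⟩
    refine ⟨h1', fun v hv => ?_⟩
    rw [cut_iff h1', preconn_iff] at hv
    exact hv.2 (h2 v hv.1)

/-- a connected subset of a separated union lies on one side. -/
lemma Conn.side {T A B : Finset V} (hT : Conn G T) (hTAB : T ⊆ A ∪ B) (hdis : Disjoint A B)
    (h : Anti G A B) : T ⊆ A ∨ T ⊆ B := by
  have hU : T ∩ A ∪ T ∩ B = T := by
    rw [← Finset.inter_union_distrib_left]
    exact Finset.inter_eq_left.2 hTAB
  rcases hT (T ∩ A) (T ∩ B) hU (hdis.mono Finset.inter_subset_right Finset.inter_subset_right)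
    (h.mono Finset.inter_subset_right Finset.inter_subset_right) with h1 | h1
  · right
    intro x hx
    rcases Finset.mem_union.1 (hTAB hx) with h2 | h2
    · exact absurd (Finset.mem_inter.2 ⟨hx, h2⟩) (by rw [h1]; simp)
    · exact h2
  · left
    intro x hx
    rcases Finset.mem_union.1 (hTAB hx) with h2 | h2
    · exact h2
    · exact absurd (Finset.mem_inter.2 ⟨hx, h2⟩) (by rw [h1]; simp)

lemma conn_singleton (v : V) : Conn G {v} := by
  intro A B h hd _
  by_contra hcon
  push Not at hcon
  obtain ⟨⟨a, ha⟩, ⟨b, hb⟩⟩ := hcon
  have ha' : a ∈ ({v} : Finset V) := by rw [← h]; simp [ha]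
  have hb' : b ∈ ({v} : Finset V) := by rw [← h]; simp [hb]
  rw [Finset.mem_singleton] at ha' hb'
  subst ha'
  subst hb'
  exact Finset.disjoint_left.1 hd ha hb

/-- if `S` is connected and `S.erase z = A ⊔ B` is a separation then `insert z A` is connected. -/
lemma conn_insert_side {S A B : Finset V} {z : V} (hS : Conn G S) (hz : z ∈ S)
    (hAB : A ∪ B = S.erase z) (hdis : Disjoint A B) (h : Anti G A B) : Conn G (insert z A) := by
  have hzA : z ∉ A := fun hh => by
    have : z ∈ S.erase z := by rw [← hAB]; simp [hh]
    simp at this
  have hzB : z ∉ B := fun hh => by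
    have : z ∈ S.erase z := by rw [← hAB]; simp [hh]
    simp at this
  have main : ∀ P Q : Finset V, P ∪ Q = insert z A → Disjoint P Q → Anti G P Q → z ∈ P →
      Q = ∅ := by
    intro P Q hPQ hd ha hzP
    have hQA : Q ⊆ A := by
      intro q hq
      have : q ∈ insert z A := by rw [← hPQ]; simp [hq]
      rcases Finset.mem_insert.1 this with h1 | h1
      · subst h1; exact absurd hq (Finset.disjoint_left.1 hd hzP)
      · exact h1
    rcases hS (P ∪ B) Q (by
        have : P ∪ B ∪ Q = (P ∪ Q) ∪ B := by
          ext x; simp only [Finset.mem_union]; tauto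
        rw [this, hPQ]
        have : insert z A ∪ B = insert z (A ∪ B) := by
          ext x; simp only [Finset.mem_union, Finset.mem_insert]; tauto
        rw [this, hAB, Finset.insert_erase hz]) (by
        rw [Finset.disjoint_union_left]
        exact ⟨hd, (hdis.mono hQA (le_refl _)).symm⟩) (by
        intro p hp q hq
        rcases Finset.mem_union.1 hp with h1 | h1
        · exact ha p h1 q hq
        · exact fun hh => h q (hQA hq) p h1 hh.symm) with h1 | h1
    · exfalso
      have : z ∈ P ∪ B := by simp [hzP]
      rw [h1] at this
      simp at this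
    · exact h1
  intro P Q hPQ hd ha
  have hz' : z ∈ P ∪ Q := by rw [hPQ]; simp
  rcases Finset.mem_union.1 hz' with h1 | h1
  · right; exact main P Q hPQ hd ha h1
  · left; exact main Q P (by rw [Finset.union_comm]; exact hPQ) hd.symm ha.symm h1

/-- existence of a component containing a given connected set -/
lemma exists_comp_of_conn {S T : Finset V} (hT : (sub G T).Connected) (hTS : T ⊆ S) :
    ∃ C, IsComp G S C ∧ T ⊆ C := by
  have hfin : (S.powerset.filter (fun C => (sub G C).Connected ∧ T ⊆ C)).Nonempty :=
    ⟨T, by simp [hTS, hT]⟩
  obtain ⟨C, hC, hmax⟩ := Finset.exists_max_image _ Finset.card hfin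
  rw [Finset.mem_filter, Finset.mem_powerset] at hC
  refine ⟨C, ⟨hC.1, hC.2.1, fun C' hC' hconn hsub => ?_⟩, hC.2.2⟩
  have := hmax C' (by
    rw [Finset.mem_filter, Finset.mem_powerset]
    exact ⟨hC', hconn, hC.2.2.trans hsub⟩)
  exact (Finset.eq_of_subset_of_card_le hsub this).symm

lemma exists_block_of_nonsep {S T : Finset V} (hT : IsNonsep G T) (hTS : T ⊆ S) :
    ∃ C, IsBlock G S C ∧ T ⊆ C := by
  have hfin : (S.powerset.filter (fun C => IsNonsep G C ∧ T ⊆ C)).Nonempty :=
    ⟨T, by simp [hTS, hT]⟩
  obtain ⟨C, hC, hmax⟩ := Finset.exists_max_image _ Finset.card hfin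
  rw [Finset.mem_filter, Finset.mem_powerset] at hC
  refine ⟨C, ⟨hC.1, hC.2.1, fun C' hC' hconn hsub => ?_⟩, hC.2.2⟩
  have := hmax C' (by
    rw [Finset.mem_filter, Finset.mem_powerset]
    exact ⟨hC', hconn, hC.2.2.trans hsub⟩)
  exact (Finset.eq_of_subset_of_card_le hsub this).symm

lemma nonsep_singleton (v : V) : IsNonsep G ({v} : Finset V) := by
  rw [nonsep_iff]
  refine ⟨⟨v, by simp⟩, conn_singleton v, fun w hw => ?_⟩
  rw [Finset.mem_singleton] at hw
  subst hw
  intro A B h _ _
  left
  have : A ∪ B = ∅ := by rw [h]; simp
  exact (Finset.union_eq_empty.1 this).1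

/-! ### recursion equations -/

lemma td_empty : td G (∅ : Finset V) = 0 := by
  rw [td]; simp

lemma td_conn {S : Finset V} (hS : (sub G S).Connected) :
    td G S = 1 + sInf {n | ∃ v, ∃ _ : v ∈ S, n = td G (S.erase v)} := by
  have hne : S ≠ ∅ := ((conn_iff S).1 hS).1.ne_empty
  rw [td, dif_neg hne, dif_pos hS]

lemma td_not_conn {S : Finset V} (hne : S ≠ ∅) (hS : ¬ (sub G S).Connected) :
    td G S = sSup {n | ∃ C, ∃ _ : IsComp G S C, n = td G C} := by
  rw [td, dif_neg hne, dif_neg hS]

lemma td2_empty : td2 G (∅ : Finset V) = 0 := by
  rw [td2]; simp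

lemma td2_nonsep {S : Finset V} (hS : IsNonsep G S) :
    td2 G S = 1 + sInf {n | ∃ v, ∃ _ : v ∈ S, n = td2 G (S.erase v)} := by
  have hne : S ≠ ∅ := ((conn_iff S).1 hS.1).1.ne_empty
  rw [td2, dif_neg hne, dif_pos hS]

lemma td2_not_nonsep {S : Finset V} (hne : S ≠ ∅) (hS : ¬ IsNonsep G S) :
    td2 G S = sSup {n | ∃ C, ∃ _ : IsBlock G S C, n = td2 G C} := by
  rw [td2, dif_neg hne, dif_neg hS]

lemma bdd_comp (f : Finset V → ℕ) (P : Finset V → Prop) (S : Finset V)
    (hP : ∀ C, P C → C ⊆ S) : BddAbove {n | ∃ C, ∃ _ : P C, n = f C} := by
  have : {n | ∃ C, ∃ _ : P C, n = f C} ⊆ ((S.powerset.image f : Finset ℕ) : Set ℕ) := by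
    rintro n ⟨C, hC, rfl⟩
    simp only [Finset.coe_image, Set.mem_image, Finset.mem_coe, Finset.mem_powerset]
    exact ⟨C, hP C hC, rfl⟩
  exact (Finset.finite_toSet _).subset this |>.bddAbove

lemma td_conn_attained {S : Finset V} (hS : (sub G S).Connected) :
    ∃ v ∈ S, td G S = 1 + td G (S.erase v) := by
  rw [td_conn hS]
  obtain ⟨v, hv⟩ := ((conn_iff S).1 hS).1
  have : {n | ∃ v, ∃ _ : v ∈ S, n = td G (S.erase v)}.Nonempty := ⟨_, v, hv, rfl⟩
  obtain ⟨w, hw, hh⟩ := Nat.sInf_mem this
  exact ⟨w, hw, by rw [hh]⟩

lemma td2_nonsep_attained {S : Finset V} (hS : IsNonsep G S) :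
    ∃ v ∈ S, td2 G S = 1 + td2 G (S.erase v) := by
  rw [td2_nonsep hS]
  obtain ⟨v, hv⟩ := ((conn_iff S).1 hS.1).1
  have : {n | ∃ v, ∃ _ : v ∈ S, n = td2 G (S.erase v)}.Nonempty := ⟨_, v, hv, rfl⟩
  obtain ⟨w, hw, hh⟩ := Nat.sInf_mem this
  exact ⟨w, hw, by rw [hh]⟩

lemma td_conn_le {S : Finset V} (hS : (sub G S).Connected) {v : V} (hv : v ∈ S) :
    td G S ≤ 1 + td G (S.erase v) := by
  rw [td_conn hS]
  have : td G (S.erase v) ∈ {n | ∃ v, ∃ _ : v ∈ S, n = td G (S.erase v)} := ⟨v, hv, rfl⟩
  exact Nat.add_le_add_left (Nat.sInf_le this) 1

lemma td2_nonsep_le {S : Finset V} (hS : IsNonsep G S) {v : V} (hv : v ∈ S) :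
    td2 G S ≤ 1 + td2 G (S.erase v) := by
  rw [td2_nonsep hS]
  have : td2 G (S.erase v) ∈ {n | ∃ v, ∃ _ : v ∈ S, n = td2 G (S.erase v)} := ⟨v, hv, rfl⟩
  exact Nat.add_le_add_left (Nat.sInf_le this) 1

lemma td_comp_le {S C : Finset V} (hC : IsComp G S C) : td G C ≤ td G S := by
  by_cases hS : (sub G S).Connected
  · have := hC.2.2 S (le_refl _) hS hC.1
    rw [this]
  · have hne : S ≠ ∅ := by
      rintro rfl
      have := ((conn_iff C).1 hC.2.1).1
      have h2 : C = ∅ := Finset.subset_empty.1 hC.1
      rw [h2] at this
      simp at this
    rw [td_not_conn hne hS]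
    exact le_csSup (bdd_comp (td G) (IsComp G S) S (fun C h => h.1)) ⟨C, hC, rfl⟩

lemma td2_block_le {S C : Finset V} (hC : IsBlock G S C) : td2 G C ≤ td2 G S := by
  by_cases hS : IsNonsep G S
  · have := hC.2.2 S (le_refl _) hS hC.1
    rw [this]
  · have hne : S ≠ ∅ := by
      rintro rfl
      have := ((conn_iff C).1 hC.2.1.1).1
      have h2 : C = ∅ := Finset.subset_empty.1 hC.1
      rw [h2] at this
      simp at this
    rw [td2_not_nonsep hne hS]
    exact le_csSup (bdd_comp (td2 G) (IsBlock G S) S (fun C h => h.1)) ⟨C, hC, rfl⟩

lemma td_not_conn_le {S : Finset V} (hne : S ≠ ∅) (hS : ¬ (sub G S).Connected) {d : ℕ}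
    (h : ∀ C, IsComp G S C → td G C ≤ d) : td G S ≤ d := by
  rw [td_not_conn hne hS]
  apply csSup_le
  · obtain ⟨v, hv⟩ := Finset.nonempty_iff_ne_empty.2 hne
    obtain ⟨C, hC, _⟩ := exists_comp_of_conn (G := G) (S := S) (T := {v})
      ((conn_iff _).2 ⟨⟨v, by simp⟩, conn_singleton v⟩) (by simpa using hv)
    exact ⟨_, C, hC, rfl⟩
  · rintro n ⟨C, hC, rfl⟩
    exact h C hC

lemma td2_not_nonsep_le {S : Finset V} (hne : S ≠ ∅) (hS : ¬ IsNonsep G S) {d : ℕ}
    (h : ∀ C, IsBlock G S C → td2 G C ≤ d) : td2 G S ≤ d := by
  rw [td2_not_nonsep hne hS]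
  apply csSup_le
  · obtain ⟨v, hv⟩ := Finset.nonempty_iff_ne_empty.2 hne
    obtain ⟨C, hC, _⟩ := exists_block_of_nonsep (G := G) (S := S) (T := {v})
      (nonsep_singleton v) (by simpa using hv)
    exact ⟨_, C, hC, rfl⟩
  · rintro n ⟨C, hC, rfl⟩
    exact h C hC

lemma block_ssubset {S C : Finset V} (hS : ¬ IsNonsep G S) (hC : IsBlock G S C) : C ⊂ S := by
  refine Finset.ssubset_iff_subset_ne.2 ⟨hC.1, ?_⟩
  rintro rfl
  exact hS hC.2.1

lemma comp_ssubset {S C : Finset V} (hS : ¬ (sub G S).Connected) (hC : IsComp G S C) : C ⊂ S := by
  refine Finset.ssubset_iff_subset_ne.2 ⟨hC.1, ?_⟩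
  rintro rfl
  exact hS hC.2.1

/-- monotonicity of td2 -/
lemma td2_mono : ∀ (n : ℕ) (S T : Finset V), S.card + T.card ≤ n → T ⊆ S →
    td2 G T ≤ td2 G S := by
  intro n
  induction n with
  | zero =>
    intro S T h hTS
    have : T = ∅ := Finset.card_eq_zero.1 (by omega)
    subst this
    rw [td2_empty]; omega
  | succ n ih =>
    intro S T h hTS
    by_cases hT0 : T = ∅
    · subst hT0; rw [td2_empty]; omega
    by_cases hT : IsNonsep G T
    · by_cases hS : IsNonsep G S
      · obtain ⟨v, hv, hveq⟩ := td2_nonsep_attained hS
        have hcS := Finset.card_erase_lt_of_mem hv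
        by_cases hvT : v ∈ T
        · have h1 := td2_nonsep_le hT hvT
          have hcT := Finset.card_erase_lt_of_mem hvT
          have h2 := ih (S.erase v) (T.erase v) (by omega) (Finset.erase_subset_erase v hTS)
          omega
        · have h2 := ih (S.erase v) T (by omega) (by
            intro x hx
            rw [Finset.mem_erase]
            exact ⟨fun hxv => hvT (hxv ▸ hx), hTS hx⟩)
          omega
      · obtain ⟨C, hC, hTC⟩ := exists_block_of_nonsep hT hTS
        have h1 := Finset.card_lt_card (block_ssubset hS hC)
        exact (ih C T (by omega) hTC).trans (td2_block_le hC)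
    · apply td2_not_nonsep_le hT0 hT
      intro C hC
      have h1 := Finset.card_lt_card (block_ssubset hT hC)
      exact ih S C (by omega) (hC.1.trans hTS)

lemma td2_mono' {S T : Finset V} (h : T ⊆ S) : td2 G T ≤ td2 G S := td2_mono _ S T le_rfl h

/-- monotonicity of td -/
lemma td_mono : ∀ (n : ℕ) (S T : Finset V), S.card + T.card ≤ n → T ⊆ S →
    td G T ≤ td G S := by
  intro n
  induction n with
  | zero =>
    intro S T h hTS
    have : T = ∅ := Finset.card_eq_zero.1 (by omega)
    subst this
    rw [td_empty]; omega
  | succ n ih =>
    intro S T h hTS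
    by_cases hT0 : T = ∅
    · subst hT0; rw [td_empty]; omega
    by_cases hT : (sub G T).Connected
    · by_cases hS : (sub G S).Connected
      · obtain ⟨v, hv, hveq⟩ := td_conn_attained hS
        have hcS := Finset.card_erase_lt_of_mem hv
        by_cases hvT : v ∈ T
        · have h1 := td_conn_le hT hvT
          have hcT := Finset.card_erase_lt_of_mem hvT
          have h2 := ih (S.erase v) (T.erase v) (by omega) (Finset.erase_subset_erase v hTS)
          omega
        · have h2 := ih (S.erase v) T (by omega) (by
            intro x hx
            rw [Finset.mem_erase]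
            exact ⟨fun hxv => hvT (hxv ▸ hx), hTS hx⟩)
          omega
      · obtain ⟨C, hC, hTC⟩ := exists_comp_of_conn hT hTS
        have h1 := Finset.card_lt_card (comp_ssubset hS hC)
        exact (ih C T (by omega) hTC).trans (td_comp_le hC)
    · apply td_not_conn_le hT0 hT
      intro C hC
      have h1 := Finset.card_lt_card (comp_ssubset hT hC)
      exact ih S C (by omega) (hC.1.trans hTS)

lemma td_mono' {S T : Finset V} (h : T ⊆ S) : td G T ≤ td G S := td_mono _ S T le_rfl h

lemma td_le_erase {S : Finset V} {v : V} (hv : v ∈ S) : td G S ≤ 1 + td G (S.erase v) := by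
  by_cases hS : (sub G S).Connected
  · exact td_conn_le hS hv
  · apply td_not_conn_le (Finset.ne_empty_of_mem hv) hS
    intro C hC
    by_cases hvC : v ∈ C
    · exact (td_conn_le hC.2.1 hvC).trans
        (Nat.add_le_add_left (td_mono' (Finset.erase_subset_erase v hC.1)) 1)
    · have : C ⊆ S.erase v := fun x hx => by
        rw [Finset.mem_erase]
        exact ⟨fun hxv => hvC (hxv ▸ hx), hC.1 hx⟩
      have := td_mono' (G := G) this
      omega

lemma td_union_le {A B : Finset V} (hdis : Disjoint A B) (h : Anti G A B) {d : ℕ}
    (hA : td G A ≤ d) (hB : td G B ≤ d) : td G (A ∪ B) ≤ d := by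
  by_cases hA0 : A = ∅
  · subst hA0; simpa using hB
  by_cases hB0 : B = ∅
  · subst hB0; simpa using hA
  have hnc : ¬ (sub G (A ∪ B)).Connected := by
    rw [conn_iff]
    rintro ⟨_, h2⟩
    rcases h2 A B rfl hdis h with h3 | h3
    · exact hA0 h3
    · exact hB0 h3
  apply td_not_conn_le (by
    intro hh
    exact hA0 (Finset.union_eq_empty.1 hh).1) hnc
  intro C hC
  rcases Conn.side ((conn_iff C).1 hC.2.1).2 hC.1 hdis h with h1 | h1
  · exact (td_mono' h1).trans hA
  · exact (td_mono' h1).trans hB

/-- In a 1-separation every nonseparable set lies on one side. -/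
lemma nonsep_side {T A B : Finset V} {z : V} (hT : IsNonsep G T)
    (hTS : T ⊆ insert z (A ∪ B)) (hdis : Disjoint A B) (h : Anti G A B) (hzA : z ∉ A)
    (hzB : z ∉ B) : T ⊆ insert z A ∨ T ⊆ insert z B := by
  rw [nonsep_iff] at hT
  have hsub : T.erase z ⊆ A ∪ B := by
    intro x hx
    rw [Finset.mem_erase] at hx
    rcases Finset.mem_insert.1 (hTS hx.2) with h1 | h1
    · exact absurd h1 hx.1
    · exact h1
  have hconn : Conn G (T.erase z) := by
    by_cases hz : z ∈ T
    · exact hT.2.2 z hz
    · rw [Finset.erase_eq_of_notMem hz]; exact hT.2.1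
  rcases hconn.side hsub hdis h with h1 | h1
  · left
    intro x hx
    by_cases hxz : x = z
    · subst hxz; simp
    · exact Finset.mem_insert_of_mem (h1 (Finset.mem_erase.2 ⟨hxz, hx⟩))
  · right
    intro x hx
    by_cases hxz : x = z
    · subst hxz; simp
    · exact Finset.mem_insert_of_mem (h1 (Finset.mem_erase.2 ⟨hxz, hx⟩))

end Basic

section Paths
variable {V : Type*} {G : SimpleGraph V}

/-- `IP G S x y l`: the list `l` is (the vertex sequence of) an induced path of `G` from `x` to
`y` with all vertices in `S`. -/
inductive IP (G : SimpleGraph V) (S : Finset V) : V → V → List V → Prop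
  | single {x : V} : x ∈ S → IP G S x x [x]
  | cons {a b y : V} {l : List V} : a ∈ S → G.Adj a b → (∀ c ∈ l, c ≠ a ∧ ¬ G.Adj a c) →
      IP G S b y (b :: l) → IP G S a y (a :: b :: l)

lemma IP.head {S : Finset V} {x y : V} {l : List V} (h : IP G S x y l) :
    ∃ l', l = x :: l' := by
  cases h with
  | single _ => exact ⟨[], rfl⟩
  | cons _ _ _ _ => exact ⟨_, rfl⟩

lemma IP.mem {S : Finset V} {x y : V} {l : List V} (h : IP G S x y l) : ∀ c ∈ l, c ∈ S := by
  induction h with
  | single hx => intro c hc; simp at hc; subst hc; exact hx
  | cons ha _ _ _ ih =>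
    intro c hc
    rcases List.mem_cons.1 hc with h1 | h1
    · subst h1; exact ha
    · exact ih c h1

lemma IP.left_mem {S : Finset V} {x y : V} {l : List V} (h : IP G S x y l) : x ∈ l := by
  obtain ⟨l', rfl⟩ := h.head; simp

lemma IP.right_mem {S : Finset V} {x y : V} {l : List V} (h : IP G S x y l) : y ∈ l := by
  induction h with
  | single hx => simp
  | cons _ _ _ _ ih => exact List.mem_cons_of_mem _ ih

lemma IP.mono {S S' : Finset V} {x y : V} {l : List V} (h : IP G S x y l) (hS : S ⊆ S') :
    IP G S' x y l := by
  induction h with
  | single hx => exact .single (hS hx)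
  | cons ha hab hc _ ih => exact .cons (hS ha) hab hc ih

lemma IP.self {S : Finset V} {x y : V} {l : List V} (h : IP G S x y l) (hxy : x = y) :
    l.length = 1 := by
  cases h with
  | single _ => rfl
  | cons ha hab hc h' =>
    exfalso
    subst hxy
    have := h'.right_mem
    rcases List.mem_cons.1 this with h1 | h1
    · exact hab.ne h1
    · exact (hc _ h1).1 rfl

lemma IP.two_le {S : Finset V} {x y : V} {l : List V} (h : IP G S x y l) (hxy : x ≠ y) :
    2 ≤ l.length := by
  cases h with
  | single _ => exact absurd rfl hxy
  | cons ha hab hc h' => simp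

lemma IP.one_le {S : Finset V} {x y : V} {l : List V} (h : IP G S x y l) :
    1 ≤ l.length := by
  obtain ⟨l', rfl⟩ := h.head; simp

lemma IP.adj_of_le_two {S : Finset V} {x y : V} {l : List V} (h : IP G S x y l) (hxy : x ≠ y)
    (hl : l.length ≤ 2) : G.Adj x y := by
  cases h with
  | single _ => exact absurd rfl hxy
  | cons ha hab hc h' =>
    cases h' with
    | single _ => exact hab
    | cons _ _ _ h'' =>
      simp at hl

/-- an induced path can be extended by one vertex at its end -/
lemma IP.snoc {S : Finset V} {x y z : V} {l : List V} (h : IP G S x y l) (hz : z ∈ S)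
    (hyz : G.Adj y z) (hc : ∀ c ∈ l, c ≠ z ∧ (c ≠ y → ¬ G.Adj c z)) :
    IP G S x z (l ++ [z]) := by
  induction h with
  | single hx =>
    exact .cons hx hyz (by simp) (.single hz)
  | cons ha hab hc' h' ih =>
    rename_i a b y l
    have hne : a ≠ y := by
      rintro rfl
      have := h'.right_mem
      rcases List.mem_cons.1 this with h1 | h1
      · exact hab.ne h1
      · exact (hc' _ h1).1 rfl
    refine .cons ha hab ?_ (ih hyz (fun c hcc => hc c (List.mem_cons_of_mem _ hcc)))
    intro c hcl
    rcases List.mem_append.1 hcl with h1 | h1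
    · exact hc' c h1
    · rw [List.mem_singleton] at h1
      subst h1
      have := hc a (by simp)
      exact ⟨this.1.symm, this.2 hne⟩

lemma IP.reverse {S : Finset V} {x y : V} {l : List V} (h : IP G S x y l) :
    IP G S y x l.reverse := by
  induction h with
  | single hx => simpa using IP.single hx
  | cons ha hab hc' h' ih =>
    rename_i a b y l
    rw [List.reverse_cons]
    refine ih.snoc ha hab.symm ?_
    intro c hc
    rw [List.mem_reverse] at hc
    rcases List.mem_cons.1 hc with h1 | h1
    · subst h1
      exact ⟨hab.ne.symm, fun hh => absurd rfl hh⟩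
    · exact ⟨(hc' c h1).1, fun _ hadj => (hc' c h1).2 hadj.symm⟩

lemma IP.nodup_tail {S : Finset V} {x y : V} {l : List V} (h : IP G S x y (x :: l)) : x ∉ l := by
  cases h with
  | single _ => simp
  | cons ha hab hc h' =>
    intro hh
    rcases List.mem_cons.1 hh with h1 | h1
    · exact hab.ne h1
    · exact (hc _ h1).1 rfl

/-- concatenation of two induced paths at a cut-vertex. -/
lemma IP.append {A B : Finset V} {z x y : V} {l l' : List V}
    (hdis : Disjoint A B) (hanti : Anti G A B) (hzA : z ∉ A) (hzB : z ∉ B)
    (h : IP G (insert z A) x z l) (h' : IP G (insert z B) z y (z :: l')) :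
    IP G (insert z (A ∪ B)) x y (l ++ l') := by
  generalize hS : insert z A = S at h
  generalize hw : z = w at h
  induction h with
  | single hx =>
    subst hw
    refine IP.mono (S := insert z B) ?_ ?_
    · simpa using h'
    · exact Finset.insert_subset_insert _ Finset.subset_union_right
  | cons ha hab hc h'' ih =>
    rename_i a b y' l
    subst hS
    subst hw
    have hza : z ≠ a := by
      rintro rfl
      have := h''.right_mem
      rcases List.mem_cons.1 this with h1 | h1
      · exact hab.ne h1
      · exact (hc _ h1).1 rfl
    have haA : a ∈ A := by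
      rcases Finset.mem_insert.1 ha with h1 | h1
      · exact absurd h1.symm hza
      · exact h1
    have hsub : insert z A ⊆ insert z (A ∪ B) :=
      Finset.insert_subset_insert _ Finset.subset_union_left
    refine .cons (hsub ha) hab ?_ (ih rfl)
    intro c hcl
    rcases List.mem_append.1 hcl with h1 | h1
    · exact hc c h1
    · have hcB : c ∈ insert z B := h'.mem c (List.mem_cons_of_mem _ h1)
      have hcz : c ≠ z := by
        rintro rfl
        exact h'.nodup_tail h1
      have hcB' : c ∈ B := by
        rcases Finset.mem_insert.1 hcB with h2 | h2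
        · exact absurd h2 hcz
        · exact h2
      exact ⟨fun hh => Finset.disjoint_left.1 hdis haA (hh ▸ hcB'), hanti a haA c hcB'⟩

/-- In a connected induced subgraph any two vertices are joined by an induced path. -/
lemma exists_IP {S : Finset V} (hS : Conn G S) {x y : V} (hx : x ∈ S) (hy : y ∈ S) :
    ∃ l, IP G S x y l := by
  -- chains
  have hchain : ∃ l : List V, l.IsChain G.Adj ∧ (∀ c ∈ l, c ∈ S) ∧ l.head? = some x ∧
      l.getLast? = some y := by
    have hpre := (preconn_iff (G := G) S).2 hS
    obtain ⟨w⟩ := hpre ⟨x, hx⟩ ⟨y, hy⟩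
    have key : ∀ (a b : (S : Set V)) (w : (sub G S).Walk a b),
        ∃ l : List V, l.IsChain G.Adj ∧ (∀ c ∈ l, c ∈ S) ∧ l.head? = some (a : V) ∧
      l.getLast? = some (b : V) := by
      intro a b w
      induction w with
      | nil =>
        rename_i u
        refine ⟨[(u : V)], by simp, ?_, by simp, by simp⟩
        intro c hc
        simp at hc
        subst hc
        exact u.2
      | cons hadj p ih =>
        rename_i u v w'
        obtain ⟨l, h1, h2, h3, h4⟩ := ih
        cases l with
        | nil => simp at h3
        | cons c l =>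
          simp at h3
          subst h3
          refine ⟨(u : V) :: (v : V) :: l, ?_, ?_, by simp, ?_⟩
          · rw [List.isChain_cons_cons]
            exact ⟨hadj, h1⟩
          · intro c hc
            rcases List.mem_cons.1 hc with h5 | h5
            · subst h5; exact u.2
            · exact h2 c h5
          · rw [List.getLast?_cons_cons]; exact h4
    exact key _ _ w
  -- take a shortest chain
  obtain ⟨l, hl, hmin⟩ : ∃ l : List V, (l.IsChain G.Adj ∧ (∀ c ∈ l, c ∈ S) ∧ l.head? = some x ∧
      l.getLast? = some y) ∧ ∀ l' : List V, (l'.IsChain G.Adj ∧ (∀ c ∈ l', c ∈ S) ∧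
      l'.head? = some x ∧ l'.getLast? = some y) → l.length ≤ l'.length := by
    obtain ⟨l0, hl0⟩ := hchain
    have hne : {n | ∃ l : List V, (l.IsChain G.Adj ∧ (∀ c ∈ l, c ∈ S) ∧ l.head? = some x ∧
      l.getLast? = some y) ∧ l.length = n}.Nonempty := ⟨_, l0, hl0, rfl⟩
    obtain ⟨l, hl, hlen⟩ := Nat.sInf_mem hne
    refine ⟨l, hl, fun l' hl' => ?_⟩
    rw [hlen]
    exact Nat.sInf_le ⟨l', hl', rfl⟩
  clear hchain
  refine ⟨l, ?_⟩
  clear hx
  induction l generalizing x with
  | nil => simp at hl
  | cons a l ih =>
    obtain ⟨h1, h2, h3, h4⟩ := hl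
    simp at h3
    subst h3
    cases l with
    | nil =>
      simp at h4
      subst h4
      exact .single hy
    | cons b l =>
      rw [List.isChain_cons_cons] at h1
      rw [List.getLast?_cons_cons] at h4
      refine .cons (h2 a (by simp)) h1.1 ?_ (ih ⟨h1.2, fun c hc => h2 c (List.mem_cons_of_mem _ hc),
        by simp, h4⟩ ?_)
      · intro c hc
        obtain ⟨s, t, rfl⟩ := List.append_of_mem hc
        have hsuf : (c :: t) <:+ (b :: (s ++ c :: t)) := ⟨b :: s, by simp⟩
        have hch : (c :: t).IsChain G.Adj := h1.2.suffix hsuf
        have hlast : (c :: t).getLast? = some y := by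
          rw [← h4, ← List.cons_append, List.getLast?_append]
          simp [List.getLast?_cons]
        constructor
        · rintro rfl
          have := hmin (c :: t) ⟨hch, fun d hd => h2 d (by
            simp only [List.mem_cons, List.mem_append] at hd ⊢; tauto), by simp, hlast⟩
          simp at this
          omega
        · intro hadj
          have := hmin (a :: c :: t) ⟨by rw [List.isChain_cons_cons]; exact ⟨hadj, hch⟩,
            fun d hd => h2 d (by
            simp only [List.mem_cons, List.mem_append] at hd ⊢; tauto), by simp, by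
            rw [List.getLast?_cons_cons]; exact hlast⟩
          simp at this
          omega
      · intro l' hl'
        cases l' with
        | nil => simp at hl'
        | cons b' l' =>
          obtain ⟨g1, g2, g3, g4⟩ := hl'
          simp at g3
          subst g3
          have := hmin (a :: b' :: l') ⟨by rw [List.isChain_cons_cons]; exact ⟨h1.1, g1⟩, by
            intro c hc
            rcases List.mem_cons.1 hc with h5 | h5
            · subst h5; exact h2 _ (by simp)
            · exact g2 c h5, by simp, by rw [List.getLast?_cons_cons]; exact g4⟩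
          simpa using this

end Paths

section Elim
variable {V : Type*} {G : SimpleGraph V}

/-- `Elim G L S β`: the vertices of `L ∩ S` can be eliminated from `G[S]` such that every
`y ∈ L ∩ S` is deleted in round at most `β y`. -/
inductive Elim (G : SimpleGraph V) (L : Finset V) : Finset V → (V → ℕ) → Prop
  | done {S : Finset V} {β : V → ℕ} : (∀ y ∈ S, y ∉ L) → Elim G L S β
  | del {S : Finset V} {β : V → ℕ} {v : V} : v ∈ S → (∀ y ∈ S, y ∈ L → 1 ≤ β y) →
      Elim G L (S.erase v) (fun y => β y - 1) → Elim G L S β
  | split {A B : Finset V} {β : V → ℕ} : Disjoint A B → Anti G A B →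
      Elim G L A β → Elim G L B β → Elim G L (A ∪ B) β

lemma Elim.mono {L L' S : Finset V} {β β' : V → ℕ} (h : Elim G L S β)
    (hL : ∀ y ∈ S, y ∈ L' → y ∈ L ∧ β y ≤ β' y) : Elim G L' S β' := by
  induction h generalizing β' with
  | done h => exact .done fun y hy hyL => h y hy (hL y hy hyL).1
  | del hv h1 _ ih =>
    refine .del hv (fun y hy hyL => ?_) (ih fun y hy hyL => ?_)
    · have := hL y hy hyL
      have := h1 y hy this.1
      omega
    · have := hL y (Finset.mem_of_mem_erase hy) hyL
      exact ⟨this.1, by dsimp only; omega⟩
  | split hd ha _ _ ih1 ih2 =>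
    exact .split hd ha (ih1 fun y hy => hL y (Finset.mem_union_left _ hy))
      (ih2 fun y hy => hL y (Finset.mem_union_right _ hy))

/-- attach an unlabelled part at a vertex -/
lemma Elim.attach_unlabelled {L S T : Finset V} {z : V} {β : V → ℕ} (h : Elim G L S β)
    (hd : Disjoint S T) (hST : ∀ a ∈ S, ∀ b ∈ T, G.Adj a b → a = z) (hT : ∀ y ∈ T, y ∉ L) :
    Elim G L (S ∪ T) β := by
  induction h with
  | done h =>
    refine .done fun y hy => ?_
    rcases Finset.mem_union.1 hy with h1 | h1
    · exact h y h1
    · exact hT y h1
  | @del S β v hv h1 h2 ih =>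
    refine .del (v := v) (Finset.mem_union_left _ hv) (fun y hy hyL => ?_) ?_
    · rcases Finset.mem_union.1 hy with h3 | h3
      · exact h1 y h3 hyL
      · exact absurd hyL (hT y h3)
    · have hvT : v ∉ T := fun hh => Finset.disjoint_left.1 hd hv hh
      have : (S ∪ T).erase v = S.erase v ∪ T := by
        rw [Finset.erase_union_distrib, Finset.erase_eq_of_notMem hvT]
      rw [this]
      exact ih (hd.mono (Finset.erase_subset _ _) le_rfl)
        (fun a ha b hb => hST a (Finset.mem_of_mem_erase ha) b hb)
  | @split A B β hd' ha hA hB ih1 ih2 =>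
    rw [Finset.disjoint_union_left] at hd
    by_cases hz : z ∈ A
    · have hzB : z ∉ B := Finset.disjoint_left.1 hd' hz
      have : A ∪ B ∪ T = (A ∪ T) ∪ B := by
        ext x; simp only [Finset.mem_union]; tauto
      rw [this]
      refine .split ?_ ?_ (ih1 hd.1 fun a ha b hb => hST a (Finset.mem_union_left _ ha) b hb) hB
      · rw [Finset.disjoint_union_left]
        exact ⟨hd', hd.2.symm⟩
      · intro a ha' b hb hab
        rcases Finset.mem_union.1 ha' with h1 | h1
        · exact ha a h1 b hb hab
        · have := hST b (Finset.mem_union_right _ hb) a h1 hab.symm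
          subst this
          exact hzB hb
    · have : A ∪ B ∪ T = A ∪ (B ∪ T) := by
        ext x; simp only [Finset.mem_union]; tauto
      rw [this]
      refine .split ?_ ?_ hA (ih2 hd.2 fun a ha b hb => hST a (Finset.mem_union_right _ ha) b hb)
      · rw [Finset.disjoint_union_right]
        exact ⟨hd', hd.1⟩
      · intro a ha' b hb hab
        rcases Finset.mem_union.1 hb with h1 | h1
        · exact ha a ha' b h1 hab
        · have := hST a (Finset.mem_union_left _ ha') b h1 hab
          subst this
          exact hz ha'

/-- attach a labelled part at a labelled vertex `z` -/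
lemma Elim.attach {L L1 S T : Finset V} {z : V} {β1 β2 β : V → ℕ} {c : ℕ} (h : Elim G L1 S β1)
    (hd : Disjoint S T) (hST : ∀ a ∈ S, ∀ b ∈ T, G.Adj a b → a = z) (hzS : z ∈ S)
    (hzL : z ∈ L1) (hc : β1 z ≤ c) (hT : Elim G L T β2)
    (hβ : ∀ y ∈ S, y ∈ L → y ∈ L1 ∧ β1 y ≤ β y)
    (hβ2 : ∀ y ∈ T, y ∈ L → c + β2 y ≤ β y) :
    Elim G L (S ∪ T) β := by
  induction h generalizing β c with
  | done h => exact absurd hzL (h z hzS)
  | @del S β1 v hv h1 h2 ih =>
    have hc1 : 1 ≤ c := (h1 z hzS hzL).trans hc
    have hge : ∀ y ∈ S ∪ T, y ∈ L → 1 ≤ β y := by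
      intro y hy hyL
      rcases Finset.mem_union.1 hy with h3 | h3
      · have := hβ y h3 hyL
        have := h1 y h3 this.1
        omega
      · have := hβ2 y h3 hyL
        omega
    have hvT : v ∉ T := fun hh => Finset.disjoint_left.1 hd hv hh
    have heq : (S ∪ T).erase v = S.erase v ∪ T := by
      rw [Finset.erase_union_distrib, Finset.erase_eq_of_notMem hvT]
    refine .del (v := v) (Finset.mem_union_left _ hv) hge ?_
    rw [heq]
    by_cases hvz : v = z
    · subst hvz
      refine .split (hd.mono (Finset.erase_subset _ _) le_rfl) ?_ (h2.mono ?_) (hT.mono ?_)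
      · intro a ha b hb hab
        rw [Finset.mem_erase] at ha
        exact ha.1 (hST a ha.2 b hb hab)
      · intro y hy hyL
        have := hβ y (Finset.mem_of_mem_erase hy) hyL
        exact ⟨this.1, by omega⟩
      · intro y hy hyL
        have := hβ2 y hy hyL
        exact ⟨hyL, by omega⟩
    · refine ih (c := c - 1) (hd.mono (Finset.erase_subset _ _) le_rfl)
        (fun a ha b hb => hST a (Finset.mem_of_mem_erase ha) b hb)
        (Finset.mem_erase.2 ⟨fun hh => hvz hh.symm, hzS⟩) (by dsimp only; omega) ?_ ?_
      · intro y hy hyL
        have := hβ y (Finset.mem_of_mem_erase hy) hyL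
        exact ⟨this.1, by dsimp only; omega⟩
      · intro y hy hyL
        have := hβ2 y hy hyL
        omega
  | @split A B β1 hd' ha hA hB ih1 ih2 =>
    rw [Finset.disjoint_union_left] at hd
    rcases Finset.mem_union.1 hzS with hz | hz
    · have hzB : z ∉ B := Finset.disjoint_left.1 hd' hz
      have : A ∪ B ∪ T = (A ∪ T) ∪ B := by
        ext x; simp only [Finset.mem_union]; tauto
      rw [this]
      refine .split ?_ ?_ (ih1 hd.1 (fun a ha b hb => hST a (Finset.mem_union_left _ ha) b hb)
        hz hc (fun y hy => hβ y (Finset.mem_union_left _ hy)) hβ2)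
        (hB.mono fun y hy => hβ y (Finset.mem_union_right _ hy))
      · rw [Finset.disjoint_union_left]
        exact ⟨hd', hd.2.symm⟩
      · intro a ha' b hb hab
        rcases Finset.mem_union.1 ha' with h1 | h1
        · exact ha a h1 b hb hab
        · have := hST b (Finset.mem_union_right _ hb) a h1 hab.symm
          subst this
          exact hzB hb
    · have hzA : z ∉ A := fun hh => Finset.disjoint_left.1 hd' hh hz
      have : A ∪ B ∪ T = A ∪ (B ∪ T) := by
        ext x; simp only [Finset.mem_union]; tauto
      rw [this]
      refine .split ?_ ?_ (hA.mono fun y hy => hβ y (Finset.mem_union_left _ hy))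
        (ih2 hd.2 (fun a ha b hb => hST a (Finset.mem_union_right _ ha) b hb)
        hz hc (fun y hy => hβ y (Finset.mem_union_right _ hy)) hβ2)
      · rw [Finset.disjoint_union_right]
        exact ⟨hd', hd.1⟩
      · intro a ha' b hb hab
        rcases Finset.mem_union.1 hb with h1 | h1
        · exact ha a ha' b h1 hab
        · have := hST a (Finset.mem_union_left _ ha') b h1 hab
          subst this
          exact hzA ha'

/-- two-stage elimination: first `L0` in `D` rounds, then `L` according to `γ`. -/
lemma Elim.two_stage {L0 L A : Finset V} {γ β : V → ℕ} {D : ℕ}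
    (h : Elim G L0 A (fun _ => D))
    (hT : ∀ T ⊆ A, (∀ y ∈ T, y ∉ L0) → Elim G L T γ)
    (hβ : ∀ y ∈ A, y ∈ L → (y ∈ L0 → D ≤ β y) ∧ (y ∉ L0 → D + γ y ≤ β y)) :
    Elim G L A β := by
  generalize hδ : (fun _ => D : V → ℕ) = δ at h
  induction h generalizing β D with
  | @done S δ h =>
    refine (hT S (le_refl _) h).mono fun y hy hyL => ⟨hyL, ?_⟩
    have := (hβ y hy hyL).2 (h y hy)
    omega
  | @del S δ v hv h1 h2 ih =>
    subst hδ
    by_cases hex : ∃ y ∈ S, y ∈ L0
    · obtain ⟨y0, hy0, hy0L⟩ := hex
      have hD : 1 ≤ D := h1 y0 hy0 hy0L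
      refine .del hv (fun y hy hyL => ?_) (ih (D := D - 1) (fun T hTS => hT T
        (hTS.trans (Finset.erase_subset _ _))) ?_ rfl)
      · have := hβ y hy hyL
        by_cases hyL0 : y ∈ L0
        · have := this.1 hyL0; omega
        · have := this.2 hyL0; omega
      · intro y hy hyL
        have := hβ y (Finset.mem_of_mem_erase hy) hyL
        refine ⟨fun hh => ?_, fun hh => ?_⟩
        · have := this.1 hh; omega
        · have := this.2 hh; omega
    · push Not at hex
      refine (hT S (le_refl _) hex).mono fun y hy hyL => ⟨hyL, ?_⟩
      have := (hβ y hy hyL).2 (hex y hy)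
      omega
  | @split A B δ hd ha _ _ ih1 ih2 =>
    subst hδ
    exact .split hd ha (ih1 (fun T hTS => hT T (hTS.trans Finset.subset_union_left))
      (fun y hy => hβ y (Finset.mem_union_left _ hy)) rfl)
      (ih2 (fun T hTS => hT T (hTS.trans Finset.subset_union_right))
      (fun y hy => hβ y (Finset.mem_union_right _ hy)) rfl)

/-- the trading lemma -/
lemma Elim.trade {L0 L A R : Finset V} {x v : V} {γ β : V → ℕ} {D : ℕ}
    (h : Elim G L0 A (fun _ => D)) (hxA : x ∈ A) (hxL : x ∈ L0)
    (hadj : ∀ y ∈ A, y ∈ L0 → y = x ∨ G.Adj x y) (hvA : v ∉ A) (hvR : v ∉ R)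
    (hAR : Disjoint A R) (hanti : Anti G A R) (hR : ∀ y ∈ R, y ∉ L0)
    (hT : ∀ T ⊆ A ∪ R, x ∉ T → (∀ y ∈ T, y ∉ L0) → Elim G L T γ)
    (hβ : ∀ y ∈ insert v (A ∪ R), y ≠ x → y ∈ L → (y ∈ L0 ∨ y = v → D ≤ β y) ∧
      (y ∉ L0 → y ≠ v → D + γ y ≤ β y)) :
    Elim G L (insert v (A.erase x ∪ R)) β := by
  generalize hδ : (fun _ => D : V → ℕ) = δ at h
  induction h generalizing β D R with
  | @done S δ h => exact absurd hxL (h x hxA)
  | @del S δ u hu h1 h2 ih =>
    subst hδ
    have hD : 1 ≤ D := h1 x hxA hxL
    have hxR : x ∉ R := fun hh => Finset.disjoint_left.1 hAR hxA hh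
    have hvx : v ≠ x := by rintro rfl; exact hvA hxA
    have hge : ∀ y ∈ insert v (S.erase x ∪ R), y ∈ L → 1 ≤ β y := by
      intro y hy hyL
      have hyx : y ≠ x := by
        rintro rfl
        rcases Finset.mem_insert.1 hy with h3 | h3
        · exact hvx h3.symm
        · rcases Finset.mem_union.1 h3 with h4 | h4
          · simp at h4
          · exact hxR h4
      have hy' : y ∈ insert v (S ∪ R) := by
        simp only [Finset.mem_insert, Finset.mem_union, Finset.mem_erase] at hy ⊢
        tauto
      have := hβ y hy' hyx hyL
      by_cases h3 : y ∈ L0 ∨ y = v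
      · have := this.1 h3; omega
      · push Not at h3
        have := this.2 h3.1 h3.2; omega
    by_cases hux : u = x
    · subst hux
      refine .del (v := v) (Finset.mem_insert_self _ _) hge ?_
      have heq : (insert v (S.erase u ∪ R)).erase v = S.erase u ∪ R := by
        rw [Finset.erase_insert]
        simp only [Finset.mem_union, Finset.mem_erase]
        tauto
      rw [heq]
      refine .split (hAR.mono (Finset.erase_subset _ _) le_rfl)
        (hanti.mono (Finset.erase_subset _ _) le_rfl) ?_ ?_
      · refine Elim.two_stage (L0 := L0) (γ := γ) (D := D - 1) h2 ?_ ?_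
        · intro T hTS hTL
          refine hT T (hTS.trans ((Finset.erase_subset _ _).trans Finset.subset_union_left)) ?_ hTL
          intro hh
          have := hTS hh
          simp at this
        · intro y hy hyL
          rw [Finset.mem_erase] at hy
          have hyv : y ≠ v := by rintro rfl; exact hvA hy.2
          have := hβ y (by simp [hy.2]) hy.1 hyL
          refine ⟨fun hh => ?_, fun hh => ?_⟩
          · have := this.1 (Or.inl hh); omega
          · have := this.2 hh hyv; omega
      · refine (hT R Finset.subset_union_right hxR hR).mono ?_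
        intro y hy hyL
        have hyv : y ≠ v := by rintro rfl; exact hvR hy
        have hyx : y ≠ u := by rintro rfl; exact hxR hy
        have := (hβ y (by simp [hy]) hyx hyL).2 (hR y hy) hyv
        exact ⟨hyL, by omega⟩
    · have huv : u ≠ v := by rintro rfl; exact hvA hu
      have huR : u ∉ R := fun hh => Finset.disjoint_left.1 hAR hu hh
      refine .del (v := u) (by simp [hux, hu]) hge ?_
      have heq : (insert v (S.erase x ∪ R)).erase u = insert v ((S.erase u).erase x ∪ R) := by
        ext w
        simp only [Finset.mem_insert, Finset.mem_union, Finset.mem_erase]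
        constructor
        · rintro ⟨h3, h4⟩; tauto
        · rintro (h3 | ⟨h3, h4, h5⟩ | h3)
          · subst h3; exact ⟨huv.symm, Or.inl rfl⟩
          · exact ⟨h4, Or.inr (Or.inl ⟨h3, h5⟩)⟩
          · exact ⟨fun hh => huR (hh ▸ h3), Or.inr (Or.inr h3)⟩
      rw [heq]
      refine ih (D := D - 1) (Finset.mem_erase.2 ⟨fun hh => hux hh.symm, hxA⟩)
        (fun y hy => hadj y (Finset.mem_of_mem_erase hy))
        (fun hh => hvA (Finset.mem_of_mem_erase hh)) hvR
        (hAR.mono (Finset.erase_subset _ _) le_rfl)
        (hanti.mono (Finset.erase_subset _ _) le_rfl) hR ?_ ?_ rfl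
      · intro T hTS
        exact hT T (hTS.trans (Finset.union_subset_union (Finset.erase_subset _ _) le_rfl))
      · intro y hy hyx hyL
        have := hβ y (by
          simp only [Finset.mem_insert, Finset.mem_union, Finset.mem_erase] at hy ⊢
          tauto) hyx hyL
        refine ⟨fun hh => ?_, fun hh hh' => ?_⟩
        · have := this.1 hh; omega
        · have := this.2 hh hh'; omega
  | @split A B δ hd ha hA hB ih1 ih2 =>
    subst hδ
    have main : ∀ A B : Finset V, (∀ {R : Finset V} {β : V → ℕ} {D' : ℕ},
      x ∈ A → (∀ y ∈ A, y ∈ L0 → y = x ∨ G.Adj x y) → v ∉ A → v ∉ R → Disjoint A R →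
      Anti G A R → (∀ y ∈ R, y ∉ L0) →
      (∀ T ⊆ A ∪ R, x ∉ T → (∀ y ∈ T, y ∉ L0) → Elim G L T γ) →
      (∀ y ∈ insert v (A ∪ R), y ≠ x → y ∈ L → (y ∈ L0 ∨ y = v → D' ≤ β y) ∧
      (y ∉ L0 → y ≠ v → D' + γ y ≤ β y)) → (fun _ => D') = (fun _ => D : V → ℕ) →
      Elim G L (insert v (A.erase x ∪ R)) β) →
      Disjoint A B → Anti G A B → x ∈ A → x ∉ B → 
      (∀ y ∈ A ∪ B, y ∈ L0 → y = x ∨ G.Adj x y) → v ∉ A ∪ B → Disjoint (A ∪ B) R →
      Anti G (A ∪ B) R →
      (∀ T ⊆ A ∪ B ∪ R, x ∉ T → (∀ y ∈ T, y ∉ L0) → Elim G L T γ) →
      (∀ y ∈ insert v (A ∪ B ∪ R), y ≠ x → y ∈ L → (y ∈ L0 ∨ y = v → D ≤ β y) ∧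
      (y ∉ L0 → y ≠ v → D + γ y ≤ β y)) →
      Elim G L (insert v ((A ∪ B).erase x ∪ R)) β := by
      intro A B ih hd ha hxA hxB hadj hvA hAR hanti hT hβ
      rw [Finset.disjoint_union_left] at hAR
      have heq : insert v ((A ∪ B).erase x ∪ R) = insert v (A.erase x ∪ (B ∪ R)) := by
        ext w
        simp only [Finset.mem_insert, Finset.mem_union, Finset.mem_erase]
        constructor
        · tauto
        · rintro (h3 | h3 | h3 | h3)
          · tauto
          · tauto
          · exact Or.inr (Or.inl ⟨fun hh => hxB (hh ▸ h3), Or.inr h3⟩)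
          · tauto
      rw [heq]
      refine ih (D' := D) hxA (fun y hy => hadj y (Finset.mem_union_left _ hy))
        (fun hh => hvA (Finset.mem_union_left _ hh)) ?_ ?_ ?_ ?_ ?_ ?_ rfl
      · intro hh
        rcases Finset.mem_union.1 hh with h3 | h3
        · exact hvA (Finset.mem_union_right _ h3)
        · exact hvR h3
      · rw [Finset.disjoint_union_right]; exact ⟨hd, hAR.1⟩
      · intro a ha' b hb hab
        rcases Finset.mem_union.1 hb with h3 | h3
        · exact ha a ha' b h3 hab
        · exact hanti a (Finset.mem_union_left _ ha') b h3 hab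
      · intro y hy
        rcases Finset.mem_union.1 hy with h3 | h3
        · intro hyL
          rcases hadj y (Finset.mem_union_right _ h3) hyL with h4 | h4
          · subst h4; exact hxB h3
          · exact ha x hxA y h3 h4
        · exact hR y h3
      · intro T hTS
        exact hT T (by rw [Finset.union_assoc]; exact hTS)
      · intro y hy
        exact hβ y (by rw [Finset.union_assoc]; exact hy)
    rcases Finset.mem_union.1 hxA with hx | hx
    · exact main A B (fun {R β D'} a b c d e f g h i j => ih1 a b c d e f g h i j) hd ha hx
        (Finset.disjoint_left.1 hd hx) hadj hvA hAR hanti hT hβ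
    · have hc : A ∪ B = B ∪ A := Finset.union_comm _ _
      rw [hc] at hadj hvA hAR hanti hT hβ ⊢
      exact main B A (fun {R β D'} a b c d e f g h i j => ih2 a b c d e f g h i j) hd.symm ha.symm
        hx (fun hh => Finset.disjoint_left.1 hd hh hx) hadj hvA hAR hanti hT hβ

/-- an elimination of everything bounds the treedepth -/
lemma Elim.td_le {L S : Finset V} {D : ℕ} (h : Elim G L S (fun _ => D)) (hS : S ⊆ L) :
    td G S ≤ D := by
  generalize hδ : (fun _ => D : V → ℕ) = δ at h
  induction h generalizing D with
  | @done S δ h =>
    have : S = ∅ := by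
      rw [Finset.eq_empty_iff_forall_notMem]
      exact fun y hy => h y hy (hS hy)
    subst this
    rw [td_empty]; omega
  | @del S δ v hv h1 h2 ih =>
    subst hδ
    have := ih (D := D - 1) ((Finset.erase_subset _ _).trans hS) rfl
    have h3 := td_le_erase (G := G) hv
    have h4 : 1 ≤ D := h1 v hv (hS hv)
    omega
  | @split A B δ hd ha _ _ ih1 ih2 =>
    exact td_union_le hd ha (ih1 (Finset.subset_union_left.trans hS) hδ)
      (ih2 (Finset.subset_union_right.trans hS) hδ)

end Elim

section Main
variable {V : Type*} {G : SimpleGraph V}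

/-- the bound `C(m+k-1,m)`, and `0` for `k = 0`. -/
def Dn : ℕ → ℕ → ℕ
  | _, 0 => 0
  | m, k + 1 => Nat.choose (m + k) m

lemma Dn_succ (m k : ℕ) : Dn (m + 1) (k + 1) = Dn (m + 1) k + Dn m (k + 1) := by
  cases k with
  | zero => simp [Dn]
  | succ k =>
    simp only [Dn]
    have h1 : m + 1 + (k + 1) = (m + k + 1) + 1 := by ring
    rw [h1, Nat.choose_succ_succ]
    have h2 : m + 1 + k = m + k + 1 := by ring
    have h3 : m + (k + 1) = m + k + 1 := by ring
    rw [h2, h3]
    ring

lemma Dn_zero (k : ℕ) : Dn 0 (k + 1) = 1 := by simp [Dn]

lemma Dn_pos (m k : ℕ) : 1 ≤ Dn m (k + 1) := by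
  simp only [Dn]
  exact Nat.choose_pos (by omega)

lemma Dn_mono {m m' : ℕ} (h : m ≤ m') (k : ℕ) : Dn m (k + 1) ≤ Dn m' (k + 1) := by
  induction h with
  | refl => exact le_rfl
  | step h ih =>
    rw [Nat.succ_eq_add_one, Dn_succ]
    omega

/-- all induced `L`-`L` paths in `G[S]` are short, with labels counted -/
def Star (G : SimpleGraph V) (S L : Finset V) (i : V → ℕ) (m : ℕ) : Prop :=
  ∀ y ∈ S, y ∈ L → ∀ y' ∈ S, y' ∈ L → ∀ l, IP G S y y' l → l.length + i y + i y' ≤ 2 * m + 1

lemma Star.mono {S S' L L' : Finset V} {i : V → ℕ} {m : ℕ} (h : Star G S L i m) (hS : S' ⊆ S)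
    (hL : L' ⊆ L) : Star G S' L' i m :=
  fun y hy hyL y' hy' hyL' l hl => h y (hS hy) (hL hyL) y' (hS hy') (hL hyL') l (hl.mono hS)

/-- all induced paths from `x` to `L` in `G[S]` are short, with labels counted -/
def Root (G : SimpleGraph V) (S : Finset V) (x : V) (B L : Finset V) (i : V → ℕ) (j : ℕ) : Prop :=
  ∀ y ∈ B, y ∈ L → ∀ l, IP G S x y l → l.length + i y ≤ j + 1

lemma star_side {A B L : Finset V} {z y0 : V} {i : V → ℕ} {m j : ℕ} {l0 : List V}
    (hdis : Disjoint A B) (hanti : Anti G A B) (hzA : z ∉ A) (hzB : z ∉ B)
    (h : Star G (insert z (A ∪ B)) L i m) (hy0 : y0 ∈ B) (hy0L : y0 ∈ L)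
    (hl0 : IP G (insert z B) z y0 l0) (hlen : l0.length + i y0 = j + 1) (hj : j ≤ m) :
    Star G (insert z A) (insert z L) (Function.update i z (max (if z ∈ L then i z else 0) j)) m := by
  have hsubA : insert z A ⊆ insert z (A ∪ B) :=
    Finset.insert_subset_insert _ Finset.subset_union_left
  have hzS : z ∈ insert z (A ∪ B) := by simp
  have hy0S : y0 ∈ insert z (A ∪ B) := by simp [hy0]
  obtain ⟨l0', rfl⟩ := hl0.head
  -- paths ending at z
  have key : ∀ y ∈ insert z A, y ∈ L → y ≠ z → ∀ l, IP G (insert z A) y z l →
      l.length + i y + (max (if z ∈ L then i z else 0) j) ≤ 2 * m + 1 := by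
    intro y hy hyL hyz l hl
    have happ := hl.append hdis hanti hzA hzB hl0
    have h1 := h y (hsubA hy) hyL y0 hy0S hy0L _ happ
    rw [List.length_append] at h1
    rw [List.length_cons] at hlen
    have h2 : l.length + i y + (if z ∈ L then i z else 0) ≤ 2 * m + 1 := by
      split_ifs with hzL
      · exact h y (hsubA hy) hyL z hzS hzL l (hl.mono hsubA)
      · omega
    omega
  intro y hy hyL y' hy' hyL' l hl
  by_cases hyz : y = z
  · by_cases hyz' : y' = z
    · subst hyz
      subst hyz'
      rw [Function.update_self, hl.self rfl]
      have : (if y' ∈ L then i y' else 0) ≤ m := by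
        split_ifs with hzL
        · have := h y' hzS hzL y' hzS hzL [y'] (.single hzS)
          simp at this
          omega
        · omega
      omega
    · subst hyz
      rw [Function.update_self, Function.update_of_ne hyz']
      have hyL2 : y' ∈ L := by
        rcases Finset.mem_insert.1 hyL' with h1 | h1
        · exact absurd h1 hyz'
        · exact h1
      have := key y' hy' hyL2 hyz' _ hl.reverse
      rw [List.length_reverse] at this
      omega
  · have hyL1 : y ∈ L := by
      rcases Finset.mem_insert.1 hyL with h1 | h1
      · exact absurd h1 hyz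
      · exact h1
    by_cases hyz' : y' = z
    · subst hyz'
      rw [Function.update_self, Function.update_of_ne hyz]
      exact key y hy hyL1 hyz l hl
    · rw [Function.update_of_ne hyz, Function.update_of_ne hyz']
      have hyL2 : y' ∈ L := by
        rcases Finset.mem_insert.1 hyL' with h1 | h1
        · exact absurd h1 hyz'
        · exact h1
      exact h y (hsubA hy) hyL1 y' (hsubA hy') hyL2 l (hl.mono hsubA)

/-- minimal root bound -/
lemma exists_root_bound {S B L : Finset V} {z : V} {i : V → ℕ} {q : ℕ}
    (h : Root G S z B L i q) (hS : Conn G S) (hz : z ∈ S) (hzB : z ∉ B) (hBS : B ⊆ S)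
    (hlab : ∃ y ∈ B, y ∈ L) :
    ∃ j ≤ q, Root G S z B L i j ∧ ∃ y0 ∈ B, y0 ∈ L ∧ ∃ l0, IP G S z y0 l0 ∧
      l0.length + i y0 = j + 1 := by
  have hex : ∃ q, Root G S z B L i q := ⟨q, h⟩
  refine ⟨Nat.find hex, Nat.find_min' hex h, Nat.find_spec hex, ?_⟩
  set j := Nat.find hex with hj
  have hjs : Root G S z B L i j := Nat.find_spec hex
  have hj1 : 1 ≤ j := by
    obtain ⟨y, hy, hyL⟩ := hlab
    obtain ⟨l, hl⟩ := exists_IP hS hz (hBS hy)
    have h1 := hl.two_le (by rintro rfl; exact hzB hy)
    have h2 := hjs y hy hyL l hl
    omega
  have hnot : ¬ Root G S z B L i (j - 1) := Nat.find_min hex (by omega)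
  unfold Root at hnot
  push Not at hnot
  obtain ⟨y, hy, hyL, l, hl, hlt⟩ := hnot
  have := hjs y hy hyL l hl
  exact ⟨y, hy, hyL, l, hl, by omega⟩

/-- a non-nonseparable connected set has a 1-separation -/
lemma exists_sep {S : Finset V} (hne : S.Nonempty) (hS : Conn G S) (hns : ¬ IsNonsep G S) :
    ∃ (z : V) (A B : Finset V), z ∈ S ∧ A.Nonempty ∧ B.Nonempty ∧ Disjoint A B ∧ Anti G A B ∧
      z ∉ A ∧ z ∉ B ∧ S = insert z (A ∪ B) := by
  rw [nonsep_iff] at hns
  push Not at hns
  obtain ⟨z, hz, hnc⟩ := hns hne hS
  unfold Conn at hnc
  push Not at hnc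
  obtain ⟨A, B, hAB, hd, ha, hA, hB⟩ := hnc
  have hz' : z ∉ A ∪ B := by rw [hAB]; simp
  rw [Finset.mem_union, not_or] at hz'
  exact ⟨z, A, B, hz, hA, hB, hd, ha,
    hz'.1, hz'.2, by rw [hAB, Finset.insert_erase hz]⟩

lemma conn_sides {A B : Finset V} {z : V} (hS : Conn G (insert z (A ∪ B)))
    (hd : Disjoint A B) (ha : Anti G A B) (hzA : z ∉ A) (hzB : z ∉ B) :
    Conn G (insert z A) ∧ Conn G (insert z B) := by
  have h1 : (insert z (A ∪ B)).erase z = A ∪ B := by
    rw [Finset.erase_insert]; simp [hzA, hzB]
  exact ⟨conn_insert_side hS (by simp) h1.symm hd ha,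
    conn_insert_side hS (by simp) (by rw [h1, Finset.union_comm]) hd.symm ha.symm⟩

/-- The rooted statement. -/
def RStat (G : SimpleGraph V) (k : ℕ) : Prop :=
  ∀ (S : Finset V) (m j : ℕ) (L : Finset V) (i : V → ℕ) (x : V), td2 G S ≤ k + 1 → Conn G S →
    x ∈ S → x ∉ L → j ≤ m → Star G S L i m → Root G S x S L i j →
    Elim G L (S.erase x) (fun y => Dn (m - i y) (k + 1) - Dn (m - j) (k + 1))

/-- The unrooted statement. -/
def UStat (G : SimpleGraph V) (k : ℕ) : Prop :=
  ∀ (S : Finset V) (m : ℕ) (L : Finset V) (i : V → ℕ), td2 G S ≤ k → Star G S L i m →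
    Elim G L S (fun y => Dn (m - i y) k)

lemma uStat_zero : UStat G 0 := by
  intro S m L i hS _
  by_cases hS0 : S = ∅
  · subst hS0; exact .done (by simp)
  exfalso
  have : ∃ v, v ∈ S := by
    obtain ⟨v, hv⟩ := Finset.nonempty_iff_ne_empty.2 hS0; exact ⟨v, hv⟩
  obtain ⟨v, hv⟩ := this
  have h1 : td2 G {v} ≤ td2 G S := td2_mono' (by simpa using hv)
  obtain ⟨w, hw, hh⟩ := td2_nonsep_attained (nonsep_singleton (G := G) v)
  omega

lemma rStat_step {k : ℕ} (hU : UStat G k) : RStat G k := by
  suffices H : ∀ (n : ℕ) (S : Finset V), S.card ≤ n → ∀ (m j : ℕ) (L : Finset V) (i : V → ℕ)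
    (x : V), td2 G S ≤ k + 1 → Conn G S →
    x ∈ S → x ∉ L → j ≤ m → Star G S L i m → Root G S x S L i j →
    Elim G L (S.erase x) (fun y => Dn (m - i y) (k + 1) - Dn (m - j) (k + 1)) from
    fun S => H _ S le_rfl
  intro n
  induction n with
  | zero =>
    intro S hS m j L i x _ _ hx
    have : S = ∅ := Finset.card_eq_zero.1 (by omega)
    subst this
    simp at hx
  | succ n ih =>
    intro S hcard m j L i x htd hconn hx hxL hjm hstar hroot
    -- labels in S are smaller than j
    have hlab : ∀ y ∈ S, y ∈ L → i y + 1 ≤ j := by
      intro y hy hyL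
      obtain ⟨l, hl⟩ := exists_IP hconn hx hy
      have h1 := hl.two_le (by rintro rfl; exact hxL hyL)
      have h2 := hroot y hy hyL l hl
      omega
    by_cases hns : IsNonsep G S
    · obtain ⟨v, hv, hveq⟩ := td2_nonsep_attained hns
      have htdv : td2 G (S.erase v) ≤ k := by omega
      by_cases hvx : v = x
      · subst hvx
        refine (hU (S.erase v) m L i htdv (hstar.mono (Finset.erase_subset _ _)
          (Finset.Subset.refl _))).mono ?_
        intro y hy hyL
        refine ⟨hyL, ?_⟩
        have h1 := hlab y (Finset.mem_of_mem_erase hy) hyL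
        obtain ⟨a, ha⟩ : ∃ a, m - i y = a + 1 := ⟨m - i y - 1, by omega⟩
        rw [ha, Dn_succ]
        have := Dn_mono (m := m - j) (m' := a) (by omega) k
        omega
      · -- the trade
        by_cases hj0 : j = 0
        · refine .done fun y hy hyL => ?_
          have := hlab y (Finset.mem_of_mem_erase hy) hyL
          omega
        set Y : Finset V := (S.filter fun y => y ∈ L ∧ i y + 1 = j) with hY
        set L0 : Finset V := insert x Y with hL0
        have hxe : x ∈ S.erase v := Finset.mem_erase.2 ⟨fun hh => hvx hh.symm, hx⟩
        have hadjY : ∀ y ∈ Y, y ≠ x ∧ G.Adj x y := by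
          intro y hy
          rw [hY, Finset.mem_filter] at hy
          have hyx : y ≠ x := by rintro rfl; exact hxL hy.2.1
          refine ⟨hyx, ?_⟩
          obtain ⟨l, hl⟩ := exists_IP hconn hx hy.1
          have := hroot y hy.1 hy.2.1 l hl
          exact hl.adj_of_le_two hyx.symm (by omega)
        -- stage one
        have hstage : Elim G L0 (S.erase v) (fun _ => Dn (m - j + 1) k) := by
          have := hU (S.erase v) (m - j + 1) L0 (fun _ => 0) htdv ?_
          · simpa using this
          · intro y hy hyL y' hy' hyL' l hl
            show l.length + 0 + 0 ≤ _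
            have hl' := hl.mono (Finset.erase_subset _ _)
            rw [hL0] at hyL hyL'
            rcases Finset.mem_insert.1 hyL with h1 | h1
            · subst h1
              rcases Finset.mem_insert.1 hyL' with h2 | h2
              · subst h2
                rw [hl.self rfl]
                omega
              · rw [hY, Finset.mem_filter] at h2
                have := hroot y' h2.1 h2.2.1 l hl'
                omega
            · rcases Finset.mem_insert.1 hyL' with h2 | h2
              · subst h2
                rw [hY, Finset.mem_filter] at h1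
                have := hroot y h1.1 h1.2.1 _ hl'.reverse
                rw [List.length_reverse] at this
                omega
              · rw [hY, Finset.mem_filter] at h1 h2
                have := hstar y h1.1 h1.2.1 y' h2.1 h2.2.1 l hl'
                omega
        have htr := Elim.trade (L := L) (R := ∅) (v := v)
          (γ := fun y => Dn (m - i y) k)
          (β := fun y => Dn (m - i y) (k + 1) - Dn (m - j) (k + 1)) hstage hxe
          (by rw [hL0]; simp) ?_ (by simp) (by simp) (by simp) ?_ (by simp) ?_ ?_
        · have heq : insert v ((S.erase v).erase x ∪ ∅) = S.erase x := by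
            ext w
            simp only [Finset.union_empty, Finset.mem_insert, Finset.mem_erase]
            constructor
            · rintro (h1 | h1)
              · subst h1; exact ⟨hvx, hv⟩
              · exact ⟨h1.1, h1.2.2⟩
            · rintro ⟨h1, h2⟩
              by_cases hwv : w = v
              · left; exact hwv
              · right; exact ⟨h1, hwv, h2⟩
          rw [heq] at htr
          exact htr
        · intro y _ hyL
          rw [hL0] at hyL
          rcases Finset.mem_insert.1 hyL with h1 | h1
          · left; exact h1
          · right; exact (hadjY y h1).2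
        · intro a _ b hb
          simp at hb
        · intro T hTS _ _
          refine hU T m L i ?_ ?_
          · refine (td2_mono' (S := S.erase v) ?_).trans htdv
            simpa using hTS
          · refine hstar.mono ?_ (Finset.Subset.refl _)
            refine Finset.Subset.trans ?_ (Finset.erase_subset v S)
            simpa using hTS
        · intro y hy hyx hyL
          have hyS : y ∈ S := by
            simp only [Finset.union_empty, Finset.mem_insert, Finset.mem_erase] at hy
            rcases hy with h1 | h1
            · subst h1; exact hv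
            · exact h1.2
          have h1 := hlab y hyS hyL
          have hbig : Dn (m - j + 1) k ≤ Dn (m - i y) (k + 1) - Dn (m - j) (k + 1) := by
            have h2 := Dn_mono (m := m - j + 1) (m' := m - i y) (by omega) k
            have h3 := Dn_succ (m - j) k
            omega
          refine ⟨fun _ => hbig, fun hyL0 hyv => ?_⟩
          have hne : i y + 1 ≠ j := by
            intro hh
            apply hyL0
            rw [hL0, hY, Finset.mem_insert, Finset.mem_filter]
            right
            exact ⟨hyS, hyL, hh⟩
          obtain ⟨a, ha⟩ : ∃ a, m - i y = a + 1 := ⟨m - i y - 1, by omega⟩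
          rw [ha, Dn_succ]
          have h2 := Dn_mono (m := m - j + 1) (m' := a) (by omega) k
          have h3 := Dn_succ (m - j) k
          omega
    · obtain ⟨z, A, B, hz, hA, hB, hd, ha, hzA, hzB, rfl⟩ := exists_sep ⟨x, hx⟩ hconn hns
      have hcA : (insert z A).card ≤ n := by
        have h1 : (insert z (A ∪ B)).card = A.card + B.card + 1 := by
          rw [Finset.card_insert_of_notMem (by simp [hzA, hzB]), Finset.card_union_of_disjoint hd]
        have h2 := Finset.card_insert_of_notMem hzA
        have h3 := Finset.card_pos.2 hB
        omega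
      have hcB : (insert z B).card ≤ n := by
        have h1 : (insert z (A ∪ B)).card = A.card + B.card + 1 := by
          rw [Finset.card_insert_of_notMem (by simp [hzA, hzB]), Finset.card_union_of_disjoint hd]
        have h2 := Finset.card_insert_of_notMem hzB
        have h3 := Finset.card_pos.2 hA
        omega
      obtain ⟨hconA, hconB⟩ := conn_sides hconn hd ha hzA hzB
      have hsubA : insert z A ⊆ insert z (A ∪ B) :=
        Finset.insert_subset_insert _ Finset.subset_union_left
      have hsubB : insert z B ⊆ insert z (A ∪ B) :=
        Finset.insert_subset_insert _ Finset.subset_union_right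
      by_cases hxz : x = z
      · subst hxz
        have h1 := ih (insert x A) hcA m j L i x ((td2_mono' hsubA).trans htd) hconA (by simp) hxL
          hjm (hstar.mono hsubA (Finset.Subset.refl _))
          (fun y hy hyL l hl => hroot y (hsubA hy) hyL l (hl.mono hsubA))
        have h2 := ih (insert x B) hcB m j L i x ((td2_mono' hsubB).trans htd) hconB (by simp) hxL
          hjm (hstar.mono hsubB (Finset.Subset.refl _))
          (fun y hy hyL l hl => hroot y (hsubB hy) hyL l (hl.mono hsubB))
        rw [Finset.erase_insert hzA] at h1
        rw [Finset.erase_insert hzB] at h2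
        have : (insert x (A ∪ B)).erase x = A ∪ B := by
          rw [Finset.erase_insert]; simp [hzA, hzB]
        rw [this]
        exact .split hd ha h1 h2
      · -- symmetric step
        have step : ∀ A B : Finset V, A.Nonempty → B.Nonempty → Disjoint A B → Anti G A B →
            z ∉ A → z ∉ B → (insert z A).card ≤ n → (insert z B).card ≤ n →
            Conn G (insert z A) → Conn G (insert z B) → td2 G (insert z (A ∪ B)) ≤ k + 1 →
            Star G (insert z (A ∪ B)) L i m →
            Root G (insert z (A ∪ B)) x (insert z (A ∪ B)) L i j → x ∈ A →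
            Elim G L ((insert z (A ∪ B)).erase x)
              (fun y => Dn (m - i y) (k + 1) - Dn (m - j) (k + 1)) := by
          clear hz hA hB hd ha hzA hzB hcA hcB hconA hconB hsubA hsubB hstar hroot htd hconn hx
            hlab hns hcard
          intro A B hA hB hd ha hzA hzB hcA hcB hconA hconB htd hstar hroot hxA
          have hsubA : insert z A ⊆ insert z (A ∪ B) :=
            Finset.insert_subset_insert _ Finset.subset_union_left
          have hsubB : insert z B ⊆ insert z (A ∪ B) :=
            Finset.insert_subset_insert _ Finset.subset_union_right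
          have hxB : x ∉ B := Finset.disjoint_left.1 hd hxA
          have heq : (insert z (A ∪ B)).erase x = (insert z A).erase x ∪ B := by
            ext w
            simp only [Finset.mem_insert, Finset.mem_union, Finset.mem_erase]
            constructor
            · tauto
            · rintro (h3 | h3)
              · tauto
              · exact ⟨fun hh => hxB (hh ▸ h3), by tauto⟩
          have hdisE : Disjoint ((insert z A).erase x) B := by
            refine Finset.disjoint_left.2 fun w hw hwB => ?_
            rw [Finset.mem_erase, Finset.mem_insert] at hw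
            rcases hw.2 with h1 | h1
            · subst h1; exact hzB hwB
            · exact Finset.disjoint_left.1 hd h1 hwB
          have hedge : ∀ a ∈ (insert z A).erase x, ∀ b ∈ B, G.Adj a b → a = z := by
            intro a ha' b hb hab
            rw [Finset.mem_erase, Finset.mem_insert] at ha'
            rcases ha'.2 with h1 | h1
            · exact h1
            · exact absurd hab (ha a h1 b hb)
          rw [heq]
          by_cases hlabB : ∃ y ∈ B, y ∈ L
          · -- a path from x to z
            obtain ⟨p, hp⟩ := exists_IP hconA (Finset.mem_insert_of_mem hxA)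
              (Finset.mem_insert_self z A)
            have hp2 := hp.two_le hxz
            have hrootB : Root G (insert z B) z B L i j := by
              intro y hy hyL l hl
              obtain ⟨l', rfl⟩ := hl.head
              have happ := hp.append hd ha hzA hzB hl
              have := hroot y (by simp [hy]) hyL _ happ
              rw [List.length_append] at this
              rw [List.length_cons]
              omega
            obtain ⟨j2, hj2, hroot2, y0, hy0, hy0L, l0, hl0, hlen⟩ := exists_root_bound hrootB
              hconB (by simp) hzB (Finset.subset_insert _ _) hlabB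
            have hj2m : j2 ≤ m := hj2.trans hjm
            have hstarA := star_side hd ha hzA hzB hstar hy0 hy0L hl0 hlen hj2m
            set i' := Function.update i z (max (if z ∈ L then i z else 0) j2) with hi'
            have hEA := ih (insert z A) hcA m j (insert z L) i' x ((td2_mono' hsubA).trans htd)
              hconA (by simp [hxA]) (by simp [hxz, hxL]) hjm hstarA ?_
            · have hEB := ih (insert z B) hcB m j2 (L.erase z) i z ((td2_mono' hsubB).trans htd)
                hconB (by simp) (by simp) hj2m (hstar.mono hsubB (Finset.erase_subset _ _)) ?_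
              · rw [Finset.erase_insert hzB] at hEB
                refine hEA.attach (L := L) (z := z)
                  (c := Dn (m - j2) (k + 1) - Dn (m - j) (k + 1)) hdisE hedge
                  (by simp [Ne.symm hxz]) (by simp) ?_ (hEB.mono (L' := L)
                    (β' := (fun y => Dn (m - i y) (k + 1) - Dn (m - j2) (k + 1)))
                    fun y hy hyL => ⟨Finset.mem_erase.2
                    ⟨by rintro rfl; exact hzB hy, hyL⟩, le_rfl⟩) ?_ ?_
                · have : j2 ≤ i' z := by rw [hi', Function.update_self]; exact le_max_right _ _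
                  have := Dn_mono (m := m - i' z) (m' := m - j2) (by omega) k
                  omega
                · intro y hy hyL
                  refine ⟨by simp [hyL], ?_⟩
                  have : i y ≤ i' y := by
                    by_cases hyz : y = z
                    · subst hyz
                      rw [hi', Function.update_self, if_pos hyL]
                      exact le_max_left _ _
                    · rw [hi', Function.update_of_ne hyz]
                  have := Dn_mono (m := m - i' y) (m' := m - i y) (by omega) k
                  omega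
                · intro y hy hyL
                  have hiy : i y ≤ j2 := by
                    obtain ⟨l, hl⟩ := exists_IP hconB (Finset.mem_insert_self z B)
                      (Finset.mem_insert_of_mem hy)
                    have h1 := hl.one_le
                    have h2 := hroot2 y hy hyL l hl
                    omega
                  have h1 := Dn_mono (m := m - j2) (m' := m - i y) (by omega) k
                  have h2 := Dn_mono (m := m - j) (m' := m - j2) (by omega) k
                  omega
              · intro y hy hyL l hl
                rw [Finset.mem_erase] at hyL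
                rcases Finset.mem_insert.1 hy with h1 | h1
                · exact absurd h1 hyL.1
                · exact hroot2 y h1 hyL.2 l hl
            · intro y hy hyL l hl
              by_cases hyz : y = z
              · subst hyz
                rw [hi', Function.update_self]
                obtain ⟨l0', rfl⟩ := hl0.head
                have happ := hl.append hd ha hzA hzB hl0
                have h1 := hroot y0 (by simp [hy0]) hy0L _ happ
                rw [List.length_append] at h1
                rw [List.length_cons] at hlen
                have h2 : l.length + (if y ∈ L then i y else 0) ≤ j + 1 := by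
                  split_ifs with hzL
                  · exact hroot y (by simp) hzL l (hl.mono hsubA)
                  · omega
                omega
              · rw [hi', Function.update_of_ne hyz]
                have hyL' : y ∈ L := by
                  rcases Finset.mem_insert.1 hyL with h1 | h1
                  · exact absurd h1 hyz
                  · exact h1
                exact hroot y (hsubA hy) hyL' l (hl.mono hsubA)
          · push Not at hlabB
            refine Elim.attach_unlabelled (z := z) ?_ hdisE hedge hlabB
            exact ih (insert z A) hcA m j L i x ((td2_mono' hsubA).trans htd) hconA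
              (by simp [hxA]) hxL hjm (hstar.mono hsubA (Finset.Subset.refl _))
              (fun y hy hyL l hl => hroot y (hsubA hy) hyL l (hl.mono hsubA))
        have hx' : x ∈ A ∪ B := by
          rcases Finset.mem_insert.1 hx with h1 | h1
          · exact absurd h1 hxz
          · exact h1
        rcases Finset.mem_union.1 hx' with h1 | h1
        · exact step A B hA hB hd ha hzA hzB hcA hcB hconA hconB htd hstar hroot h1
        · have hc : A ∪ B = B ∪ A := Finset.union_comm _ _
          rw [hc] at htd hstar hroot ⊢
          exact step B A hB hA hd.symm ha.symm hzB hzA hcB hcA hconB hconA htd hstar hroot h1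

lemma uStat_step {k : ℕ} (hU : UStat G k) (hR : RStat G k) : UStat G (k + 1) := by
  suffices H : ∀ (n : ℕ) (S : Finset V), S.card ≤ n → ∀ (m : ℕ) (L : Finset V) (i : V → ℕ),
    td2 G S ≤ k + 1 → Star G S L i m → Elim G L S (fun y => Dn (m - i y) (k + 1)) from
    fun S => H _ S le_rfl
  intro n
  induction n with
  | zero =>
    intro S hS m L i _ _
    have : S = ∅ := Finset.card_eq_zero.1 (by omega)
    subst this
    exact .done (by simp)
  | succ n ih =>
    intro S hcard m L i htd hstar
    by_cases hS0 : S = ∅
    · subst hS0; exact .done (by simp)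
    have hlab : ∀ y ∈ S, y ∈ L → i y ≤ m := by
      intro y hy hyL
      have := hstar y hy hyL y hy hyL [y] (.single hy)
      simp at this
      omega
    by_cases hconn : Conn G S
    · by_cases hmax : ∃ x ∈ S, x ∈ L ∧ i x = m
      · obtain ⟨x, hx, hxL, hix⟩ := hmax
        refine .del hx (fun y _ _ => Dn_pos _ _) ?_
        have hE := hR S m m (L.erase x) i x htd hconn hx (by simp) le_rfl
          (hstar.mono (Finset.Subset.refl _) (Finset.erase_subset _ _)) ?_
        · refine hE.mono fun y hy hyL => ⟨Finset.mem_erase.2 ⟨(Finset.mem_erase.1 hy).1, hyL⟩, ?_⟩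
          rw [Nat.sub_self, Dn_zero]
        · intro y hy hyL l hl
          rw [Finset.mem_erase] at hyL
          have := hstar x hx hxL y hy hyL.2 l hl
          omega
      · push Not at hmax
        by_cases hns : IsNonsep G S
        · obtain ⟨v, hv, hveq⟩ := td2_nonsep_attained hns
          refine .del hv (fun y _ _ => Dn_pos _ _) ?_
          refine (hU (S.erase v) m L i (by omega) (hstar.mono (Finset.erase_subset _ _)
            (Finset.Subset.refl _))).mono fun y hy hyL => ⟨hyL, ?_⟩
          have h1 := hlab y (Finset.mem_of_mem_erase hy) hyL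
          have h2 := hmax y (Finset.mem_of_mem_erase hy) hyL
          obtain ⟨a, ha⟩ : ∃ a, m - i y = a + 1 := ⟨m - i y - 1, by omega⟩
          rw [ha, Dn_succ]
          have := Dn_pos a k
          omega
        · obtain ⟨z, A, B, hz, hA, hB, hd, ha, hzA, hzB, rfl⟩ :=
            exists_sep (Finset.nonempty_iff_ne_empty.2 hS0) hconn hns
          have hcA : (insert z A).card ≤ n := by
            have h1 : (insert z (A ∪ B)).card = A.card + B.card + 1 := by
              rw [Finset.card_insert_of_notMem (by simp [hzA, hzB]),
                Finset.card_union_of_disjoint hd]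
            have h2 := Finset.card_insert_of_notMem hzA
            have h3 := Finset.card_pos.2 hB
            omega
          have hcB : (insert z B).card ≤ n := by
            have h1 : (insert z (A ∪ B)).card = A.card + B.card + 1 := by
              rw [Finset.card_insert_of_notMem (by simp [hzA, hzB]),
                Finset.card_union_of_disjoint hd]
            have h2 := Finset.card_insert_of_notMem hzB
            have h3 := Finset.card_pos.2 hA
            omega
          obtain ⟨hconA, hconB⟩ := conn_sides hconn hd ha hzA hzB
          have step : ∀ A B : Finset V, Disjoint A B → Anti G A B →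
              z ∉ A → z ∉ B → (insert z A).card ≤ n →
              Conn G (insert z B) → td2 G (insert z (A ∪ B)) ≤ k + 1 →
              Star G (insert z (A ∪ B)) L i m →
              Root G (insert z B) z B L i m →
              Elim G L (insert z (A ∪ B)) (fun y => Dn (m - i y) (k + 1)) := by
            clear hz hA hB hd ha hzA hzB hcA hcB hconA hconB hstar htd hconn
              hlab hns hcard hS0 hmax
            intro A B hd ha hzA hzB hcA hconB htd hstar hrootB
            have hsubA : insert z A ⊆ insert z (A ∪ B) :=
              Finset.insert_subset_insert _ Finset.subset_union_left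
            have hsubB : insert z B ⊆ insert z (A ∪ B) :=
              Finset.insert_subset_insert _ Finset.subset_union_right
            have heq : insert z (A ∪ B) = insert z A ∪ B := by
              rw [Finset.insert_union]
            have hdisE : Disjoint (insert z A) B := by
              rw [Finset.disjoint_insert_left]
              exact ⟨hzB, hd⟩
            have hedge : ∀ a ∈ insert z A, ∀ b ∈ B, G.Adj a b → a = z := by
              intro a ha' b hb hab
              rcases Finset.mem_insert.1 ha' with h1 | h1
              · exact h1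
              · exact absurd hab (ha a h1 b hb)
            by_cases hlabB : ∃ y ∈ B, y ∈ L
            · obtain ⟨j2, hj2m, hroot2, y0, hy0, hy0L, l0, hl0, hlen⟩ := exists_root_bound hrootB
                hconB (by simp) hzB (Finset.subset_insert _ _) hlabB
              have hstarA := star_side hd ha hzA hzB hstar hy0 hy0L hl0 hlen hj2m
              set i' := Function.update i z (max (if z ∈ L then i z else 0) j2) with hi'
              have hEA := ih (insert z A) hcA m (insert z L) i' ((td2_mono' hsubA).trans htd)
                hstarA
              have hEB := hR (insert z B) m j2 (L.erase z) i z ((td2_mono' hsubB).trans htd)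
                hconB (by simp) (by simp) hj2m (hstar.mono hsubB (Finset.erase_subset _ _)) ?_
              · rw [Finset.erase_insert hzB] at hEB
                rw [heq]
                refine hEA.attach (L := L) (z := z)
                  (c := Dn (m - j2) (k + 1)) hdisE hedge
                  (by simp) (by simp) ?_ (hEB.mono (L' := L)
                    (β' := (fun y => Dn (m - i y) (k + 1) - Dn (m - j2) (k + 1)))
                    fun y hy hyL => ⟨Finset.mem_erase.2
                    ⟨by rintro rfl; exact hzB hy, hyL⟩, le_rfl⟩) ?_ ?_
                · have : j2 ≤ i' z := by rw [hi', Function.update_self]; exact le_max_right _ _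
                  exact Dn_mono (m := m - i' z) (m' := m - j2) (by omega) k
                · intro y hy hyL
                  refine ⟨by simp [hyL], ?_⟩
                  have : i y ≤ i' y := by
                    by_cases hyz : y = z
                    · subst hyz
                      rw [hi', Function.update_self, if_pos hyL]
                      exact le_max_left _ _
                    · rw [hi', Function.update_of_ne hyz]
                  exact Dn_mono (m := m - i' y) (m' := m - i y) (by omega) k
                · intro y hy hyL
                  have hiy : i y ≤ j2 := by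
                    obtain ⟨l, hl⟩ := exists_IP hconB (Finset.mem_insert_self z B)
                      (Finset.mem_insert_of_mem hy)
                    have h1 := hl.one_le
                    have h2 := hroot2 y hy hyL l hl
                    omega
                  have h1 := Dn_mono (m := m - j2) (m' := m - i y) (by omega) k
                  omega
              · intro y hy hyL l hl
                rw [Finset.mem_erase] at hyL
                rcases Finset.mem_insert.1 hy with h1 | h1
                · exact absurd h1 hyL.1
                · exact hroot2 y h1 hyL.2 l hl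
            · push Not at hlabB
              rw [heq]
              refine Elim.attach_unlabelled (z := z) ?_ hdisE hedge hlabB
              exact ih (insert z A) hcA m L i ((td2_mono' hsubA).trans htd)
                (hstar.mono hsubA (Finset.Subset.refl _))
          by_cases hrB : Root G (insert z B) z B L i m
          · exact step A B hd ha hzA hzB hcA hconB htd hstar hrB
          · have hrA : Root G (insert z A) z A L i m := by
              unfold Root at hrB
              push Not at hrB
              obtain ⟨y2, hy2, hy2L, l2, hl2, hlt2⟩ := hrB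
              intro y hy hyL l hl
              obtain ⟨l2', rfl⟩ := hl2.head
              have happ := hl.reverse.append hd ha hzA hzB hl2
              have := hstar y (by simp [hy]) hyL y2 (by simp [hy2]) hy2L _ happ
              rw [List.length_append, List.length_reverse] at this
              rw [List.length_cons] at hlt2
              omega
            have hc : A ∪ B = B ∪ A := Finset.union_comm _ _
            rw [hc] at htd hstar ⊢
            exact step B A hd.symm ha.symm hzB hzA hcB hconA htd hstar hrA
    · unfold Conn at hconn
      push Not at hconn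
      obtain ⟨A, B, hAB, hd, ha, hA, hB⟩ := hconn
      subst hAB
      have hc := Finset.card_union_of_disjoint hd
      have hA' := Finset.card_pos.2 hA
      have hB' := Finset.card_pos.2 hB
      exact .split hd ha
        (ih A (by omega) m L i ((td2_mono' Finset.subset_union_left).trans htd)
          (hstar.mono Finset.subset_union_left (Finset.Subset.refl _)))
        (ih B (by omega) m L i ((td2_mono' Finset.subset_union_right).trans htd)
          (hstar.mono Finset.subset_union_right (Finset.Subset.refl _)))

lemma uStat (G : SimpleGraph V) : ∀ k, UStat G k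
  | 0 => uStat_zero
  | k + 1 => uStat_step (uStat G k) (rStat_step (uStat G k))

/-- upper bound in terms of lists -/
lemma td_le_of_paths {S : Finset V} {m k : ℕ} (h2 : td2 G S ≤ k)
    (hp : ∀ x y l, IP G S x y l → l.length ≤ 2 * m + 1) : td G S ≤ Dn m k := by
  have := uStat G k S m S (fun _ => 0) h2 (by
    intro y _ _ y' _ _ l hl
    have := hp y y' l hl
    omega)
  exact Elim.td_le (by simpa using this) (Finset.Subset.refl _)

end Main

section PathEquiv
variable {V : Type*} {G : SimpleGraph V}

lemma IP.getElem {S : Finset V} {x y : V} {l : List V} (h : IP G S x y l) :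
    ∀ (i j : ℕ) (hj : j < l.length) (hij : i < j),
      (l[i]'(hij.trans hj) ≠ l[j]) ∧ (G.Adj (l[i]'(hij.trans hj)) l[j] ↔ i + 1 = j) := by
  induction h with
  | single hx =>
    intro i j hj hij
    simp at hj
    omega
  | @cons a b y l ha hab hc h' ih =>
    intro i j hj hij
    obtain ⟨j, rfl⟩ : ∃ j', j = j' + 1 := ⟨j - 1, by omega⟩
    cases i with
    | zero =>
      cases j with
      | zero =>
        simp only [List.getElem_cons_zero, List.getElem_cons_succ]
        exact ⟨hab.ne, by simp [hab]⟩
      | succ j =>
        simp only [List.getElem_cons_zero, List.getElem_cons_succ]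
        have hj' : j < l.length := by simpa using hj
        have := hc (l[j]) (List.getElem_mem hj')
        exact ⟨this.1.symm, ⟨fun hh => absurd hh this.2, fun hh => by omega⟩⟩
    | succ i =>
      simp only [List.getElem_cons_succ]
      have := ih i j (by simpa using hj) (by omega)
      refine ⟨this.1, this.2.trans (by omega)⟩

/-- an induced path on at least `t` vertices contains an induced `P_t` -/
lemma IP.embedding {S : Finset V} {x y : V} {l : List V} (h : IP G S x y l) {t : ℕ}
    (ht : t ≤ l.length) : Nonempty (pathGraph t ↪g G) := by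
  have hlt : ∀ i : Fin t, (i : ℕ) < l.length := fun i => i.2.trans_le ht
  refine ⟨⟨⟨fun i => l[(i : ℕ)]'(hlt i), ?_⟩, ?_⟩⟩
  · intro i j hij
    by_contra hne
    rcases lt_or_gt_of_ne (fun hh => hne (Fin.ext hh) : (i : ℕ) ≠ j) with h1 | h1
    · exact (h.getElem i j (hlt j) h1).1 hij
    · exact (h.getElem j i (hlt i) h1).1 hij.symm
  · intro i j
    show G.Adj (l[(i : ℕ)]'(hlt i)) (l[(j : ℕ)]'(hlt j)) ↔ _
    rw [pathGraph_adj]
    rcases lt_trichotomy (i : ℕ) (j : ℕ) with h1 | h1 | h1
    · rw [(h.getElem i j (hlt j) h1).2]
      omega
    · have : i = j := Fin.ext h1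
      subst this
      simp
    · rw [G.adj_comm, (h.getElem j i (hlt i) h1).2]
      omega

/-- an induced `P_t` gives a list path on `t` vertices -/
lemma IP.of_embedding [Fintype V] {t : ℕ} (ht : 1 ≤ t) (φ : pathGraph t ↪g G) :
    ∃ x y l, IP G Finset.univ x y l ∧ l.length = t := by
  have key : ∀ n (hn : n < t), ∃ l, IP G Finset.univ (φ ⟨t - 1 - n, by omega⟩)
      (φ ⟨t - 1, by omega⟩) l ∧ l.length = n + 1 ∧
      ∀ c ∈ l, ∃ i : Fin t, t - 1 - n ≤ i ∧ c = φ i := by
    intro n
    induction n with
    | zero =>
      intro hn
      refine ⟨[φ ⟨t - 1, by omega⟩], .single (Finset.mem_univ _), rfl, ?_⟩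
      intro c hc
      simp at hc
      exact ⟨⟨t - 1, by omega⟩, by simp, hc⟩
    | succ n ih =>
      intro hn
      obtain ⟨l, hl, hlen, hmem⟩ := ih (by omega)
      obtain ⟨l', rfl⟩ := hl.head
      refine ⟨φ ⟨t - 1 - (n + 1), by omega⟩ :: φ ⟨t - 1 - n, by omega⟩ :: l', ?_, ?_, ?_⟩
      · refine .cons (Finset.mem_univ _) ?_ ?_ hl
        · rw [φ.map_adj_iff, pathGraph_adj]
          left
          simp only
          omega
        · intro c hc
          obtain ⟨i, hi, rfl⟩ := hmem c (List.mem_cons_of_mem _ hc)
          have hne : φ i ≠ φ ⟨t - 1 - n, by omega⟩ := by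
            intro hh
            exact hl.nodup_tail (hh ▸ hc)
          have hne' : i ≠ ⟨t - 1 - n, by omega⟩ := fun hh => hne (congrArg φ hh)
          have hne'' : (i : ℕ) ≠ t - 1 - n := fun hh => hne' (Fin.ext hh)
          constructor
          · intro hh
            have := φ.injective hh
            have := congrArg Fin.val this
            simp only at this
            omega
          · rw [φ.map_adj_iff, pathGraph_adj]
            simp only
            omega
      · simp only [List.length_cons] at hlen ⊢
        omega
      · intro c hc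
        rcases List.mem_cons.1 hc with h1 | h1
        · exact ⟨_, le_rfl, h1⟩
        · obtain ⟨i, hi, hh⟩ := hmem c h1
          exact ⟨i, by omega, hh⟩
  obtain ⟨l, hl, hlen, _⟩ := key (t - 1) (by omega)
  exact ⟨_, _, l, hl, by omega⟩

lemma free_iff [Fintype V] {t : ℕ} (ht : 1 ≤ t) : ¬ Nonempty (pathGraph t ↪g G) ↔
    ∀ x y l, IP G Finset.univ x y l → l.length ≤ t - 1 := by
  constructor
  · intro h x y l hl
    by_contra hcon
    exact h (hl.embedding (by omega))
  · rintro h ⟨φ⟩
    obtain ⟨x, y, l, hl, hlen⟩ := IP.of_embedding ht φ
    have := h x y l hl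
    omega

end PathEquiv

section Lower
variable {α β : Type*}

/-- it suffices to bound td2 on the nonseparable subsets -/
lemma td2_le_of_nonsep {V : Type*} {G : SimpleGraph V} {S : Finset V} {d : ℕ}
    (h : ∀ T ⊆ S, IsNonsep G T → td2 G T ≤ d) : td2 G S ≤ d := by
  by_cases hS0 : S = ∅
  · subst hS0; rw [td2_empty]; omega
  by_cases hS : IsNonsep G S
  · exact h S (Finset.Subset.refl _) hS
  · exact td2_not_nonsep_le hS0 hS fun C hC => h C hC.1 hC.2.1

lemma td2_le_erase {V : Type*} {G : SimpleGraph V} {S : Finset V} {v : V} (hv : v ∈ S) :
    td2 G S ≤ 1 + td2 G (S.erase v) := by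
  apply td2_le_of_nonsep
  intro C hCS hC
  by_cases hvC : v ∈ C
  · exact (td2_nonsep_le hC hvC).trans
      (Nat.add_le_add_left (td2_mono' (Finset.erase_subset_erase v hCS)) 1)
  · have : C ⊆ S.erase v := fun x hx => by
      rw [Finset.mem_erase]
      exact ⟨fun hxv => hvC (hxv ▸ hx), hCS hx⟩
    have := td2_mono' (G := G) this
    omega

lemma td2_union_le {V : Type*} {G : SimpleGraph V} {A B : Finset V} (hdis : Disjoint A B)
    (h : Anti G A B) {d : ℕ} (hA : td2 G A ≤ d) (hB : td2 G B ≤ d) : td2 G (A ∪ B) ≤ d := by
  apply td2_le_of_nonsep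
  intro C hCS hC
  rcases Conn.side ((conn_iff C).1 hC.1).2 hCS hdis h with h1 | h1
  · exact (td2_mono' h1).trans hA
  · exact (td2_mono' h1).trans hB

lemma td2_sep_le {V : Type*} {G : SimpleGraph V} {A B : Finset V} {z : V} (hdis : Disjoint A B)
    (h : Anti G A B) (hzA : z ∉ A) (hzB : z ∉ B) {d : ℕ} (hA : td2 G (insert z A) ≤ d)
    (hB : td2 G (insert z B) ≤ d) : td2 G (insert z (A ∪ B)) ≤ d := by
  apply td2_le_of_nonsep
  intro C hCS hC
  rcases nonsep_side hC hCS hdis h hzA hzB with h1 | h1
  · exact (td2_mono' h1).trans hA
  · exact (td2_mono' h1).trans hB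

lemma anti_map {G : SimpleGraph α} {H : SimpleGraph β} (φ : H ↪g G) {A B : Finset β}
    (h : Anti H A B) : Anti G (A.map φ.toEmbedding) (B.map φ.toEmbedding) := by
  intro a ha b hb hab
  rw [Finset.mem_map] at ha hb
  obtain ⟨a', ha', rfl⟩ := ha
  obtain ⟨b', hb', rfl⟩ := hb
  exact h a' ha' b' hb' (φ.map_adj_iff.1 hab)

lemma anti_of_map {G : SimpleGraph α} {H : SimpleGraph β} (φ : H ↪g G) {A B : Finset β}
    (h : Anti G (A.map φ.toEmbedding) (B.map φ.toEmbedding)) : Anti H A B := by
  intro a ha b hb hab
  exact h (φ a) (Finset.mem_map_of_mem _ ha) (φ b) (Finset.mem_map_of_mem _ hb)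
    (φ.map_adj_iff.2 hab)

lemma td2_map_le {G : SimpleGraph α} {H : SimpleGraph β} (φ : H ↪g G) :
    ∀ (n : ℕ) (S : Finset β), S.card ≤ n → td2 G (S.map φ.toEmbedding) ≤ td2 H S := by
  intro n
  induction n with
  | zero =>
    intro S hS
    have : S = ∅ := Finset.card_eq_zero.1 (by omega)
    subst this
    simp [td2_empty]
  | succ n ih =>
    intro S hS
    by_cases hS0 : S = ∅
    · subst hS0; simp [td2_empty]
    by_cases hns : IsNonsep H S
    · obtain ⟨v, hv, hveq⟩ := td2_nonsep_attained hns
      have h1 := td2_le_erase (G := G) (S := S.map φ.toEmbedding) (v := φ v)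
        (Finset.mem_map_of_mem _ hv)
      have h2 : (S.map φ.toEmbedding).erase (φ v) = (S.erase v).map φ.toEmbedding := by
        rw [Finset.map_erase]; rfl
      rw [h2] at h1
      have := Finset.card_erase_lt_of_mem hv
      have h3 := ih (S.erase v) (by omega)
      omega
    · by_cases hconn : Conn H S
      · obtain ⟨z, A, B, hz, hA, hB, hd, ha, hzA, hzB, rfl⟩ :=
          exists_sep (Finset.nonempty_iff_ne_empty.2 hS0) hconn hns
        have h1 : (insert z (A ∪ B)).card = A.card + B.card + 1 := by
          rw [Finset.card_insert_of_notMem (by simp [hzA, hzB]),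
            Finset.card_union_of_disjoint hd]
        have h2 := Finset.card_insert_of_notMem hzB
        have h3 := Finset.card_pos.2 hA
        have h4 := Finset.card_insert_of_notMem hzA
        have h5 := Finset.card_pos.2 hB
        have hmA := ih (insert z A) (by omega)
        have hmB := ih (insert z B) (by omega)
        have hsubA : insert z A ⊆ insert z (A ∪ B) :=
          Finset.insert_subset_insert _ Finset.subset_union_left
        have hsubB : insert z B ⊆ insert z (A ∪ B) :=
          Finset.insert_subset_insert _ Finset.subset_union_right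
        rw [Finset.map_insert, Finset.map_union]
        rw [Finset.map_insert] at hmA hmB
        refine td2_sep_le ?_ (anti_map φ ha) ?_ ?_ (hmA.trans (td2_mono' hsubA))
          (hmB.trans (td2_mono' hsubB))
        · rwa [Finset.disjoint_map]
        · simpa using hzA
        · simpa using hzB
      · unfold Conn at hconn
        push Not at hconn
        obtain ⟨A, B, hAB, hd, ha, hA, hB⟩ := hconn
        subst hAB
        have hc := Finset.card_union_of_disjoint hd
        have hA' := Finset.card_pos.2 hA
        have hB' := Finset.card_pos.2 hB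
        rw [Finset.map_union]
        refine td2_union_le ?_ (anti_map φ ha)
          ((ih A (by omega)).trans (td2_mono' Finset.subset_union_left))
          ((ih B (by omega)).trans (td2_mono' Finset.subset_union_right))
        rwa [Finset.disjoint_map]

lemma td_map_ge {G : SimpleGraph α} {H : SimpleGraph β} (φ : H ↪g G) :
    ∀ (n : ℕ) (S : Finset β), S.card ≤ n → td H S ≤ td G (S.map φ.toEmbedding) := by
  intro n
  induction n with
  | zero =>
    intro S hS
    have : S = ∅ := Finset.card_eq_zero.1 (by omega)
    subst this
    simp [td_empty]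
  | succ n ih =>
    intro S hS
    by_cases hS0 : S = ∅
    · subst hS0; simp [td_empty]
    by_cases hconn : (sub G (S.map φ.toEmbedding)).Connected
    · obtain ⟨w, hw, hweq⟩ := td_conn_attained hconn
      rw [Finset.mem_map] at hw
      obtain ⟨v, hv, rfl⟩ := hw
      have h2 : (S.map φ.toEmbedding).erase (φ.toEmbedding v) = (S.erase v).map φ.toEmbedding := by
        rw [Finset.map_erase]
      rw [h2] at hweq
      have := Finset.card_erase_lt_of_mem hv
      have h3 := ih (S.erase v) (by omega)
      have h4 := td_le_erase (G := H) hv
      omega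
    · by_cases hconn' : Conn H S
      · -- then the image is connected, contradiction
        exfalso
        apply hconn
        rw [conn_iff]
        refine ⟨by simpa [Finset.nonempty_iff_ne_empty] using hS0, ?_⟩
        intro P Q hPQ hd ha
        have hP : P = (P.preimage φ φ.injective.injOn).map φ.toEmbedding := by
          ext w
          simp only [Finset.mem_map, Finset.mem_preimage]
          constructor
          · intro hw
            have : w ∈ S.map φ.toEmbedding := by rw [← hPQ]; simp [hw]
            rw [Finset.mem_map] at this
            obtain ⟨v, hv, rfl⟩ := this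
            exact ⟨v, hw, rfl⟩
          · rintro ⟨v, hv, rfl⟩; exact hv
        have hQ : Q = (Q.preimage φ φ.injective.injOn).map φ.toEmbedding := by
          ext w
          simp only [Finset.mem_map, Finset.mem_preimage]
          constructor
          · intro hw
            have : w ∈ S.map φ.toEmbedding := by rw [← hPQ]; simp [hw]
            rw [Finset.mem_map] at this
            obtain ⟨v, hv, rfl⟩ := this
            exact ⟨v, hw, rfl⟩
          · rintro ⟨v, hv, rfl⟩; exact hv
        rw [hP, hQ] at hPQ hd ha
        rw [Finset.disjoint_map] at hd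
        rw [← Finset.map_union] at hPQ
        have hPQ' := Finset.map_injective _ hPQ
        rcases hconn' _ _ hPQ' hd (anti_of_map φ ha) with h1 | h1
        · left; rw [hP, h1]; simp
        · right; rw [hQ, h1]; simp
      · unfold Conn at hconn'
        push Not at hconn'
        obtain ⟨A, B, hAB, hd, ha, hA, hB⟩ := hconn'
        subst hAB
        have hc := Finset.card_union_of_disjoint hd
        have hA' := Finset.card_pos.2 hA
        have hB' := Finset.card_pos.2 hB
        rw [Finset.map_union]
        exact td_union_le hd ha
          ((ih A (by omega)).trans (td_mono' Finset.subset_union_left))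
          ((ih B (by omega)).trans (td_mono' Finset.subset_union_right))

end Lower

universe u v

/-- vertex set of the attached graph -/
inductive AttV (α : Type u) (β : Type v) (N : ℕ) : Type (max u v)
  | base (a : α) : AttV α β N
  | copy (a : α) (c : Fin N) (b : β) : AttV α β N

section Lower2
variable {α : Type u} {β : Type v}

noncomputable instance {N : ℕ} [Fintype α] [Fintype β] : Fintype (AttV α β N) :=
  Fintype.ofSurjective (fun p : α ⊕ (α × Fin N × β) => match p with
    | .inl a => AttV.base a
    | .inr q => AttV.copy q.1 q.2.1 q.2.2) (by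
    rintro (a | ⟨a, c, b⟩)
    · exact ⟨.inl a, rfl⟩
    · exact ⟨.inr (a, c, b), rfl⟩)

/-- Attach to every vertex `a` of `A` exactly `N` disjoint copies of `H`, every vertex of which is
joined to `a`. -/
def att (A : SimpleGraph α) (H : SimpleGraph β) (N : ℕ) : SimpleGraph (AttV α β N) where
  Adj := fun p q => match p, q with
    | .base a, .base a' => A.Adj a a'
    | .base a, .copy a' _ _ => a = a'
    | .copy a _ _, .base a' => a' = a
    | .copy a c b, .copy a' c' b' => a = a' ∧ c = c' ∧ H.Adj b b'
  symm := ⟨by
    rintro (a | ⟨a, c, b⟩) (a' | ⟨a', c', b'⟩) h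
    · exact A.adj_symm h
    · exact h
    · exact h
    · exact ⟨h.1.symm, h.2.1.symm, H.adj_symm h.2.2⟩⟩
  loopless := ⟨by
    rintro (a | ⟨a, c, b⟩) h
    · exact A.loopless.irrefl a h
    · exact H.loopless.irrefl _ h.2.2⟩

/-- inclusion of the base graph -/
def attBase (A : SimpleGraph α) (H : SimpleGraph β) (N : ℕ) : A ↪g att A H N where
  toFun := AttV.base
  inj' := by
    intro a a' h
    injection h
  map_rel_iff' := Iff.rfl

/-- inclusion of a copy -/
def attCopy (A : SimpleGraph α) (H : SimpleGraph β) (N : ℕ) (a : α) (c : Fin N) :
    H ↪g att A H N where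
  toFun := fun b => AttV.copy a c b
  inj' := by
    intro b b' h
    injection h
  map_rel_iff' := by
    intro b b'
    show (a = a ∧ c = c ∧ H.Adj b b') ↔ _
    tauto

lemma att_base_base {A : SimpleGraph α} {H : SimpleGraph β} {N : ℕ} {a a' : α} :
    (att A H N).Adj (.base a) (.base a') ↔ A.Adj a a' := Iff.rfl

lemma att_base_copy {A : SimpleGraph α} {H : SimpleGraph β} {N : ℕ} {a a' : α} {c : Fin N}
    {b : β} : (att A H N).Adj (.base a) (.copy a' c b) ↔ a = a' := Iff.rfl

lemma att_copy_base {A : SimpleGraph α} {H : SimpleGraph β} {N : ℕ} {a a' : α} {c : Fin N}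
    {b : β} : (att A H N).Adj (.copy a' c b) (.base a) ↔ a = a' := Iff.rfl

lemma att_copy_copy {A : SimpleGraph α} {H : SimpleGraph β} {N : ℕ} {a a' : α} {c c' : Fin N}
    {b b' : β} : (att A H N).Adj (.copy a c b) (.copy a' c' b') ↔
      a = a' ∧ c = c' ∧ H.Adj b b' := Iff.rfl

/-- paths starting in the base -/
lemma att_path_base [Fintype α] {A : SimpleGraph α} {H : SimpleGraph β} {N : ℕ}
    {S : Finset (AttV α β N)} {x y : AttV α β N}
    {l : List (AttV α β N)} (h : IP (att A H N) S x y l) (a : α) (hx : x = .base a) :
    ∃ (lA : List α) (tail : List (AttV α β N)) (a' : α), l = lA.map AttV.base ++ tail ∧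
      tail.length ≤ 1 ∧ IP A Finset.univ a a' lA := by
  induction h generalizing a with
  | single hx' =>
    subst hx
    exact ⟨[a], [], a, by simp, by simp, .single (Finset.mem_univ _)⟩
  | @cons a0 b y l ha hab hc h' ih =>
    subst hx
    rcases b with a1 | ⟨a1, c1, b1⟩
    · obtain ⟨lA, tail, a', h1, h2, h3⟩ := ih a1 rfl
      obtain ⟨lA', rfl⟩ := h3.head
      simp only [List.map_cons, List.cons_append, List.cons.injEq, true_and] at h1
      refine ⟨a :: a1 :: lA', tail, a', by simp [h1], h2, ?_⟩
      refine .cons (Finset.mem_univ _) hab ?_ h3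
      intro c hcl
      have : (AttV.base c : AttV α β N) ∈ l := by
        rw [h1]
        exact List.mem_append_left _ (List.mem_map_of_mem hcl)
      have := hc _ this
      exact ⟨fun hh => this.1 (by rw [hh]), fun hh => this.2 hh⟩
    · have haq : a = a1 := hab
      subst haq
      have : l = [] := by
        cases h' with
        | single _ => rfl
        | @cons _ d _ l2 hq hqd hc2 h'' =>
          exfalso
          rcases d with a2 | ⟨a2, c2, b2⟩
          · have h1 : a2 = a := hqd
            subst h1
            exact (hc (.base a2) (by simp)).1 rfl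
          · have h1 : a = a2 := hqd.1
            subst h1
            exact (hc (.copy a c2 b2) (by simp)).2 (att_base_copy.2 rfl)
      subst this
      exact ⟨[a], [.copy a c1 b1], a, by simp, by simp, .single (Finset.mem_univ _)⟩

/-- paths avoiding the base stay in one copy -/
lemma att_path_copy [Fintype β] {A : SimpleGraph α} {H : SimpleGraph β} {N : ℕ}
    {S : Finset (AttV α β N)} {x y : AttV α β N}
    {l : List (AttV α β N)} (h : IP (att A H N) S x y l) (a : α) (c : Fin N) (b : β)
    (hx : x = .copy a c b) (hno : AttV.base a ∉ l) :
    ∃ (lH : List β) (b' : β), l = lH.map (fun b => AttV.copy a c b) ∧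
      IP H Finset.univ b b' lH := by
  induction h generalizing b with
  | single hx' =>
    subst hx
    exact ⟨[b], b, by simp, .single (Finset.mem_univ _)⟩
  | @cons a0 d y l ha hab hc h' ih =>
    subst hx
    rcases d with a1 | ⟨q1, q2, q3⟩
    · have h1 : a1 = a := hab
      subst h1
      simp at hno
    · obtain ⟨h1, h2, h3⟩ := (att_copy_copy.1 hab)
      subst h1
      subst h2
      obtain ⟨lH, b', h4, h5⟩ := ih q3 rfl (fun hh => hno (List.mem_cons_of_mem _ hh))
      obtain ⟨lH', rfl⟩ := h5.head
      simp only [List.map_cons, List.cons.injEq, true_and] at h4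
      refine ⟨b :: q3 :: lH', b', by simp [h4], ?_⟩
      refine .cons (Finset.mem_univ _) h3 ?_ h5
      intro e he
      have : (AttV.copy a c e : AttV α β N) ∈ l := by
        rw [h4]
        exact List.mem_map_of_mem (f := fun b => (AttV.copy a c b : AttV α β N)) he
      have := hc _ this
      refine ⟨fun hh => this.1 (by rw [hh]), fun hh => this.2 ?_⟩
      rw [att_copy_copy]
      exact ⟨rfl, rfl, hh⟩

lemma att_path_le [Fintype α] [Fintype β] {A : SimpleGraph α} {H : SimpleGraph β} {N M : ℕ}
    (hA : ∀ x y l, IP A Finset.univ x y l → l.length ≤ M)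
    (hH : ∀ x y l, IP H Finset.univ x y l → l.length ≤ M + 2)
    (x y : AttV α β N) (l : List (AttV α β N))
    (h : IP (att A H N) Finset.univ x y l) : l.length ≤ M + 2 := by
  have hbase : ∀ (a : α) (y : AttV α β N) (l : List (AttV α β N)),
      IP (att A H N) Finset.univ (.base a) y l → l.length ≤ M + 1 := by
    intro a y l h
    obtain ⟨lA, tail, a', h1, h2, h3⟩ := att_path_base h a rfl
    have := hA _ _ _ h3
    rw [h1, List.length_append, List.length_map]
    omega
  rcases x with a | ⟨a, c, b⟩
  · have := hbase a y l h
    omega
  · by_cases hno : AttV.base a ∉ l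
    · obtain ⟨lH, b', h1, h2⟩ := att_path_copy h a c b rfl hno
      have := hH _ _ _ h2
      rw [h1, List.length_map]
      exact this
    · push Not at hno
      cases h with
      | single _ => simp at hno
      | @cons _ d _ l ha hab hc h' =>
        rcases List.mem_cons.1 hno with h1 | h1
        · cases h1
        · rcases List.mem_cons.1 h1 with h2 | h2
          · subst h2
            have := hbase a y _ h'
            simp only [List.length_cons] at this ⊢
            omega
          · exact absurd (att_copy_base.2 rfl) (hc _ h2).2

/-- the base together with the copies listed in `C` -/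
def Keep {N : ℕ} (C : Finset (α × Fin N)) : AttV α β N → Prop
  | .base _ => True
  | .copy a c _ => (a, c) ∈ C

/-- the base without `a` together with the copies listed in `C` -/
def KeepNot {N : ℕ} (C : Finset (α × Fin N)) (a0 : α) : AttV α β N → Prop
  | .base a => a ≠ a0
  | .copy a c _ => (a, c) ∈ C

/-- 2-treedepth of the attached graph -/
lemma att_td2_le [Fintype α] [Fintype β] {A : SimpleGraph α} {H : SimpleGraph β} {N k : ℕ}
    (hA : td2 A Finset.univ ≤ k + 1) (hH : td2 H Finset.univ ≤ k) :
    td2 (att A H N) Finset.univ ≤ k + 1 := by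
  -- remove copies one at a time
  have key : ∀ (C : Finset (α × Fin N)), td2 (att A H N)
      (Finset.univ.filter (Keep C)) ≤ k + 1 := by
    intro C
    induction C using Finset.induction_on with
    | empty =>
      have : (Finset.univ.filter (Keep (∅ : Finset (α × Fin N))) : Finset (AttV α β N)) =
        Finset.univ.map (attBase A H N).toEmbedding := by
        ext p
        simp only [Finset.mem_filter, Finset.mem_univ, true_and, Finset.mem_map]
        rcases p with a | ⟨a, c, b⟩
        · simp only [Keep, true_iff]
          exact ⟨a, rfl⟩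
        · simp only [Keep, Finset.notMem_empty, false_iff]
          rintro ⟨a', h⟩
          cases h
      rw [this]
      exact (td2_map_le (attBase A H N) _ _ le_rfl).trans hA
    | insert ac C hac ih =>
      obtain ⟨a, c⟩ := ac
      set X : Finset (AttV α β N) := (Finset.univ.filter (KeepNot C a)) with hX
      set Y : Finset (AttV α β N) := Finset.univ.map (attCopy A H N a c).toEmbedding
        with hY
      have hmemY : ∀ p, p ∈ Y ↔ ∃ b, p = .copy a c b := by
        intro p
        rw [hY, Finset.mem_map]
        constructor
        · rintro ⟨b, _, rfl⟩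
          exact ⟨b, rfl⟩
        · rintro ⟨b, rfl⟩
          exact ⟨b, Finset.mem_univ _, rfl⟩
      have h1 : (Finset.univ.filter (Keep (insert (a, c) C)) : Finset (AttV α β N)) =
          insert (.base a) (X ∪ Y) := by
        ext p
        rw [Finset.mem_insert, Finset.mem_union, hmemY, hX, Finset.mem_filter, Finset.mem_filter]
        rcases p with a' | ⟨q1, q2, q3⟩
        · simp only [Keep, KeepNot, Finset.mem_univ, true_and, true_iff, AttV.base.injEq]
          tauto
        · simp only [Keep, KeepNot, Finset.mem_univ, true_and, Finset.mem_insert, Prod.mk.injEq,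
            AttV.copy.injEq]
          constructor
          · rintro (⟨rfl, rfl⟩ | h)
            · right; right; exact ⟨q3, rfl, rfl, rfl⟩
            · right; left; exact h
          · rintro (h | h | ⟨b, h, h', _⟩)
            · cases h
            · right; exact h
            · left
              exact ⟨h, h'⟩
      have h2 : insert (.base a) X = (Finset.univ.filter (Keep C) : Finset (AttV α β N)) := by
        ext p
        rw [Finset.mem_insert, hX, Finset.mem_filter, Finset.mem_filter]
        rcases p with a' | ⟨q1, q2, q3⟩
        · simp only [Keep, KeepNot, Finset.mem_univ, true_and, iff_true, AttV.base.injEq]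
          tauto
        · simp only [Keep, KeepNot, Finset.mem_univ, true_and]
          constructor
          · rintro (h | h)
            · cases h
            · exact h
          · exact fun h => Or.inr h
      rw [h1]
      refine td2_sep_le ?_ ?_ ?_ ?_ ?_ ?_
      · refine Finset.disjoint_left.2 fun p hpX hpY => ?_
        obtain ⟨b, rfl⟩ := (hmemY p).1 hpY
        rw [hX, Finset.mem_filter] at hpX
        exact hac hpX.2
      · intro p hp q hq hpq
        obtain ⟨b, rfl⟩ := (hmemY q).1 hq
        rw [hX, Finset.mem_filter] at hp
        rcases p with a' | ⟨q1, q2, q3⟩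
        · exact hp.2 hpq
        · obtain ⟨h3, h4, _⟩ := att_copy_copy.1 hpq
          subst h3
          subst h4
          exact hac hp.2
      · rw [hX, Finset.mem_filter]
        simp [KeepNot]
      · intro hh
        obtain ⟨b, hb⟩ := (hmemY _).1 hh
        cases hb
      · rw [h2]; exact ih
      · have hn : AttV.base a ∉ Y := by
          intro hh
          obtain ⟨b, hb⟩ := (hmemY _).1 hh
          cases hb
        have h3 := td2_le_erase (G := att A H N) (S := insert (.base a) Y) (v := .base a)
          (Finset.mem_insert_self _ _)
        rw [Finset.erase_insert hn] at h3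
        have h4 := (td2_map_le (attCopy A H N a c) _ Finset.univ le_rfl).trans hH
        rw [← hY] at h4
        omega
  have := key Finset.univ
  have h1 : (Finset.univ.filter (Keep (Finset.univ : Finset (α × Fin N))) :
      Finset (AttV α β N)) = Finset.univ := by
    ext p
    rcases p with a | q <;> simp [Keep]
  rw [h1] at this
  exact this

/-- the copies at `a` that are contained in `S'` -/
noncomputable def intact {N : ℕ} [Fintype β] (S' : Finset (AttV α β N)) (a : α) :
    Finset (Fin N) :=
  Finset.univ.filter fun c => ∀ b : β, AttV.copy a c b ∈ S'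

/-- the part over `C` -/
def Over {N : ℕ} (C : Finset α) : AttV α β N → Prop
  | .base a => a ∈ C
  | .copy a _ _ => a ∈ C

/-- treedepth of the attached graph -/
lemma att_td_ge [Fintype β] {A : SimpleGraph α} {H : SimpleGraph β} {N : ℕ} :
    ∀ (n : ℕ) (S' : Finset (AttV α β N)), S'.card ≤ n → ∀ (S : Finset α) (r : ℕ),
    S.Nonempty → (∀ a ∈ S, AttV.base a ∈ S') → (∀ a ∈ S, r ≤ (intact S' a).card) →
    min r (td A S + td H Finset.univ) ≤ td (att A H N) S' := by
  intro n
  induction n with
  | zero =>
    intro S' hS' S r hS hin _
    have : S' = ∅ := Finset.card_eq_zero.1 (by omega)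
    subst this
    obtain ⟨a, ha⟩ := hS
    have := hin a ha
    simp at this
  | succ n ih =>
    intro S' hS' S r hS hin hint
    by_cases hr : r = 0
    · subst hr; simp
    by_cases hconn : (sub (att A H N) S').Connected
    · obtain ⟨v, hv, hveq⟩ := td_conn_attained hconn
      have hcard := Finset.card_erase_lt_of_mem hv
      by_cases hvS : ∃ a ∈ S, v = .base a
      · obtain ⟨a, ha, rfl⟩ := hvS
        have h1 := td_le_erase (G := A) ha
        have hint' : ∀ a' ∈ S, intact (S'.erase (.base a)) a' = intact S' a' := by
          intro a' _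
          unfold intact
          ext c
          simp
        by_cases hne : (S.erase a).Nonempty
        · have h2 := ih (S'.erase (.base a)) (by omega) (S.erase a) r hne ?_ ?_
          · omega
          · intro a' ha'
            rw [Finset.mem_erase] at ha'
            rw [Finset.mem_erase]
            refine ⟨?_, hin a' ha'.2⟩
            simpa using ha'.1
          · intro a' ha'
            rw [hint' a' (Finset.mem_of_mem_erase ha')]
            exact hint a' (Finset.mem_of_mem_erase ha')
        · rw [Finset.not_nonempty_iff_eq_empty] at hne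
          rw [hne, td_empty] at h1
          -- a copy remains
          have h3 : (intact S' a).Nonempty := by
            rw [← Finset.card_pos]
            have := hint a ha
            omega
          obtain ⟨c, hc⟩ := h3
          have h4 : Finset.univ.map (attCopy A H N a c).toEmbedding ⊆ S'.erase (.base a) := by
            intro p hp
            rw [Finset.mem_map] at hp
            obtain ⟨b, _, rfl⟩ := hp
            rw [intact, Finset.mem_filter] at hc
            rw [Finset.mem_erase]
            refine ⟨?_, hc.2 b⟩
            intro hh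
            cases hh
          have h5 := (td_map_ge (attCopy A H N a c) _ Finset.univ le_rfl).trans
            (td_mono' (G := att A H N) h4)
          omega
      · push Not at hvS
        have h2 := ih (S'.erase v) (by omega) S (r - 1) hS ?_ ?_
        · omega
        · intro a ha
          rw [Finset.mem_erase]
          exact ⟨fun hh => hvS a ha hh.symm, hin a ha⟩
        · intro a ha
          have h3 := hint a ha
          have h4 : ∃ c0, (intact S' a).erase c0 ⊆ intact (S'.erase v) a ∨
              intact S' a ⊆ intact (S'.erase v) a := by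
            rcases v with a0 | ⟨q1, q2, q3⟩
            · -- no copy is affected
              by_cases hN : (intact S' a).Nonempty
              · obtain ⟨c0, _⟩ := hN
                refine ⟨c0, Or.inr ?_⟩
                intro c hc
                rw [intact, Finset.mem_filter] at hc ⊢
                refine ⟨Finset.mem_univ _, fun b => ?_⟩
                rw [Finset.mem_erase]
                exact ⟨by simp, hc.2 b⟩
              · rw [Finset.not_nonempty_iff_eq_empty] at hN
                rw [hN] at h3
                simp at h3
                omega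
            · refine ⟨q2, Or.inl ?_⟩
              intro c hc
              rw [Finset.mem_erase, intact, Finset.mem_filter] at hc
              rw [intact, Finset.mem_filter]
              refine ⟨Finset.mem_univ _, fun b => ?_⟩
              rw [Finset.mem_erase]
              refine ⟨?_, hc.2.2 b⟩
              simp only [ne_eq, AttV.copy.injEq, not_and]
              intro _ hcc
              exact absurd hcc hc.1
          obtain ⟨c0, h4 | h4⟩ := h4
          · have h5 := Finset.card_le_card h4
            have h6 := Finset.pred_card_le_card_erase (s := intact S' a) (a := c0)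
            omega
          · have h5 := Finset.card_le_card h4
            omega
    · -- pass to a component
      obtain ⟨C, hCS, hCne, hCconn, hCtd⟩ : ∃ C ⊆ S, C.Nonempty ∧ Conn A C ∧ td A S ≤ td A C := by
        by_cases hSc : (sub A S).Connected
        · exact ⟨S, Finset.Subset.refl _, hS, ((conn_iff S).1 hSc).2, le_rfl⟩
        · by_contra hcon
          push Not at hcon
          have hpos : 0 < td A S := by
            obtain ⟨a, ha⟩ := hS
            have h1 := hcon {a} (by simpa using ha) (by simp) (conn_singleton a)
            omega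
          have : td A S ≤ td A S - 1 := by
            apply td_not_conn_le hS.ne_empty hSc
            intro C hC
            have h1 := hcon C hC.1 ((conn_iff C).1 hC.2.1).1 ((conn_iff C).1 hC.2.1).2
            omega
          omega
      set S'' : Finset (AttV α β N) := S'.filter (Over C) with hS''
      have hsub : S'' ⊆ S' := Finset.filter_subset _ _
      have hconn'' : (sub (att A H N) S'').Connected := by
        rw [conn_iff]
        obtain ⟨a0, ha0⟩ := hCne
        have hinC : ∀ a ∈ C, AttV.base a ∈ S'' := by
          intro a ha
          rw [hS'', Finset.mem_filter]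
          exact ⟨hin a (hCS ha), ha⟩
        refine ⟨⟨.base a0, hinC a0 ha0⟩, ?_⟩
        have main : ∀ P Q : Finset (AttV α β N), P ∪ Q = S'' → Disjoint P Q →
            Anti (att A H N) P Q → AttV.base a0 ∈ P → Q = ∅ := by
          intro P Q hPQ hd ha h0
          -- base part of Q is empty
          have hbase : ∀ a ∈ C, AttV.base a ∈ P := by
            rcases hCconn (C.filter fun a => AttV.base a ∈ P) (C.filter fun a => AttV.base a ∉ P)
              (Finset.filter_union_filter_not_eq _ _) (Finset.disjoint_filter_filter_not _ _ _) (by
                intro a h1 b h2 hab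
                rw [Finset.mem_filter] at h1 h2
                refine ha _ h1.2 (.base b) ?_ hab
                have h3 : AttV.base b ∈ P ∪ Q := by rw [hPQ]; exact hinC b h2.1
                rcases Finset.mem_union.1 h3 with h4 | h4
                · exact absurd h4 h2.2
                · exact h4) with h1 | h1
            · exfalso
              have : a0 ∈ C.filter fun a => AttV.base a ∈ P := by simp [ha0, h0]
              rw [h1] at this
              simp at this
            · intro a ha'
              by_contra hh
              have : a ∈ C.filter fun a => AttV.base a ∉ P := by simp [ha', hh]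
              rw [h1] at this
              simp at this
          rw [Finset.eq_empty_iff_forall_notMem]
          intro p hp
          have hpS : p ∈ S'' := by rw [← hPQ]; simp [hp]
          rw [hS'', Finset.mem_filter] at hpS
          rcases p with a | ⟨q1, q2, q3⟩
          · exact Finset.disjoint_left.1 hd (hbase a hpS.2) hp
          · exact ha _ (hbase q1 hpS.2) _ hp (att_base_copy.2 rfl)
        intro P Q hPQ hd ha
        have h0 : AttV.base a0 ∈ P ∪ Q := by rw [hPQ]; exact hinC a0 ha0
        rcases Finset.mem_union.1 h0 with h1 | h1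
        · right; exact main P Q hPQ hd ha h1
        · left; exact main Q P (by rw [Finset.union_comm]; exact hPQ) hd.symm ha.symm h1
      have hlt : S''.card < S'.card := by
        refine Finset.card_lt_card (Finset.ssubset_iff_subset_ne.2 ⟨hsub, ?_⟩)
        intro hh
        rw [hh] at hconn''
        exact hconn hconn''
      have h1 := ih S'' (by omega) C r hCne ?_ ?_
      · have h2 := td_mono' (G := att A H N) hsub
        omega
      · intro a ha
        rw [hS'', Finset.mem_filter]
        exact ⟨hin a (hCS ha), ha⟩
      · intro a ha
        refine (hint a (hCS ha)).trans (Finset.card_le_card ?_)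
        intro c hc
        rw [intact, Finset.mem_filter] at hc ⊢
        refine ⟨Finset.mem_univ _, fun b => ?_⟩
        rw [hS'', Finset.mem_filter]
        exact ⟨hc.2 b, ha⟩

/-- treedepth of complete graphs -/
lemma td_top_ge {V : Type*} : ∀ (n : ℕ) (S : Finset V), S.card ≤ n →
    S.card ≤ td (⊤ : SimpleGraph V) S := by
  intro n
  induction n with
  | zero => intro S hS; omega
  | succ n ih =>
    intro S hS
    by_cases hS0 : S = ∅
    · subst hS0; simp
    have hconn : (sub (⊤ : SimpleGraph V) S).Connected := by
      rw [conn_iff]
      refine ⟨Finset.nonempty_iff_ne_empty.2 hS0, ?_⟩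
      intro A B _ hd ha
      by_contra hcon
      push Not at hcon
      obtain ⟨⟨a, ha'⟩, ⟨b, hb⟩⟩ := hcon
      refine ha a ha' b hb ?_
      rw [top_adj]
      rintro rfl
      exact Finset.disjoint_left.1 hd ha' hb
    obtain ⟨v, hv, hveq⟩ := td_conn_attained hconn
    have h1 := Finset.card_erase_add_one hv
    have h2 := ih (S.erase v) (by omega)
    omega

lemma td2_le_card {V : Type*} {G : SimpleGraph V} : ∀ (n : ℕ) (S : Finset V), S.card ≤ n →
    td2 G S ≤ S.card := by
  intro n
  induction n with
  | zero =>
    intro S hS
    have : S = ∅ := Finset.card_eq_zero.1 (by omega)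
    subst this
    simp [td2_empty]
  | succ n ih =>
    intro S hS
    by_cases hS0 : S = ∅
    · subst hS0; simp [td2_empty]
    obtain ⟨v, hv⟩ := Finset.nonempty_iff_ne_empty.2 hS0
    have h1 := Finset.card_erase_add_one hv
    have h2 := ih (S.erase v) (by omega)
    have h3 := td2_le_erase (G := G) hv
    omega

lemma top_path_le {V : Type*} {S : Finset V} {x y : V} {l : List V}
    (h : IP (⊤ : SimpleGraph V) S x y l) : l.length ≤ 2 := by
  cases h with
  | single _ => simp
  | @cons _ b _ l ha hab hc h' =>
    cases l with
    | nil => simp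
    | cons c l =>
      have := hc c (by simp)
      exact absurd (by rw [top_adj]; exact this.1.symm) this.2

/-- lower bound construction -/
lemma lower : ∀ m k : ℕ, ∃ (V : Type) (_ : Fintype V) (G : SimpleGraph V),
    (∀ x y l, IP G Finset.univ x y l → l.length ≤ 2 * (m + 1)) ∧
    td2 G Finset.univ ≤ k + 1 ∧ Dn (m + 1) (k + 1) ≤ td G Finset.univ := by
  intro m
  induction m with
  | zero =>
    intro k
    refine ⟨Fin (k + 1), inferInstance, ⊤, ?_, ?_, ?_⟩
    · intro x y l h
      have := top_path_le h
      omega
    · have := td2_le_card (G := (⊤ : SimpleGraph (Fin (k + 1)))) _ Finset.univ le_rfl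
      simpa using this
    · have := td_top_ge (V := Fin (k + 1)) _ Finset.univ le_rfl
      simp only [Finset.card_univ, Fintype.card_fin] at this
      refine le_trans ?_ this
      simp [Dn]
      omega
  | succ m ihm =>
    intro k
    induction k with
    | zero =>
      refine ⟨Fin 1, inferInstance, ⊤, ?_, ?_, ?_⟩
      · intro x y l h
        have := top_path_le h
        omega
      · have := td2_le_card (G := (⊤ : SimpleGraph (Fin 1))) _ Finset.univ le_rfl
        simpa using this
      · have := td_top_ge (V := Fin 1) _ Finset.univ le_rfl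
        simp only [Finset.card_univ, Fintype.card_fin] at this
        refine le_trans ?_ this
        simp [Dn]
    | succ k ihk =>
      obtain ⟨α, _, A, hA1, hA2, hA3⟩ := ihm (k + 1)
      obtain ⟨β, _, H, hH1, hH2, hH3⟩ := ihk
      set N := td A Finset.univ + td H Finset.univ with hN
      refine ⟨_, inferInstance, att A H N, ?_, ?_, ?_⟩
      · intro x y l h
        have := att_path_le (M := 2 * (m + 1)) hA1 (by
          intro x y l h
          have := hH1 x y l h
          omega) x y l h
        omega
      · exact att_td2_le hA2 hH2
      · have hne : (Finset.univ : Finset α).Nonempty := by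
          rw [Finset.nonempty_iff_ne_empty]
          intro hh
          rw [hh, td_empty] at hA3
          have := Dn_pos (m + 1) (k + 1)
          omega
        have := att_td_ge (A := A) (H := H) (N := N) _ Finset.univ le_rfl Finset.univ N hne
          (by simp) (by simp [intact])
        rw [Dn_succ]
        omega

end Lower2

/-- **Treedepth of `P_t`-free graphs of bounded 2-treedepth.**  For all `t ≥ 2`, `k ≥ 1` the
maximum treedepth of a `P_t`-free finite graph with 2-treedepth at most `k` equals
`C(⌊(t-1)/2⌋ + k - 1, ⌊(t-1)/2⌋)`. -/
theorem main (t k : ℕ) (ht : 2 ≤ t) (hk : 1 ≤ k) :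
    IsGreatest {d : ℕ | ∃ (V : Type) (_ : Fintype V) (G : SimpleGraph V),
      ¬ Nonempty (pathGraph t ↪g G) ∧ td2 G Finset.univ ≤ k ∧ td G Finset.univ = d}
      (Nat.choose ((t - 1) / 2 + k - 1) ((t - 1) / 2)) := by
  obtain ⟨k, rfl⟩ : ∃ k', k = k' + 1 := ⟨k - 1, by omega⟩
  have hupper : ∀ (V : Type) (_ : Fintype V) (G : SimpleGraph V),
      ¬ Nonempty (pathGraph t ↪g G) → td2 G Finset.univ ≤ k + 1 →
      td G Finset.univ ≤ Nat.choose ((t - 1) / 2 + (k + 1) - 1) ((t - 1) / 2) := by
    intro V _ G hfree h2
    rw [free_iff (by omega)] at hfree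
    have := td_le_of_paths (m := (t - 1) / 2) h2 (by
      intro x y l hl
      have := hfree x y l hl
      omega)
    simpa [Dn] using this
  constructor
  · -- attained
    obtain ⟨V, hV, G, h1, h2, h3⟩ : ∃ (V : Type) (_ : Fintype V) (G : SimpleGraph V),
        ¬ Nonempty (pathGraph t ↪g G) ∧ td2 G Finset.univ ≤ k + 1 ∧
        Nat.choose ((t - 1) / 2 + (k + 1) - 1) ((t - 1) / 2) ≤ td G Finset.univ := by
      by_cases ht2 : t = 2
      · subst ht2
        refine ⟨Fin 1, inferInstance, ⊤, ?_, ?_, ?_⟩
        · rw [free_iff (by omega)]
          intro x y l h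
          have := h.self (Subsingleton.elim _ _)
          omega
        · have := td2_le_card (G := (⊤ : SimpleGraph (Fin 1))) _ Finset.univ le_rfl
          simp only [Finset.card_univ, Fintype.card_fin] at this
          omega
        · have := td_top_ge (V := Fin 1) _ Finset.univ le_rfl
          simp only [Finset.card_univ, Fintype.card_fin] at this
          refine le_trans ?_ this
          simp
      · obtain ⟨V, hV, G, h1, h2, h3⟩ := lower ((t - 1) / 2 - 1) k
        have hm : (t - 1) / 2 - 1 + 1 = (t - 1) / 2 := by omega
        rw [hm] at h1 h3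
        refine ⟨V, hV, G, ?_, h2, ?_⟩
        · rw [free_iff (by omega)]
          intro x y l h
          have := h1 x y l h
          omega
        · simpa [Dn] using h3
    exact ⟨V, hV, G, h1, h2, le_antisymm (hupper V hV G h1 h2) h3⟩
  · rintro d ⟨V, hV, G, h1, h2, rfl⟩
    exact hupper V hV G h1 h2

end Pool.Agent.Helper8.Treedepth
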